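import Pool.Agent.MP_e0ff90_an.Sys

/-!
# A system for the free group on two generators
-/

set_option linter.unusedSectionVars false

namespace MP_e0ff90_an

open FreeGroup (of)

/-- The free group on two generators. -/
abbrev F2 : Type := FreeGroup Bool

/-- The generators and their inverses. -/
def gens : Finset F2 := Finset.univ.image (fun t : Bool => (of t : F2)) ∪
  Finset.univ.image (fun t : Bool => (of t : F2)⁻¹)

theorem mem_gens {s : F2} : s ∈ gens ↔ ∃ t, s = of t ∨ s = (of t)⁻¹ := by
  simp only [gens, Finset.mem_union, Finset.mem_image, Finset.mem_univ, true_and]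
  constructor
  · rintro (⟨t, ht⟩ | ⟨t, ht⟩)
    · exact ⟨t, Or.inl ht.symm⟩
    · exact ⟨t, Or.inr ht.symm⟩
  · rintro ⟨t, ht | ht⟩
    · exact Or.inl ⟨t, ht.symm⟩
    · exact Or.inr ⟨t, ht.symm⟩

/-- Balls. -/
def ball : ℕ → Finset F2
  | 0 => {1}
  | n + 1 => ball n ∪ (gens ×ˢ ball n).image (fun p => p.1 * p.2)

theorem ball_succ (n : ℕ) : ball (n + 1) = ball n ∪ (gens ×ˢ ball n).image (fun p => p.1 * p.2) :=
  rfl

theorem ball_mono {n m : ℕ} (h : n ≤ m) : ball n ⊆ ball m := by
  induction h with
  | refl => exact Finset.Subset.refl _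
  | step _ ih => exact ih.trans Finset.subset_union_left

theorem mul_mem_ball {n : ℕ} {s w : F2} (hs : s ∈ gens) (hw : w ∈ ball n) :
    s * w ∈ ball (n + 1) := by
  rw [ball_succ, Finset.mem_union, Finset.mem_image]
  exact Or.inr ⟨(s, w), Finset.mem_product.2 ⟨hs, hw⟩, rfl⟩

theorem one_mem_ball (n : ℕ) : (1 : F2) ∈ ball n :=
  ball_mono (Nat.zero_le n) (by simp [ball])

theorem mul_mem_ball' {n m : ℕ} {v w : F2} (hv : v ∈ ball n) (hw : w ∈ ball m) :
    v * w ∈ ball (n + m) := by
  induction n generalizing v with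
  | zero =>
    simp only [ball, Finset.mem_singleton] at hv
    subst hv
    simpa using hw
  | succ n ih =>
    rw [ball_succ, Finset.mem_union, Finset.mem_image] at hv
    rcases hv with hv | ⟨⟨s, v'⟩, hp, rfl⟩
    · exact ball_mono (by omega) (ih hv)
    · rw [Finset.mem_product] at hp
      have := mul_mem_ball hp.1 (ih hp.2)
      rw [mul_assoc]
      exact ball_mono (by omega) this

theorem exists_mem_ball (g : F2) : ∃ n, g ∈ ball n := by
  induction g using FreeGroup.induction_on with
  | C1 => exact ⟨0, one_mem_ball 0⟩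
  | of t =>
    refine ⟨1, ?_⟩
    have := mul_mem_ball (mem_gens.2 ⟨t, Or.inl rfl⟩) (one_mem_ball 0)
    simpa using this
  | inv_of t _ =>
    refine ⟨1, ?_⟩
    have := mul_mem_ball (mem_gens.2 ⟨t, Or.inr rfl⟩) (one_mem_ball 0)
    simpa using this
  | mul x y hx hy =>
    obtain ⟨n, hn⟩ := hx
    obtain ⟨m, hm⟩ := hy
    exact ⟨n + m, mul_mem_ball' hn hm⟩

/-- Points of the `m`-th ball. -/
abbrev B (m : ℕ) : Type := {w : F2 // w ∈ ball m}

/-- The partial injection `x ↦ t x` on the ball. -/
def partialMul (m : ℕ) (t : Bool) :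
    {x : B m // (of t : F2) * x.1 ∈ ball m} ≃ {x : B m // (of t : F2)⁻¹ * x.1 ∈ ball m} where
  toFun x := ⟨⟨of t * x.1.1, x.2⟩, by simp⟩
  invFun x := ⟨⟨(of t)⁻¹ * x.1.1, x.2⟩, by simp⟩
  left_inv x := by ext; simp
  right_inv x := by ext; simp

/-- The finite quotients of `F2`. -/
noncomputable def piHom (m : ℕ) : F2 →* Equiv.Perm (B m) :=
  FreeGroup.lift (fun t => (partialMul m t).extendSubtype)

theorem piHom_of {m : ℕ} (t : Bool) (x : B m) (hx : of t * x.1 ∈ ball m) :
    piHom m (of t) x = ⟨of t * x.1, hx⟩ := by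
  rw [piHom, FreeGroup.lift_apply_of]
  exact Equiv.extendSubtype_apply_of_mem (partialMul m t) x hx

theorem piHom_gen {m : ℕ} {s : F2} (hs : s ∈ gens) (x : B m) (hx : s * x.1 ∈ ball m) :
    piHom m s x = ⟨s * x.1, hx⟩ := by
  obtain ⟨t, rfl | rfl⟩ := mem_gens.1 hs
  · exact piHom_of t x hx
  · rw [map_inv, Equiv.Perm.inv_eq_iff_eq]
    rw [piHom_of t ⟨(of t)⁻¹ * x.1, hx⟩ (by simp)]
    ext
    simp

theorem piHom_one {m j : ℕ} (hj : j ≤ m) {w : F2} (hw : w ∈ ball j) :
    piHom m w ⟨1, one_mem_ball m⟩ = ⟨w, ball_mono hj hw⟩ := by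
  induction j generalizing w with
  | zero =>
    simp only [ball, Finset.mem_singleton] at hw
    subst hw
    simp
  | succ j ih =>
    have hw' := hw
    rw [ball_succ, Finset.mem_union, Finset.mem_image] at hw
    rcases hw with hw | ⟨⟨s, v⟩, hp, rfl⟩
    · exact ih (by omega) hw
    · rw [Finset.mem_product] at hp
      simp only at hp hw' ⊢
      rw [map_mul, Equiv.Perm.mul_apply, ih (by omega) hp.2]
      exact piHom_gen hp.1 _ (ball_mono hj hw')

theorem piHom_inj {m : ℕ} {g h : F2} (hg : g ∈ ball m) (hh : h ∈ ball m)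
    (heq : piHom m g = piHom m h) : g = h := by
  have h1 := piHom_one le_rfl hg
  rw [heq, piHom_one le_rfl hh] at h1
  exact (congrArg Subtype.val h1).symm

/-! ### Chains -/

section Chain

variable {Q : Type} [Group Q] [Fintype Q] [DecidableEq Q] (π : F2 →* Q)

/-- The boundary of a chain. -/
def bdry (c : Q × Bool → ZMod 2) (w : Q) : ZMod 2 :=
  ∑ t, (c (w, t) + c (w * (π (of t))⁻¹, t))

/-- Indicator. -/
def ind (p w : Q) : ZMod 2 := if w = p then 1 else 0

theorem bdry_add (c d : Q × Bool → ZMod 2) (w : Q) :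
    bdry π (c + d) w = bdry π c w + bdry π d w := by
  simp only [bdry, Pi.add_apply, ← Finset.sum_add_distrib]
  refine Finset.sum_congr rfl fun t _ => ?_
  ring

theorem bdry_single (v : Q) (t : Bool) (w : Q) :
    bdry π (Pi.single (v, t) 1) w = ind v w + ind (v * π (of t)) w := by
  have h1 : ∀ s : Bool, (Pi.single (v, t) 1 : Q × Bool → ZMod 2) (w, s) +
      (Pi.single (v, t) 1 : Q × Bool → ZMod 2) (w * (π (of s))⁻¹, s) =
      if s = t then ind v w + ind (v * π (of t)) w else 0 := by
    intro s
    by_cases hs : s = t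
    · subst hs
      simp only [Pi.single_apply, Prod.mk.injEq, and_true, if_true, ind, mul_inv_eq_iff_eq_mul]
    · simp [hs]
  simp only [bdry, h1]
  simp

/-- The support of a chain. -/
def supp (c : Q × Bool → ZMod 2) : Finset (Q × Bool) := Finset.univ.filter (fun e => c e ≠ 0)

theorem zmod2_cases (d : ZMod 2) : d = 0 ∨ d = 1 := by
  fin_cases d
  · left; rfl
  · right; rfl

theorem zmod2_ne_zero {d : ZMod 2} (h : d ≠ 0) : d = 1 := (zmod2_cases d).resolve_left h

theorem zmod2_add_self (d : ZMod 2) : d + d = 0 := by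
  rcases zmod2_cases d with h | h <;> subst h <;> decide

theorem supp_add_single {c : Q × Bool → ZMod 2} {e : Q × Bool} (he : c e ≠ 0) :
    supp (c + Pi.single e 1) = (supp c).erase e := by
  ext x
  simp only [supp, Finset.mem_filter, Finset.mem_univ, true_and, Finset.mem_erase, Pi.add_apply]
  by_cases hx : x = e
  · subst hx
    simp [zmod2_ne_zero he, zmod2_add_self]
  · simp [hx]

theorem chain_lemma (k : ℕ) : ∀ (p q : Q) (c : Q × Bool → ZMod 2), (supp c).card ≤ k →
    (∀ w, bdry π c w = ind p w + ind q w) → ∃ w ∈ ball k, q = p * π w := by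
  induction k with
  | zero =>
    intro p q c hc hb
    refine ⟨1, one_mem_ball 0, ?_⟩
    by_contra hne
    have h0 : ∀ e, c e = 0 := by
      intro e
      by_contra he
      have : e ∈ supp c := by simp [supp, he]
      rw [Finset.card_eq_zero.1 (Nat.le_zero.1 hc)] at this
      simp at this
    have h1 := hb p
    rw [ind, ind, if_pos rfl, if_neg (fun h => hne (by rw [h, map_one, mul_one]))] at h1
    simp [bdry, h0] at h1
  | succ k ih =>
    intro p q c hc hb
    by_cases hpq : q = p
    · exact ⟨1, one_mem_ball _, by rw [hpq, map_one, mul_one]⟩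
    · have h1 := hb p
      rw [ind, ind, if_pos rfl, if_neg (fun h => hpq h.symm), add_zero] at h1
      have h2 : ∃ t, c (p, t) + c (p * (π (of t))⁻¹, t) ≠ 0 := by
        by_contra hcon
        push Not at hcon
        rw [bdry, Finset.sum_eq_zero (fun t _ => hcon t)] at h1
        exact zero_ne_one h1
      obtain ⟨t, ht⟩ := h2
      by_cases h3 : c (p, t) ≠ 0
      · -- remove the edge starting at `p`
        obtain ⟨w, hw, hw'⟩ := ih (p * π (of t)) q (c + Pi.single (p, t) 1) (by
          rw [supp_add_single h3, Finset.card_erase_of_mem (by simp [supp, h3])]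
          omega) (by
          intro w
          rw [bdry_add, hb, bdry_single]
          have := zmod2_add_self (ind p w)
          linear_combination this)
        refine ⟨of t * w, mul_mem_ball (mem_gens.2 ⟨t, Or.inl rfl⟩) hw, ?_⟩
        rw [hw', map_mul, mul_assoc]
      · push Not at h3
        rw [h3, zero_add] at ht
        obtain ⟨w, hw, hw'⟩ := ih (p * (π (of t))⁻¹) q
          (c + Pi.single (p * (π (of t))⁻¹, t) 1) (by
          rw [supp_add_single ht, Finset.card_erase_of_mem (by simp [supp, ht])]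
          omega) (by
          intro w
          rw [bdry_add, hb, bdry_single, inv_mul_cancel_right]
          have := zmod2_add_self (ind p w)
          linear_combination this)
        refine ⟨(of t)⁻¹ * w, mul_mem_ball (mem_gens.2 ⟨t, Or.inr rfl⟩) hw, ?_⟩
        rw [hw', map_mul, map_inv, mul_assoc]

/-- The action of a generator on `Q × Bool × ZMod 2`. -/
def genPerm (t : Bool) : Equiv.Perm (Q × Bool × ZMod 2) where
  toFun x := (π (of t) * x.1, x.2.1, x.2.2 +
    (Pi.single (1, t) 1 : Q × Bool → ZMod 2) (π (of t) * x.1, x.2.1))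
  invFun x := ((π (of t))⁻¹ * x.1, x.2.1, x.2.2 -
    (Pi.single (1, t) 1 : Q × Bool → ZMod 2) (x.1, x.2.1))
  left_inv x := by simp
  right_inv x := by simp

/-- The action of `F2` on `Q × Bool × ZMod 2`. -/
def sigHom : F2 →* Equiv.Perm (Q × Bool × ZMod 2) := FreeGroup.lift (genPerm π)

/-- `c` is the cocycle of `g`. -/
structure IsCocycle (g : F2) (c : Q × Bool → ZMod 2) : Prop where
  act : ∀ v s i, sigHom π g (v, s, i) = (π g * v, s, i + c (π g * v, s))
  bd : ∀ w, bdry π c w = ind 1 w + ind (π g) w

theorem isCocycle_one : IsCocycle π 1 0 where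
  act := by intro v s i; simp
  bd := by
    intro w
    rw [map_one, zmod2_add_self]
    simp [bdry]

theorem isCocycle_of (t : Bool) : IsCocycle π (of t) (Pi.single (1, t) 1) where
  act := by
    intro v s i
    rw [sigHom, FreeGroup.lift_apply_of]
    rfl
  bd := by
    intro w
    rw [bdry_single, one_mul]

theorem IsCocycle.inv {g : F2} {c : Q × Bool → ZMod 2} (h : IsCocycle π g c) :
    IsCocycle π g⁻¹ (fun e => c (π g * e.1, e.2)) where
  act := by
    intro v s i
    rw [map_inv, Equiv.Perm.inv_eq_iff_eq, h.act, map_inv]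
    simp only [mul_inv_cancel_left, add_assoc, zmod2_add_self, add_zero]
  bd := by
    intro w
    have h1 : bdry π (fun e => c (π g * e.1, e.2)) w = bdry π c (π g * w) := by
      simp only [bdry, mul_assoc]
    rw [h1, h.bd, add_comm, map_inv]
    simp only [ind]
    congr 1
    · have : π g * w = π g ↔ w = 1 := by
        constructor
        · intro h; simpa using h
        · intro h; rw [h, mul_one]
      simp only [this]
    · have : π g * w = 1 ↔ w = (π g)⁻¹ := by
        rw [mul_eq_one_iff_inv_eq, eq_comm]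
      simp only [this]

theorem IsCocycle.mul {g h : F2} {c d : Q × Bool → ZMod 2} (hg : IsCocycle π g c)
    (hh : IsCocycle π h d) :
    IsCocycle π (g * h) (fun e => c e + d ((π g)⁻¹ * e.1, e.2)) where
  act := by
    intro v s i
    rw [map_mul, Equiv.Perm.mul_apply, hh.act, hg.act, map_mul]
    simp only [mul_assoc, inv_mul_cancel_left]
    rw [add_assoc, add_comm (d _)]
  bd := by
    intro w
    have h1 : bdry π (fun e => c e + d ((π g)⁻¹ * e.1, e.2)) w =
        bdry π c w + bdry π d ((π g)⁻¹ * w) := by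
      simp only [bdry, mul_assoc, ← Finset.sum_add_distrib]
      refine Finset.sum_congr rfl fun t _ => ?_
      ring
    rw [h1, hg.bd, hh.bd, map_mul]
    have h2 : ind 1 ((π g)⁻¹ * w) = ind (π g) w := by
      simp only [ind]
      have : (π g)⁻¹ * w = 1 ↔ w = π g := by
        rw [inv_mul_eq_one, eq_comm]
      simp only [this]
    have h3 : ind (π h) ((π g)⁻¹ * w) = ind (π g * π h) w := by
      simp only [ind]
      have : (π g)⁻¹ * w = π h ↔ w = π g * π h := by
        rw [inv_mul_eq_iff_eq_mul]
      simp only [this]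
    rw [h2, h3]
    have := zmod2_add_self (ind (π g) w)
    linear_combination this

end Chain

theorem exists_cocycle (g : F2) : ∃ L : ℕ, ∀ m, ∃ c, IsCocycle (piHom m) g c ∧
    (supp c).card ≤ L := by
  induction g using FreeGroup.induction_on with
  | C1 => exact ⟨0, fun m => ⟨0, isCocycle_one _, by simp [supp]⟩⟩
  | of t =>
    refine ⟨1, fun m => ⟨_, isCocycle_of _ t, ?_⟩⟩
    rw [Finset.card_le_one_iff_subset_singleton]
    refine ⟨(1, t), fun e he => ?_⟩
    simp only [supp, Finset.mem_filter, Finset.mem_univ, true_and] at he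
    by_contra hne
    apply he
    rw [Finset.mem_singleton] at hne
    simp [hne]
  | inv_of t h =>
    obtain ⟨L, hL⟩ := h
    refine ⟨L, fun m => ?_⟩
    obtain ⟨c, hc, hc'⟩ := hL m
    refine ⟨_, hc.inv, le_trans ?_ hc'⟩
    refine Finset.card_le_card_of_injOn (fun e => (piHom m (FreeGroup.of t) * e.1, e.2)) ?_ ?_
    · intro e he
      simpa [supp] using he
    · rintro ⟨a, b⟩ _ ⟨a', b'⟩ _ h
      simpa using h
  | mul x y hx hy =>
    obtain ⟨L, hL⟩ := hx
    obtain ⟨L', hL'⟩ := hy
    refine ⟨L + L', fun m => ?_⟩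
    obtain ⟨c, hc, hcard⟩ := hL m
    obtain ⟨d, hd, hdcard⟩ := hL' m
    refine ⟨_, hc.mul _ hd, ?_⟩
    have h1 : supp (fun e => c e + d ((piHom m x)⁻¹ * e.1, e.2)) ⊆
        supp c ∪ (supp d).image (fun e => (piHom m x * e.1, e.2)) := by
      intro e he
      simp only [supp, Finset.mem_filter, Finset.mem_univ, true_and, Finset.mem_union,
        Finset.mem_image] at he ⊢
      by_contra hcon
      push Not at hcon
      apply he
      rw [hcon.1, zero_add]
      by_contra hd'
      exact hcon.2 ((piHom m x)⁻¹ * e.1, e.2) hd' (by simp)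
    refine (Finset.card_le_card h1).trans ((Finset.card_union_le _ _).trans ?_)
    exact add_le_add hcard (Finset.card_image_le.trans hdcard)

end MP_e0ff90_an
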