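import Mathlib

/-!
# States on a C⋆-algebra
-/

namespace MP_e0ff90_an

open scoped ComplexConjugate

section State

variable {A : Type*} [CStarAlgebra A] [PartialOrder A] [StarOrderedRing A]

omit [PartialOrder A] [StarOrderedRing A] in
/-- A contractive unital functional is real on selfadjoint elements. -/
theorem im_eq_zero_of_selfAdjoint (g : A →ₗ[ℂ] ℂ) (hg : ∀ a, ‖g a‖ ≤ ‖a‖) (h1 : g 1 = 1)
    {a : A} (ha : IsSelfAdjoint a) : (g a).im = 0 := by
  have key : ∀ s : ℝ, 2 * s * (g a).im ≤ ‖a‖ ^ 2 := by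
    intro s
    have e1 : ‖g (a + (Complex.I * s) • (1 : A))‖ ^ 2 ≤ ‖a + (Complex.I * s) • (1 : A)‖ ^ 2 := by
      gcongr; exact hg _
    have e2 : ‖a + (Complex.I * s) • (1 : A)‖ ^ 2 ≤ ‖a‖ ^ 2 + s ^ 2 := by
      rw [sq, ← CStarRing.norm_star_mul_self]
      have : star (a + (Complex.I * s) • (1 : A)) * (a + (Complex.I * s) • (1 : A)) =
          a * a + ((s ^ 2 : ℝ) : ℂ) • (1 : A) := by
        rw [star_add, star_smul, star_one, ha.star_eq]
        simp only [mul_add, add_mul, smul_mul_assoc, mul_smul_comm, one_mul, mul_one,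
          Complex.star_def, map_mul, Complex.conj_I, Complex.conj_ofReal]
        have h2 : -Complex.I * (s : ℂ) * (Complex.I * (s : ℂ)) = ((s ^ 2 : ℝ) : ℂ) := by
          push_cast
          linear_combination (-(s : ℂ) ^ 2) * Complex.I_sq
        have h3 : Complex.I * (s : ℂ) * (-Complex.I * (s : ℂ)) = ((s ^ 2 : ℝ) : ℂ) := by
          rw [← h2]; ring
        rw [smul_add, smul_smul, h3, neg_mul, neg_smul]
        abel
      rw [this]
      refine (norm_add_le _ _).trans ?_
      have h4 : ‖a * a‖ ≤ ‖a‖ ^ 2 := by rw [sq]; exact norm_mul_le _ _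
      have h5 : ‖((s ^ 2 : ℝ) : ℂ) • (1 : A)‖ ≤ s ^ 2 := by
        rw [norm_smul, Complex.norm_real, Real.norm_of_nonneg (sq_nonneg s)]
        rcases subsingleton_or_nontrivial A with h | h
        · have : (1 : A) = 0 := Subsingleton.elim _ _
          rw [this, norm_zero, mul_zero]
          positivity
        · rw [CStarRing.norm_one, mul_one]
      linarith
    rw [map_add, map_smul, h1, smul_eq_mul, mul_one, ← Complex.normSq_eq_norm_sq,
      Complex.normSq_apply] at e1
    simp only [Complex.add_re, Complex.add_im, Complex.mul_re, Complex.mul_im, Complex.I_re,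
      Complex.I_im, Complex.ofReal_re, Complex.ofReal_im] at e1
    nlinarith [mul_self_nonneg (g a).re, mul_self_nonneg (g a).im]
  by_contra hne
  have h := key ((‖a‖ ^ 2 + 1) / (2 * (g a).im))
  have h2 : 2 * ((‖a‖ ^ 2 + 1) / (2 * (g a).im)) * (g a).im = ‖a‖ ^ 2 + 1 := by
    field_simp
  rw [h2] at h
  linarith

theorem re_nonneg_of_nonneg (g : A →ₗ[ℂ] ℂ) (hg : ∀ a, ‖g a‖ ≤ ‖a‖) (h1 : g 1 = 1)
    {a : A} (ha : 0 ≤ a) : 0 ≤ (g a).re := by
  by_cases h0 : a = 0
  · simp [h0]
  · have hpos : 0 < ‖a‖ := norm_pos_iff.2 h0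
    set b : A := ((‖a‖⁻¹ : ℝ) : ℂ) • a with hb
    have hbeq : b = (‖a‖⁻¹ : ℝ) • a := by rw [hb, Complex.coe_smul]
    have hb0 : 0 ≤ b := by
      rw [hbeq]; exact smul_nonneg (by positivity) ha
    have hb1 : ‖b‖ ≤ 1 := by
      rw [hb, norm_smul, Complex.norm_real, norm_inv, norm_norm, inv_mul_cancel₀ hpos.ne']
    have hb2 : b ≤ 1 := (CStarAlgebra.norm_le_one_iff_of_nonneg b hb0).1 hb1
    have hb3 : ‖1 - b‖ ≤ 1 := by
      rw [CStarAlgebra.norm_le_one_iff_of_nonneg (1 - b) (sub_nonneg.2 hb2)]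
      exact sub_le_self _ hb0
    have h3 := (hg (1 - b)).trans hb3
    rw [map_sub, h1] at h3
    have h4 : (1 - g b).re ≤ 1 := (Complex.re_le_norm _).trans h3
    rw [Complex.sub_re, Complex.one_re] at h4
    have h5 : 0 ≤ (g b).re := by linarith
    rw [hb, map_smul, smul_eq_mul, Complex.re_ofReal_mul] at h5
    exact (mul_nonneg_iff_of_pos_left (by positivity)).1 h5

/-- A positive functional: `ψ(a* a)` is a nonnegative real number, and `ψ(a*) = conj ψ(a)`. -/
structure IsPos {A : Type*} [Ring A] [StarRing A] [Algebra ℂ A] (ψ : A →ₗ[ℂ] ℂ) : Prop where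
  map_star : ∀ a, ψ (star a) = conj (ψ a)
  nonneg : ∀ a, 0 ≤ (ψ (star a * a)).re

theorem isPos_of_contractive (g : A →ₗ[ℂ] ℂ) (hg : ∀ a, ‖g a‖ ≤ ‖a‖) (h1 : g 1 = 1) :
    IsPos g where
  map_star := by
    intro a
    have h2 : (g (a + star a)).im = 0 :=
      im_eq_zero_of_selfAdjoint g hg h1 (IsSelfAdjoint.add_star_self a)
    have h3 : (g (Complex.I • (a - star a))).im = 0 := by
      refine im_eq_zero_of_selfAdjoint g hg h1 ?_
      rw [IsSelfAdjoint, star_smul, star_sub, star_star, Complex.star_def, Complex.conj_I,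
        neg_smul, ← smul_neg, neg_sub]
    rw [map_add, Complex.add_im] at h2
    rw [map_smul, map_sub, smul_eq_mul, Complex.mul_im, Complex.I_re, Complex.I_im,
      Complex.sub_re, Complex.sub_im] at h3
    apply Complex.ext
    · rw [Complex.conj_re]; linarith
    · rw [Complex.conj_im]; linarith
  nonneg := fun a => re_nonneg_of_nonneg g hg h1 (star_mul_self_nonneg a)

end State

section CS

variable {A : Type*} [Ring A] [StarRing A] [Algebra ℂ A] [StarModule ℂ A]

/-- The pre-inner product of a positive functional. -/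
@[instance_reducible]
noncomputable def IsPos.core {ψ : A →ₗ[ℂ] ℂ} (h : IsPos ψ) : PreInnerProductSpace.Core ℂ A where
  inner a b := ψ (star a * b)
  conj_inner_symm := by
    intro a b
    rw [← h.map_star, star_mul, star_star]
  re_inner_nonneg := fun a => h.nonneg a
  add_left := by
    intro a b c
    rw [star_add, add_mul, map_add]
  smul_left := by
    intro a b r
    rw [star_smul, smul_mul_assoc, map_smul]
    rfl

theorem IsPos.cauchySchwarz {ψ : A →ₗ[ℂ] ℂ} (h : IsPos ψ) (a b : A) :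
    ‖ψ (star a * b)‖ ^ 2 ≤ (ψ (star a * a)).re * (ψ (star b * b)).re := by
  have h1 := @InnerProductSpace.Core.inner_mul_inner_self_le ℂ A _ _ _ h.core a b
  have h2 : ‖ψ (star b * a)‖ = ‖ψ (star a * b)‖ := by
    rw [← Complex.norm_conj, ← h.map_star, star_mul, star_star]
  change ‖ψ (star a * b)‖ * ‖ψ (star b * a)‖ ≤
    (ψ (star a * a)).re * (ψ (star b * b)).re at h1
  rw [h2] at h1
  rwa [sq]

end CS

end MP_e0ff90_an
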