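import Pool.Agent.MP_e0ff90_an.GroupVN
import Pool.Agent.MP_e0ff90_an.Free
import Pool.Agent.MP_e0ff90_an.State

/-!
# First letters of words in the free group, and indicator operators
-/

namespace MP_e0ff90_an

open FreeGroup (of)
open scoped InnerProductSpace

theorem head_of_mul (t : Bool) (g : F2) :
    (of t * g).toWord.head? = some (t, true) ↔ g.toWord.head? ≠ some (t, false) := by
  have h1 : (of t * g).toWord = FreeGroup.reduce ((t, true) :: g.toWord) := by
    rw [FreeGroup.toWord_mul, FreeGroup.toWord_of]
    rfl
  rw [h1, FreeGroup.reduce.cons, FreeGroup.reduce_toWord]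
  have hnot : ∀ tl, g.toWord = (t, false) :: (t, true) :: tl → False := by
    intro tl h
    have h2 : FreeGroup.reduce g.toWord = [] ++ (t, false) :: (t, !false) :: tl := by
      rw [FreeGroup.reduce_toWord, h]; rfl
    exact FreeGroup.reduce.not h2
  cases hL : g.toWord with
  | nil => simp
  | cons hd tl =>
    obtain ⟨y, c⟩ := hd
    simp only
    by_cases hc : t = y ∧ true = !c
    · rw [if_pos hc]
      obtain ⟨rfl, hc2⟩ := hc
      have hc3 : c = false := by
        cases c
        · rfl
        · simp at hc2
      subst hc3
      simp only [List.head?_cons, ne_eq, not_true_eq_false, iff_false]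
      intro h3
      cases htl : tl with
      | nil => rw [htl] at h3; simp at h3
      | cons hd' tl' =>
        rw [htl] at h3
        simp only [List.head?_cons, Option.some.injEq] at h3
        subst h3
        exact hnot tl' (by rw [hL, htl])
    · rw [if_neg hc]
      simp only [List.head?_cons, ne_eq, Option.some.injEq, Prod.mk.injEq, not_and, true_iff]
      intro h3 h4
      apply hc
      refine ⟨h3.symm, ?_⟩
      rw [h4]; rfl

section Indicator

variable {G : Type} [Group G]

open Classical in
/-- Multiplication by the indicator function of `S`. -/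
noncomputable def indOp (S : Set G) : L2 G →L[ℂ] L2 G :=
  LinearMap.mkContinuous
    { toFun := fun ξ => L2.mk (fun g => if g ∈ S then ξ g else 0) (by
        refine Summable.of_nonneg_of_le (fun g => by positivity) (fun g => ?_) ξ.summable
        split_ifs <;> simp)
      map_add' := fun ξ η => by
        ext g
        simp only [L2.mk_apply, lp.coeFn_add, Pi.add_apply]
        split_ifs <;> simp
      map_smul' := fun c ξ => by
        ext g
        simp only [L2.mk_apply, lp.coeFn_smul, Pi.smul_apply, RingHom.id_apply]
        split_ifs <;> simp } 1 (fun ξ => by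
    rw [one_mul, ← sq_le_sq₀ (norm_nonneg _) (norm_nonneg _), L2.norm_sq, L2.norm_sq]
    refine Summable.tsum_le_tsum (fun g => ?_) (L2.summable _) ξ.summable
    simp only [LinearMap.coe_mk, AddHom.coe_mk, L2.mk_apply]
    split_ifs <;> simp)

omit [Group G] in
open Classical in
theorem indOp_apply (S : Set G) (ξ : L2 G) (g : G) :
    indOp S ξ g = if g ∈ S then ξ g else 0 := rfl

omit [Group G] in
theorem indOp_mul_self (S : Set G) : indOp S * indOp S = indOp S := by
  ext ξ g
  rw [mul_apply_eq_comp, indOp_apply, indOp_apply]
  split_ifs <;> rfl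

omit [Group G] in
theorem star_indOp (S : Set G) : star (indOp S) = indOp S := by
  rw [ContinuousLinearMap.star_eq_adjoint]
  symm
  rw [ContinuousLinearMap.eq_adjoint_iff]
  intro ξ η
  rw [lp.inner_eq_tsum, lp.inner_eq_tsum]
  refine tsum_congr fun g => ?_
  rw [indOp_apply, indOp_apply]
  split_ifs <;> simp

omit [Group G] in
theorem indOp_compl (S : Set G) : indOp S + indOp Sᶜ = 1 := by
  ext ξ g
  rw [add_apply, lp.coeFn_add, Pi.add_apply, indOp_apply, indOp_apply, one_apply_eq_self]
  by_cases h : g ∈ S <;> simp [h]

theorem indOp_conj (S : Set G) (h : G) :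
    star (lam h) * indOp S * lam h = indOp {g | h * g ∈ S} := by
  ext ξ g
  rw [star_lam, mul_apply_eq_comp, mul_apply_eq_comp, lam_apply, indOp_apply, indOp_apply,
    lam_apply, inv_inv, inv_mul_cancel_left]
  rfl

/-- The elements whose image in `F2` starts with the letter `x`. -/
def letterSet (p : G →* F2) (x : Bool × Bool) : Set G := {g | (p g).toWord.head? = some x}

theorem sum_letterSet (p : G →* F2) :
    indOp (letterSet p (true, true)) + indOp (letterSet p (true, false)) +
      indOp (letterSet p (false, true)) + indOp (letterSet p (false, false)) +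
      indOp {g | (p g).toWord.head? = none} = 1 := by
  ext ξ g
  simp only [add_apply, lp.coeFn_add, Pi.add_apply, indOp_apply, one_apply_eq_self, letterSet,
    Set.mem_ofPred_eq]
  rcases h : (p g).toWord.head? with _ | ⟨x, y⟩
  · simp
  · cases x <;> cases y <;> simp

/-- A paradoxical decomposition argument. -/
theorem paradox (p : G →* F2) (l : Bool → G) (hl : ∀ t, p (l t) = of t)
    (ψ : (L2 G →L[ℂ] L2 G) →ₗ[ℂ] ℂ) (hψ : IsPos ψ) (h1 : ψ 1 = 1)
    (hinv : ∀ t S, ‖ψ (star (lam (l t)) * indOp S * lam (l t)) - ψ (indOp S)‖ ≤ 1 / 4) :
    False := by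
  have hnn : ∀ S : Set G, 0 ≤ (ψ (indOp S)).re := by
    intro S
    have := hψ.nonneg (indOp S)
    rwa [star_indOp, indOp_mul_self] at this
  have hsum := congrArg (fun T => (ψ T).re) (sum_letterSet p)
  simp only [map_add, Complex.add_re, h1, Complex.one_re] at hsum
  have hrest := hnn {g | (p g).toWord.head? = none}
  have key : ∀ t, 1 - (ψ (indOp (letterSet p (t, false)))).re ≤
      (ψ (indOp (letterSet p (t, true)))).re + 1 / 4 := by
    intro t
    have e1 := congrArg (fun T => (ψ T).re) (indOp_compl (letterSet p (t, false)))
    simp only [map_add, Complex.add_re, h1, Complex.one_re] at e1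
    have e2 : (letterSet p (t, false))ᶜ = {g | l t * g ∈ letterSet p (t, true)} := by
      ext g
      simp only [letterSet, Set.mem_compl_iff, Set.mem_ofPred_eq, map_mul, hl]
      rw [head_of_mul]
    have e3 := hinv t (letterSet p (t, true))
    rw [indOp_conj, ← e2] at e3
    have e4 := (Complex.re_le_norm _).trans e3
    rw [Complex.sub_re] at e4
    linarith
  have k1 := key true
  have k2 := key false
  linarith

end Indicator

end MP_e0ff90_an
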