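import Pool.Agent.MP_e0ff90_an.Hypertrace
import Pool.Agent.MP_e0ff90_an.Words
import Pool.Agent.MP_e0ff90_an.Amplify

/-!
# `L(G)` is not isomorphic to a hyperfinite II₁ factor when `G` maps onto `F2`
-/

namespace MP_e0ff90_an

open FreeGroup (of)
open scoped InnerProductSpace ComplexConjugate

section Trace

variable {K : Type*} [NormedAddCommGroup K] [InnerProductSpace ℂ K] [CompleteSpace K]
  {M : VonNeumannAlgebra K} {τ : Alg M →ₗ[ℂ] ℂ}

theorem IsTrace.map_star (h : IsTrace M τ) (x : Alg M) : τ (star x) = conj (τ x) := by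
  obtain ⟨ξ, hξ, h2, _, _⟩ := h.exists_nsq
  rw [h2, h2, Complex.conj_tsum]
  refine tsum_congr fun i => ?_
  rw [inner_conj_symm]
  change ⟪ξ i, (star (x : K →L[ℂ] K)) (ξ i)⟫_ℂ = _
  rw [ContinuousLinearMap.star_eq_adjoint, ContinuousLinearMap.adjoint_inner_right]

theorem IsTrace.norm_le (h : IsTrace M τ) (x : Alg M) : ‖τ x‖ ≤ ‖(x : K →L[ℂ] K)‖ := by
  obtain ⟨ξ, hξ, h2, _, _⟩ := h.exists_nsq
  have hone : ∑' i, ‖ξ i‖ ^ 2 = 1 := by
    have h3 := h2 1
    rw [h.map_one] at h3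
    have h4 : ∀ i, ⟪ξ i, ((1 : Alg M) : K →L[ℂ] K) (ξ i)⟫_ℂ = ((‖ξ i‖ ^ 2 : ℝ) : ℂ) := by
      intro i
      change ⟪ξ i, (1 : K →L[ℂ] K) (ξ i)⟫_ℂ = _
      rw [one_apply_eq_self, inner_self_eq_norm_sq_to_K]
      push_cast
      rfl
    simp only [h4] at h3
    rw [← Complex.ofReal_tsum] at h3
    exact_mod_cast h3.symm
  have hb : ∀ i, ‖⟪ξ i, (x : K →L[ℂ] K) (ξ i)⟫_ℂ‖ ≤ ‖(x : K →L[ℂ] K)‖ * ‖ξ i‖ ^ 2 := by
    intro i
    calc _ ≤ ‖ξ i‖ * ‖(x : K →L[ℂ] K) (ξ i)‖ := norm_inner_le_norm _ _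
      _ ≤ ‖ξ i‖ * (‖(x : K →L[ℂ] K)‖ * ‖ξ i‖) := by
          gcongr; exact (x : K →L[ℂ] K).le_opNorm _
      _ = _ := by ring
  rw [h2]
  calc _ ≤ ∑' i, ‖(x : K →L[ℂ] K)‖ * ‖ξ i‖ ^ 2 :=
        tsum_of_norm_bounded (hξ.mul_left _).hasSum hb
    _ = ‖(x : K →L[ℂ] K)‖ := by rw [tsum_mul_left, hone, mul_one]

theorem IsTrace.isFaithfulPos (h : IsTrace M τ) : IsFaithfulPos τ where
  map_star := h.map_star
  nonneg := h.nsq_nonneg
  definite := h.faithful

end Trace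

instance {H : Type*} [NormedAddCommGroup H] [InnerProductSpace ℂ H] [CompleteSpace H]
    (N : VonNeumannAlgebra H) : IsClosed (N.toStarSubalgebra : Set (H →L[ℂ] H)) := by
  rw [VonNeumannAlgebra.coe_toStarSubalgebra, ← N.centralizer_centralizer]
  exact Set.isClosed_centralizer _

/-- ⋆-isomorphisms of von Neumann algebras are contractive. -/
theorem norm_starAlgEquiv_le {H K : Type*} [NormedAddCommGroup H] [InnerProductSpace ℂ H]
    [CompleteSpace H] [NormedAddCommGroup K] [InnerProductSpace ℂ K] [CompleteSpace K]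
    {N : VonNeumannAlgebra H} {M : VonNeumannAlgebra K} (Θ : Alg N ≃⋆ₐ[ℂ] Alg M) (x : Alg N) :
    ‖(Θ x : K →L[ℂ] K)‖ ≤ ‖(x : H →L[ℂ] H)‖ :=
  NonUnitalStarAlgHom.norm_apply_le Θ x

section Bound

variable {A : Type*} [Ring A] [StarRing A] [Algebra ℂ A] [StarModule ℂ A]

theorem conj_bound {ψ : A →ₗ[ℂ] ℂ} (hψ : IsPos ψ) {u q E : A} (hu' : u * star u = 1)
    (hE : star E = E) (hEE : E * E = E) (hE1 : (ψ (star u * E * u)).re ≤ 1)
    (hE2 : (ψ E).re ≤ 1) (hq : ∀ T, ψ (star q * T) = ψ (T * star q)) {ε : ℝ} (hε : 0 ≤ ε)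
    (h1 : (ψ (star (u - q) * (u - q))).re ≤ ε ^ 2)
    (h2 : (ψ ((u - q) * star (u - q))).re ≤ ε ^ 2) :
    ‖ψ (star u * E * u) - ψ E‖ ≤ 2 * ε := by
  have e0 : ψ (star u * E * u) - ψ E =
      ψ (star (u - q) * (E * u)) - ψ ((E * u) * star (u - q)) := by
    have a1 : star (u - q) * (E * u) = star u * E * u - star q * (E * u) := by
      rw [star_sub, sub_mul, mul_assoc]
    have a2 : (E * u) * star (u - q) = E - (E * u) * star q := by
      rw [star_sub, mul_sub, mul_assoc, hu', mul_one]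
    rw [a1, a2, map_sub, map_sub, hq]
    ring
  have e1 : ‖ψ (star (u - q) * (E * u))‖ ≤ ε := by
    have c := hψ.cauchySchwarz (u - q) (E * u)
    have a1 : star (E * u) * (E * u) = star u * E * u := by
      rw [star_mul, hE, mul_assoc, ← mul_assoc E E u, hEE, mul_assoc]
    rw [a1] at c
    have c2 : ‖ψ (star (u - q) * (E * u))‖ ^ 2 ≤ ε ^ 2 := by
      refine c.trans ?_
      have p1 := hψ.nonneg (u - q)
      have p2 := hψ.nonneg (E * u)
      rw [a1] at p2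
      nlinarith
    exact (sq_le_sq₀ (norm_nonneg _) hε).1 c2
  have e2 : ‖ψ ((E * u) * star (u - q))‖ ≤ ε := by
    have c := hψ.cauchySchwarz (star (E * u)) (star (u - q))
    have a1 : (E * u) * star (E * u) = E := by
      rw [star_mul, hE, mul_assoc, ← mul_assoc u, hu', one_mul, hEE]
    rw [star_star, star_star, a1] at c
    have c2 : ‖ψ ((E * u) * star (u - q))‖ ^ 2 ≤ ε ^ 2 := by
      refine c.trans ?_
      have p1 := hψ.nonneg (star (u - q))
      have p2 := hψ.nonneg (star (E * u))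
      rw [star_star] at p1
      rw [star_star, a1] at p2
      nlinarith
    exact (sq_le_sq₀ (norm_nonneg _) hε).1 c2
  rw [e0]
  exact (norm_sub_le _ _).trans (by linarith)

end Bound

theorem false_of_hyperfinite {G : Type} [Group G] (p : G →* F2) (l : Bool → G)
    (hl : ∀ t, p (l t) = of t) {K : Type*} [NormedAddCommGroup K] [InnerProductSpace ℂ K]
    [CompleteSpace K] (M : VonNeumannAlgebra K) (τ : Alg M →ₗ[ℂ] ℂ) (hτ : IsTrace M τ)
    (hM : IsHyperfinite M) (Θ : Alg (LG G) ≃⋆ₐ[ℂ] Alg M) : False := by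
  obtain ⟨A, hmono, hfin, hAM⟩ := hM
  obtain ⟨ξ, hξ, _, _, h4⟩ := hτ.exists_nsq
  have hsub : ∀ n, ∀ q ∈ A n, q ∈ M.toStarSubalgebra := by
    intro n q hq
    change q ∈ (M : Set (K →L[ℂ] K))
    rw [hAM]
    exact Set.subset_centralizer_centralizer (Set.mem_iUnion.2 ⟨n, hq⟩)
  -- approximation of the generators
  have happ : ∀ t : Bool, ∃ n, ∃ q ∈ A n,
      ∑' i, ‖((Θ (lamN (l t)) : K →L[ℂ] K) - q) (ξ i)‖ ^ 2 < (1 / 8) ^ 2 := by
    intro t
    refine approx_of_bicommutant A hmono _ ?_ ξ hξ (1 / 8) (by norm_num)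
    rw [← hAM]
    exact (Θ (lamN (l t))).2
  choose n q hq hqa using happ
  set m := max (n true) (n false) with hm
  have hnm : ∀ t, n t ≤ m := by
    intro t; cases t
    · exact le_max_right _ _
    · exact le_max_left _ _
  have hqm : ∀ t, q t ∈ A m := fun t => hmono (hnm t) (hq t)
  -- the finite dimensional subalgebra
  let Q : StarSubalgebra ℂ (Alg (LG G)) :=
    (A m).comap (M.toStarSubalgebra.subtype.comp (Θ : Alg (LG G) →⋆ₐ[ℂ] Alg M))
  have hQ : ∀ x : Alg (LG G), x ∈ Q ↔ (Θ x : K →L[ℂ] K) ∈ A m := fun x => Iff.rfl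
  have hQfin : FiniteDimensional ℂ Q := by
    have := hfin m
    let f : Q →ₗ[ℂ] A m :=
      { toFun := fun x => ⟨(Θ (x : Alg (LG G)) : K →L[ℂ] K), (hQ _).1 x.2⟩
        map_add' := fun x y => by
          apply Subtype.ext
          change ((Θ ((x : Alg (LG G)) + (y : Alg (LG G))) : Alg M) : K →L[ℂ] K) = _
          rw [map_add]; rfl
        map_smul' := fun c x => by
          apply Subtype.ext
          change ((Θ (c • (x : Alg (LG G))) : Alg M) : K →L[ℂ] K) = _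
          rw [map_smul]; rfl }
    refine FiniteDimensional.of_injective f fun x y hxy => ?_
    have h5 := congrArg (fun z : A m => (z : K →L[ℂ] K)) hxy
    exact Subtype.ext (Θ.injective (Subtype.ext h5))
  -- the transported trace
  let φ : Alg (LG G) →ₗ[ℂ] ℂ :=
    { toFun := fun x => τ (Θ x)
      map_add' := fun x y => by rw [map_add, map_add]
      map_smul' := fun c x => by rw [map_smul, map_smul]; rfl }
  have hφ : ∀ x, φ x = τ (Θ x) := fun x => rfl
  have hφ1 : φ 1 = 1 := by rw [hφ, map_one, hτ.map_one]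
  have hφc : ∀ x : Alg (LG G), ‖φ x‖ ≤ ‖(x : L2 G →L[ℂ] L2 G)‖ := fun x =>
    (hτ.norm_le _).trans (norm_starAlgEquiv_le Θ x)
  have hφt : ∀ x y : Alg (LG G), φ (x * y) = φ (y * x) := by
    intro x y
    rw [hφ, hφ, map_mul Θ, map_mul Θ, hτ.tracial]
  have hφf : IsFaithfulPos φ := by
    refine ⟨fun x => ?_, fun x => ?_, fun x hx => ?_⟩
    · rw [hφ, hφ, map_star, hτ.map_star]
    · rw [hφ, map_mul, map_star]
      exact hτ.nsq_nonneg _
    · rw [hφ, map_mul, map_star] at hx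
      have := hτ.faithful _ hx
      exact (map_eq_zero_iff Θ Θ.injective).1 this
  obtain ⟨ψ, hψ, hψφ, hψQ⟩ := exists_hypertrace φ hφ1 hφc hφt hφf Q
  have hψ1 : ψ 1 = 1 := by
    have := hψφ 1
    rw [hφ1] at this
    exact this
  have hind : ∀ S : Set G, (ψ (indOp S)).re ≤ 1 := by
    intro S
    have e1 := congrArg (fun T => (ψ T).re) (indOp_compl S)
    simp only [map_add, Complex.add_re, hψ1, Complex.one_re] at e1
    have e2 := hψ.nonneg (indOp Sᶜ)
    rw [star_indOp, indOp_mul_self] at e2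
    linarith
  refine paradox p l hl ψ hψ hψ1 fun t S => ?_
  -- the approximant in `Q`
  let r : Alg (LG G) := Θ.symm ⟨q t, hsub m _ (hqm t)⟩
  have hr : Θ r = ⟨q t, hsub m _ (hqm t)⟩ := Θ.apply_symm_apply _
  have hrQ : r ∈ Q := by rw [hQ, hr]; exact hqm t
  have hnsq : nsq τ (Θ (lamN (l t) - r)) ≤ (1 / 8) ^ 2 := by
    rw [h4, map_sub, hr]
    exact (hqa t).le
  have hb1 : (ψ (star (lam (l t) - (r : L2 G →L[ℂ] L2 G)) *
      (lam (l t) - (r : L2 G →L[ℂ] L2 G)))).re ≤ (1 / 8) ^ 2 := by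
    have e1 := hψφ (star (lamN (l t) - r) * (lamN (l t) - r))
    rw [hφ, map_mul, map_star] at e1
    change (ψ ((star (lamN (l t) - r) * (lamN (l t) - r) : Alg (LG G)) :
      L2 G →L[ℂ] L2 G)).re ≤ _
    rw [e1]
    exact hnsq
  have hb2 : (ψ ((lam (l t) - (r : L2 G →L[ℂ] L2 G)) *
      star (lam (l t) - (r : L2 G →L[ℂ] L2 G)))).re ≤ (1 / 8) ^ 2 := by
    have e1 := hψφ ((lamN (l t) - r) * star (lamN (l t) - r))
    rw [hφ, map_mul, map_star, hτ.tracial] at e1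
    change (ψ (((lamN (l t) - r) * star (lamN (l t) - r) : Alg (LG G)) :
      L2 G →L[ℂ] L2 G)).re ≤ _
    rw [e1]
    exact hnsq
  have hconj := indOp_conj S (l t)
  have key := conj_bound (q := (r : L2 G →L[ℂ] L2 G)) hψ (u := lam (l t)) (E := indOp S)
    (by rw [star_lam, ← lam_mul, mul_inv_cancel, lam_one]) (star_indOp S) (indOp_mul_self S)
    (by rw [hconj]; exact hind _) (hind S)
    (fun T => hψQ (star r) (star_mem hrQ) T) (show (0 : ℝ) ≤ 1 / 8 by norm_num) hb1 hb2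
  linarith

end MP_e0ff90_an
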