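import Pool.Agent.MP_e0ff90_an.GroupVN

/-!
# A criterion for the ultrapower bicommutant of `L(G)` to be trivial
-/

namespace MP_e0ff90_an

open Filter Topology
open scoped InnerProductSpace

theorem mk_comm_iff {H : Type*} [NormedAddCommGroup H] [InnerProductSpace ℂ H] [CompleteSpace H]
    {N : VonNeumannAlgebra H} {τ : Alg N →ₗ[ℂ] ℂ} (h : IsTrace N τ) (𝓤 : Ultrafilter ℕ)
    (x y : boundedSeq N) :
    (Ideal.Quotient.mk (nullIdeal h 𝓤) x * Ideal.Quotient.mk (nullIdeal h 𝓤) y : Ultrapower h 𝓤) =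
      Ideal.Quotient.mk (nullIdeal h 𝓤) y * Ideal.Quotient.mk (nullIdeal h 𝓤) x ↔
    Tendsto (fun n => nsq τ (x.1 n * y.1 n - y.1 n * x.1 n)) 𝓤 (𝓝 0) := by
  rw [← RingHom.map_mul, ← RingHom.map_mul, Ideal.Quotient.eq, mem_nullIdeal]
  rfl

variable {G : Type} [Group G]

theorem hat_sub (S T : L2 G →L[ℂ] L2 G) : hat (S - T) = hat S - hat T := by
  rw [hat, sub_apply]; rfl

theorem hat_add (S T : L2 G →L[ℂ] L2 G) : hat (S + T) = hat S + hat T := by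
  rw [hat, add_apply]; rfl

theorem hat_smul (c : ℂ) (T : L2 G →L[ℂ] L2 G) : hat (c • T) = c • hat T := by
  rw [hat, smul_apply]; rfl

theorem hat_sum {ι : Type*} (s : Finset ι) (T : ι → L2 G →L[ℂ] L2 G) :
    hat (∑ i ∈ s, T i) = ∑ i ∈ s, hat (T i) := by
  rw [hat, sum_apply]; rfl

theorem hat_lam (g : G) : hat (lam g) = delta g := by
  rw [hat, lam_delta, mul_one]

theorem norm_hat_mul_left (a x : L2 G →L[ℂ] L2 G) : ‖hat (a * x)‖ ≤ ‖a‖ * ‖hat x‖ := by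
  rw [hat, mul_apply_eq_comp]
  exact a.le_opNorm _

theorem norm_hat_mul_right {x a : L2 G →L[ℂ] L2 G} (hx : x ∈ (LG G).toStarSubalgebra)
    (ha : a ∈ (LG G).toStarSubalgebra) : ‖hat (x * a)‖ ≤ ‖a‖ * ‖hat x‖ := by
  have := (isTrace_trG G).nsq_mul_right ⟨a, ha⟩ ⟨x, hx⟩
  rw [nsq_trG, nsq_trG] at this
  change ‖hat (x * a)‖ ^ 2 ≤ ‖a‖ ^ 2 * ‖hat x‖ ^ 2 at this
  rw [← mul_pow] at this
  exact (sq_le_sq₀ (norm_nonneg _) (by positivity)).1 this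

/-- The group `G` is *good* if for every finite `F ⊆ G` and `δ > 0` there is a finite set
`S ⊆ G` such that an operator `T ∈ L(G)` which `ε`-commutes with all contractions in `L(G)` that
`δ`-commute with `λ(F)` has `∑_{h ∉ S} |T̂(h)|² ≤ 100 ε²`. -/
def Good (G : Type) [Group G] : Prop :=
  ∀ (F : Finset G) (δ : ℝ), 0 < δ → ∃ S : Finset G, ∀ T ∈ (LG G).toStarSubalgebra,
    ∀ ε : ℝ, 0 ≤ ε →
    (∀ u ∈ (LG G).toStarSubalgebra, ‖u‖ ≤ 1 → (∀ h ∈ F, ‖hat (u * lam h - lam h * u)‖ ≤ δ) →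
      ‖hat (T * u - u * T)‖ ≤ ε) →
    ∀ K : Finset G, Disjoint K S → ∑ h ∈ K, ‖hat T h‖ ^ 2 ≤ 100 * ε ^ 2

theorem L2.norm_sq_le_of_sum_le {X : Type*} (ξ : L2 X) {c : ℝ}
    (h : ∀ s : Finset X, ∑ x ∈ s, ‖ξ x‖ ^ 2 ≤ c) : ‖ξ‖ ^ 2 ≤ c := by
  rw [L2.norm_sq]
  exact ξ.summable.tsum_le_of_sum_le h

/-- The partial sum operators of an element of `L(G)`. -/
noncomputable def trunc (a : L2 G →L[ℂ] L2 G) (F : Finset G) : L2 G →L[ℂ] L2 G :=
  ∑ h ∈ F, hat a h • lam h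

theorem trunc_mem (a : L2 G →L[ℂ] L2 G) (F : Finset G) :
    trunc a F ∈ (LG G).toStarSubalgebra :=
  sum_mem fun h _ => (LG G).toStarSubalgebra.smul_mem (lam_mem h) _

theorem hat_trunc (a : L2 G →L[ℂ] L2 G) (F : Finset G) :
    hat (trunc a F) = ∑ h ∈ F, hat a h • delta h := by
  rw [trunc, hat_sum]
  refine Finset.sum_congr rfl fun h _ => ?_
  rw [hat_smul, hat_lam]

theorem exists_trunc (a : L2 G →L[ℂ] L2 G) {η : ℝ} (hη : 0 < η) :
    ∃ F : Finset G, ‖hat (a - trunc a F)‖ < η := by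
  classical
  have h1 := lp.hasSum_single (E := fun _ : G => ℂ) (p := 2) (by norm_num) (hat a)
  have h2 : Tendsto (fun F : Finset G => ‖hat a - ∑ h ∈ F, lp.single 2 h (hat a h)‖) atTop (𝓝 0) := by
    have := (tendsto_const_nhds (x := hat a)).sub h1
    simpa using this.norm
  obtain ⟨F, hF⟩ := ((tendsto_order.1 h2).2 η hη).exists
  refine ⟨F, ?_⟩
  rw [hat_sub, hat_trunc]
  have : ∀ h : G, hat a h • delta h = lp.single 2 h (hat a h) := by
    intro h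
    ext g
    rw [lp.coeFn_smul, Pi.smul_apply, delta_apply, lp.single_apply, Pi.single_apply]
    by_cases hg : g = h
    · subst hg; simp
    · simp [hg]
  simp only [this]
  exact hF

theorem brk_trunc_le (a u : L2 G →L[ℂ] L2 G) (F : Finset G) :
    ‖hat (trunc a F * u - u * trunc a F)‖ ≤
      ∑ h ∈ F, ‖hat a h‖ * ‖hat (u * lam h - lam h * u)‖ := by
  have : trunc a F * u - u * trunc a F = - ∑ h ∈ F, hat a h • (u * lam h - lam h * u) := by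
    rw [trunc, Finset.sum_mul, Finset.mul_sum, ← Finset.sum_sub_distrib, ← Finset.sum_neg_distrib]
    refine Finset.sum_congr rfl fun h _ => ?_
    rw [smul_mul_assoc, mul_smul_comm, smul_sub]
    abel
  rw [this, ← neg_one_smul ℂ, hat_smul, norm_smul, hat_sum]
  simp only [norm_neg, norm_one, one_mul]
  refine (norm_sum_le _ _).trans (Finset.sum_le_sum fun h _ => ?_)
  rw [hat_smul, norm_smul]

/-- A bounded sequence asymptotically commuting with all `λ(h)` commutes with `N`. -/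
theorem mem_centralizer_of_tendsto (𝓤 : Ultrafilter ℕ) (u : boundedSeq (LG G))
    (hu : ∀ k, ‖(u.1 k : L2 G →L[ℂ] L2 G)‖ ≤ 1)
    (h : ∀ g : G, Tendsto (fun k => ‖hat ((u.1 k : L2 G →L[ℂ] L2 G) * lam g -
      lam g * (u.1 k : L2 G →L[ℂ] L2 G))‖) 𝓤 (𝓝 0)) :
    Ideal.Quotient.mk (nullIdeal (isTrace_trG G) 𝓤) u ∈
      Set.centralizer (diagRange (isTrace_trG G) 𝓤) := by
  rintro _ ⟨a, rfl⟩
  rw [diag, mk_comm_iff]
  have key : ∀ k, nsq (trG G) ((constSeq a).1 k * u.1 k - u.1 k * (constSeq a).1 k) =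
      ‖hat ((a : L2 G →L[ℂ] L2 G) * (u.1 k : L2 G →L[ℂ] L2 G) -
        (u.1 k : L2 G →L[ℂ] L2 G) * (a : L2 G →L[ℂ] L2 G))‖ ^ 2 := by
    intro k; rw [nsq_trG]; rfl
  simp only [key]
  suffices hh : Tendsto (fun k => ‖hat ((a : L2 G →L[ℂ] L2 G) * (u.1 k : L2 G →L[ℂ] L2 G) -
        (u.1 k : L2 G →L[ℂ] L2 G) * (a : L2 G →L[ℂ] L2 G))‖) 𝓤 (𝓝 0) by
    simpa using hh.pow 2
  rw [Metric.tendsto_nhds]
  intro η hη
  obtain ⟨F, hF⟩ := exists_trunc (a : L2 G →L[ℂ] L2 G) (show 0 < η / 4 by positivity)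
  have h2 : Tendsto (fun k => ∑ g ∈ F, ‖hat (a : L2 G →L[ℂ] L2 G) g‖ *
      ‖hat ((u.1 k : L2 G →L[ℂ] L2 G) * lam g - lam g * (u.1 k : L2 G →L[ℂ] L2 G))‖) 𝓤
      (𝓝 0) := by
    have := tendsto_finsetSum F (fun g _ => (h g).const_mul (‖hat (a : L2 G →L[ℂ] L2 G) g‖))
    simpa using this
  filter_upwards [(tendsto_order.1 h2).2 (η / 4) (by positivity)] with k hk
  rw [Real.dist_eq, sub_zero, abs_of_nonneg (norm_nonneg _)]
  set A : L2 G →L[ℂ] L2 G := (a : L2 G →L[ℂ] L2 G)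
  set U : L2 G →L[ℂ] L2 G := (u.1 k : L2 G →L[ℂ] L2 G)
  have hA : A ∈ (LG G).toStarSubalgebra := a.2
  have hU : U ∈ (LG G).toStarSubalgebra := (u.1 k).2
  have hdec : A * U - U * A = ((A - trunc A F) * U - U * (A - trunc A F)) +
      (trunc A F * U - U * trunc A F) := by
    noncomm_ring
  have e1 : ‖hat ((A - trunc A F) * U)‖ ≤ η / 4 := by
    refine (norm_hat_mul_right (sub_mem hA (trunc_mem A F)) hU).trans ?_
    have := hu k
    calc ‖U‖ * ‖hat (A - trunc A F)‖ ≤ 1 * (η / 4) := by gcongr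
      _ = η / 4 := one_mul _
  have e2 : ‖hat (U * (A - trunc A F))‖ ≤ η / 4 := by
    refine (norm_hat_mul_left _ _).trans ?_
    have := hu k
    calc ‖U‖ * ‖hat (A - trunc A F)‖ ≤ 1 * (η / 4) := by gcongr
      _ = η / 4 := one_mul _
  have e3 := (brk_trunc_le A U F).trans hk.le
  rw [hdec, hat_add, hat_sub]
  calc _ ≤ ‖hat ((A - trunc A F) * U) - hat (U * (A - trunc A F))‖ +
        ‖hat (trunc A F * U - U * trunc A F)‖ := norm_add_le _ _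
    _ ≤ (‖hat ((A - trunc A F) * U)‖ + ‖hat (U * (A - trunc A F))‖) +
        ‖hat (trunc A F * U - U * trunc A F)‖ := by gcongr; exact norm_sub_le _ _
    _ < η := by linarith

/-- Diagonal argument. -/
theorem exists_control [Countable G] (𝓤 : Ultrafilter ℕ) (h𝓤 : (𝓤 : Filter ℕ) ≤ cofinite)
    (x : boundedSeq (LG G))
    (hx : Ideal.Quotient.mk (nullIdeal (isTrace_trG G) 𝓤) x ∈ bicommutant (isTrace_trG G) 𝓤)
    (ε : ℝ) (hε : 0 < ε) :
    ∃ (F : Finset G) (δ : ℝ), 0 < δ ∧ ∀ᶠ k in (𝓤 : Filter ℕ), ∀ u ∈ (LG G).toStarSubalgebra,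
      ‖u‖ ≤ 1 → (∀ h ∈ F, ‖hat (u * lam h - lam h * u)‖ ≤ δ) →
      ‖hat ((x.1 k : L2 G →L[ℂ] L2 G) * u - u * (x.1 k : L2 G →L[ℂ] L2 G))‖ ≤ ε := by
  classical
  by_contra hcon
  push Not at hcon
  obtain ⟨e, he⟩ := exists_surjective_nat G
  -- the bad sets
  let P : ℕ → ℕ → Prop := fun n k => ∃ u ∈ (LG G).toStarSubalgebra, ‖u‖ ≤ 1 ∧
    (∀ h ∈ (Finset.range n).image e, ‖hat (u * lam h - lam h * u)‖ ≤ 1 / ((n : ℝ) + 1)) ∧
    ε < ‖hat ((x.1 k : L2 G →L[ℂ] L2 G) * u - u * (x.1 k : L2 G →L[ℂ] L2 G))‖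
  have hP : ∀ n, ∀ᶠ k in (𝓤 : Filter ℕ), P n k := by
    intro n
    have := hcon ((Finset.range n).image e) (1 / ((n : ℝ) + 1)) (by positivity)
    refine this.mono fun k hk => ?_
    obtain ⟨u, h1, h2, h3, h4⟩ := hk
    exact ⟨u, h1, h2, h3, h4⟩
  have hchoice : ∀ k, ∃ u : Alg (LG G), ‖(u : L2 G →L[ℂ] L2 G)‖ ≤ 1 ∧
      ∀ n ≤ k, P n k → (∀ h ∈ (Finset.range n).image e,
        ‖hat ((u : L2 G →L[ℂ] L2 G) * lam h - lam h * (u : L2 G →L[ℂ] L2 G))‖ ≤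
          1 / ((n : ℝ) + 1)) ∧
      ε < ‖hat ((x.1 k : L2 G →L[ℂ] L2 G) * (u : L2 G →L[ℂ] L2 G) -
        (u : L2 G →L[ℂ] L2 G) * (x.1 k : L2 G →L[ℂ] L2 G))‖ := by
    intro k
    by_cases hk : ∃ n ≤ k, P n k
    · obtain ⟨n₀, hn₀, hn₀'⟩ := hk
      set N := Nat.findGreatest (fun n => P n k) k with hN
      have hPN : P N k := Nat.findGreatest_spec (P := fun n => P n k) hn₀ hn₀'
      obtain ⟨u, h1, h2, h3, h4⟩ := hPN
      refine ⟨⟨u, h1⟩, h2, fun n hn hPn => ⟨fun h hh => ?_, h4⟩⟩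
      have hnN : n ≤ N := Nat.le_findGreatest hn hPn
      refine (h3 h ?_).trans ?_
      · rw [Finset.mem_image] at hh ⊢
        obtain ⟨i, hi, rfl⟩ := hh
        exact ⟨i, Finset.mem_range.2 ((Finset.mem_range.1 hi).trans_le hnN), rfl⟩
      · have : (n : ℝ) ≤ N := by exact_mod_cast hnN
        gcongr
    · push Not at hk
      exact ⟨0, by simp, fun n hn hPn => absurd hPn (hk n hn)⟩
  choose u hu1 hu2 using hchoice
  let U : boundedSeq (LG G) := ⟨u, 1, hu1⟩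
  have hU : Ideal.Quotient.mk (nullIdeal (isTrace_trG G) 𝓤) U ∈
      Set.centralizer (diagRange (isTrace_trG G) 𝓤) := by
    refine mem_centralizer_of_tendsto 𝓤 U hu1 fun g => ?_
    obtain ⟨i, rfl⟩ := he g
    rw [Metric.tendsto_nhds]
    intro η hη
    obtain ⟨n₁, hn₁⟩ := exists_nat_one_div_lt hη
    set n := max n₁ (i + 1) with hn
    have hlarge : ∀ᶠ k in (𝓤 : Filter ℕ), n ≤ k := by
      refine h𝓤 ?_
      rw [Nat.cofinite_eq_atTop]
      exact eventually_ge_atTop n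
    filter_upwards [hP n, hlarge] with k hk1 hk2
    have := (hu2 k n hk2 hk1).1 (e i) (Finset.mem_image_of_mem e (Finset.mem_range.2 (by omega)))
    rw [Real.dist_eq, sub_zero, abs_of_nonneg (norm_nonneg _)]
    refine lt_of_le_of_lt this (lt_of_le_of_lt ?_ hn₁)
    have : (n₁ : ℝ) ≤ n := by exact_mod_cast le_max_left _ _
    gcongr
  have hcomm := hx _ hU
  rw [mk_comm_iff] at hcomm
  have key : ∀ k, nsq (trG G) (U.1 k * x.1 k - x.1 k * U.1 k) =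
      ‖hat ((x.1 k : L2 G →L[ℂ] L2 G) * (u k : L2 G →L[ℂ] L2 G) -
        (u k : L2 G →L[ℂ] L2 G) * (x.1 k : L2 G →L[ℂ] L2 G))‖ ^ 2 := by
    intro k
    rw [nsq_trG, ← norm_neg, ← neg_one_smul ℂ, ← hat_smul]
    congr 3
    change (-1 : ℂ) • ((u k : L2 G →L[ℂ] L2 G) * (x.1 k : L2 G →L[ℂ] L2 G) -
      (x.1 k : L2 G →L[ℂ] L2 G) * (u k : L2 G →L[ℂ] L2 G)) = _
    rw [neg_one_smul, neg_sub]
  simp only [key] at hcomm
  have h1 := (tendsto_order.1 hcomm).2 (ε ^ 2) (by positivity)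
  have h2 := hP 0
  obtain ⟨k, hk1, hk2⟩ := (h1.and h2).exists
  have h3 := (hu2 k 0 (Nat.zero_le _) hk2).2
  exact absurd hk1 (not_lt.2 (by gcongr))

end MP_e0ff90_an
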