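import Pool.Agent.MP_e0ff90_an.Statement
import Pool.Agent.MP_e0ff90_an.NonHyp
import Pool.Agent.MP_e0ff90_an.Ultra

/-!
# Bridge between the definitions of `Statement` and those of `Defs`
-/

namespace PopaBicommutant

open Filter Topology
open scoped InnerProductSpace

universe u v

variable {H : Type u} [NormedAddCommGroup H] [InnerProductSpace ℂ H] [CompleteSpace H]

open _root_.MP_e0ff90_an (Alg IsTrace IsIIOneFactor boundedSeq nullIdeal mk_comm_iff nsq F2 L2 LG)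

theorem mk_mul_mk {F : IIOneFactor H} {𝓤 : Ultrafilter ℕ} (x y : BddSeq F) :
    Ultrapower.mk F 𝓤 x * Ultrapower.mk F 𝓤 y = Ultrapower.mk F 𝓤 (x.mul y) := rfl

theorem mk_eq_iff {F : IIOneFactor H} {𝓤 : Ultrafilter ℕ} (x y : BddSeq F) :
    Ultrapower.mk F 𝓤 x = Ultrapower.mk F 𝓤 y ↔ UEq F 𝓤 x y := Quotient.eq

theorem comm_iff {F : IIOneFactor H} {𝓤 : Ultrafilter ℕ} (x y : BddSeq F) :
    Ultrapower.mk F 𝓤 x * Ultrapower.mk F 𝓤 y = Ultrapower.mk F 𝓤 y * Ultrapower.mk F 𝓤 x ↔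
    Tendsto (fun n => nsq F.lin (x.toOld.1 n * y.toOld.1 n - y.toOld.1 n * x.toOld.1 n)) 𝓤
      (𝓝 0) := by
  rw [mk_mul_mk, mk_mul_mk, mk_eq_iff, uEq_iff]
  rfl

theorem toOld_ofOld {F : IIOneFactor H} (y : boundedSeq F.N) : (BddSeq.ofOld y).toOld = y := rfl

theorem toOld_const {F : IIOneFactor H} (a : H →L[ℂ] H) (ha : a ∈ F.N) :
    (BddSeq.const F a ha).toOld = _root_.MP_e0ff90_an.constSeq (N := F.N) ⟨a, ha⟩ := rfl

theorem bicommutant_eq (F : IIOneFactor H) (𝓤 : Ultrafilter ℕ)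
    (h : _root_.MP_e0ff90_an.bicommutant F.isTrace 𝓤 = _root_.MP_e0ff90_an.diagRange F.isTrace 𝓤) :
    bicommutant F 𝓤 = diagRange F 𝓤 := by
  refine Set.Subset.antisymm ?_ Set.subset_centralizer_centralizer
  intro X hX
  obtain ⟨x, rfl⟩ := Quotient.exists_rep X
  have hx : Ideal.Quotient.mk (nullIdeal F.isTrace 𝓤) x.toOld ∈
      _root_.MP_e0ff90_an.bicommutant F.isTrace 𝓤 := by
    intro Y hY
    obtain ⟨y, rfl⟩ := Ideal.Quotient.mk_surjective Y
    rw [mk_comm_iff]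
    have hy : Ultrapower.mk F 𝓤 (BddSeq.ofOld y) ∈ Set.centralizer (diagRange F 𝓤) := by
      rintro _ ⟨a, ha, rfl⟩
      rw [comm_iff, toOld_ofOld, toOld_const]
      have h1 := hY (_root_.MP_e0ff90_an.diag F.isTrace 𝓤 ⟨a, ha⟩) ⟨⟨a, ha⟩, rfl⟩
      rw [_root_.MP_e0ff90_an.diag, mk_comm_iff] at h1
      exact h1
    have h2 := (comm_iff _ _).1 (hX _ hy)
    rw [toOld_ofOld] at h2
    exact h2
  rw [h] at hx
  obtain ⟨a, ha⟩ := hx
  refine ⟨(a : H →L[ℂ] H), a.2, ?_⟩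
  refine (mk_eq_iff _ _).2 ?_
  rw [uEq_iff]
  rw [_root_.MP_e0ff90_an.diag, eq_comm, Ideal.Quotient.eq,
    _root_.MP_e0ff90_an.mem_nullIdeal] at ha
  exact ha

/-- A II₁ factor in the sense of `Statement` from one in the sense of `Defs`. -/
noncomputable def ofOld {N : VonNeumannAlgebra H} {τ : Alg N →ₗ[ℂ] ℂ}
    (h : IsIIOneFactor N τ) : IIOneFactor H where
  N := N
  ξ := h.trace.normal.choose
  summable := h.trace.normal.choose_spec.1
  factor := by
    intro z hz hc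
    obtain ⟨c, hc'⟩ := h.factor ⟨z, hz⟩ (fun x => Subtype.ext (hc _ x.2))
    exact ⟨c, congrArg Subtype.val hc'⟩
  infinite := by
    intro s
    by_contra hcon
    push Not at hcon
    apply h.infinite
    let f : Alg N →ₗ[ℂ] Submodule.span ℂ (s : Set (H →L[ℂ] H)) :=
      { toFun := fun x => ⟨x, hcon _ x.2⟩
        map_add' := fun x y => rfl
        map_smul' := fun c x => rfl }
    have : FiniteDimensional ℂ (Submodule.span ℂ (s : Set (H →L[ℂ] H))) :=
      FiniteDimensional.span_finset ℂ s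
    refine FiniteDimensional.of_injective f fun x y hxy => ?_
    exact Subtype.ext (congrArg (fun z : Submodule.span ℂ (s : Set (H →L[ℂ] H)) =>
      (z : H →L[ℂ] H)) hxy)
  map_one := by
    have h1 := h.trace.normal.choose_spec.2 1
    rw [h.trace.map_one] at h1
    exact h1.symm
  tracial := by
    intro x hx y hy
    have h1 := h.trace.normal.choose_spec.2 (⟨x, hx⟩ * ⟨y, hy⟩)
    have h2 := h.trace.normal.choose_spec.2 (⟨y, hy⟩ * ⟨x, hx⟩)
    have h3 := h.trace.tracial ⟨x, hx⟩ ⟨y, hy⟩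
    rw [h1, h2] at h3
    exact h3
  faithful := by
    intro x hx hx'
    have h1 := h.trace.normal.choose_spec.2 (star ⟨x, hx⟩ * ⟨x, hx⟩)
    have h2 := h.trace.faithful ⟨x, hx⟩ (h1.trans hx')
    exact congrArg Subtype.val h2

theorem ofOld_lin {N : VonNeumannAlgebra H} {τ : Alg N →ₗ[ℂ] ℂ}
    (h : IsIIOneFactor N τ) : (ofOld h).lin = τ := by
  ext x
  exact (h.trace.normal.choose_spec.2 x).symm

theorem old_eq_congr {N : VonNeumannAlgebra H} {τ₁ τ₂ : Alg N →ₗ[ℂ] ℂ} (h₁ : IsTrace N τ₁)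
    (h₂ : IsTrace N τ₂) (h : τ₁ = τ₂) (𝓤 : Ultrafilter ℕ)
    (heq : _root_.MP_e0ff90_an.bicommutant h₂ 𝓤 = _root_.MP_e0ff90_an.diagRange h₂ 𝓤) :
    _root_.MP_e0ff90_an.bicommutant h₁ 𝓤 = _root_.MP_e0ff90_an.diagRange h₁ 𝓤 := by
  subst h
  exact heq

/-- A finite dimensional ⋆-subalgebra as a `StarSubalgebra`. -/
def toStarSub {A : Set (H →L[ℂ] H)} (h : IsFinDimStarSubalgebra A) :
    StarSubalgebra ℂ (H →L[ℂ] H) where
  carrier := A
  mul_mem' := fun hx hy => h.mul_mem _ hx _ hy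
  add_mem' := fun hx hy => h.add_mem _ hx _ hy
  algebraMap_mem' := fun c => by
    rw [Algebra.algebraMap_eq_smul_one]
    exact h.smul_mem c _ h.one_mem
  star_mem' := fun hx => h.star_mem _ hx

theorem toStarSub_finite {A : Set (H →L[ℂ] H)} (h : IsFinDimStarSubalgebra A) :
    FiniteDimensional ℂ (toStarSub h) := by
  obtain ⟨s, hs⟩ := h.finDim
  let f : toStarSub h →ₗ[ℂ] Submodule.span ℂ (s : Set (H →L[ℂ] H)) :=
    { toFun := fun x => ⟨x, hs _ x.2⟩
      map_add' := fun x y => rfl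
      map_smul' := fun c x => rfl }
  have : FiniteDimensional ℂ (Submodule.span ℂ (s : Set (H →L[ℂ] H))) :=
    FiniteDimensional.span_finset ℂ s
  refine FiniteDimensional.of_injective f fun x y hxy => ?_
  exact Subtype.ext (congrArg (fun z : Submodule.span ℂ (s : Set (H →L[ℂ] H)) =>
    (z : H →L[ℂ] H)) hxy)

theorem isHyperfinite_old {F : IIOneFactor H} (h : F.IsHyperfinite) :
    _root_.MP_e0ff90_an.IsHyperfinite F.N := by
  obtain ⟨A, h1, h2, h3⟩ := h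
  refine ⟨fun n => toStarSub (h1 n), monotone_nat_of_le_succ fun n => h2 n,
    fun n => toStarSub_finite (h1 n), h3⟩

theorem exists_starAlgEquiv {K : Type v} [NormedAddCommGroup K] [InnerProductSpace ℂ K]
    [CompleteSpace K] {F₁ : IIOneFactor H} {F₂ : IIOneFactor K} (h : Isomorphic F₁ F₂) :
    Nonempty (Alg F₁.N ≃⋆ₐ[ℂ] Alg F₂.N) := by
  obtain ⟨Θ, hΘ, h1, h2⟩ := h
  let e : Alg F₁.N ≃ Alg F₂.N := hΘ.equiv
  have he : ∀ x : Alg F₁.N, ((e x : Alg F₂.N) : K →L[ℂ] K) = Θ (x : H →L[ℂ] H) := fun x => rfl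
  exact ⟨{
    toEquiv := e
    map_mul' := fun x y => Subtype.ext (h1 _ x.2 _ y.2).2
    map_add' := fun x y => Subtype.ext (h1 _ x.2 _ y.2).1
    map_star' := fun x => Subtype.ext (h2 _ x.2).1
    map_smul' := fun c x => Subtype.ext ((h2 _ x.2).2 c) }⟩

end PopaBicommutant
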