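import Mathlib

/-!
# A Casimir element in a finite dimensional ⋆-algebra with faithful trace
-/

namespace MP_e0ff90_an

open scoped ComplexConjugate

variable {Q : Type*} [Ring Q] [StarRing Q] [Algebra ℂ Q] [StarModule ℂ Q]

/-- A faithful positive hermitian functional. -/
structure IsFaithfulPos (t : Q →ₗ[ℂ] ℂ) : Prop where
  map_star : ∀ x, t (star x) = conj (t x)
  nonneg : ∀ x, 0 ≤ (t (star x * x)).re
  definite : ∀ x, t (star x * x) = 0 → x = 0

/-- The inner product of a faithful positive functional. -/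
@[instance_reducible]
noncomputable def IsFaithfulPos.core {t : Q →ₗ[ℂ] ℂ} (h : IsFaithfulPos t) :
    InnerProductSpace.Core ℂ Q where
  inner a b := t (star a * b)
  conj_inner_symm := by
    intro a b
    rw [← h.map_star, star_mul, star_star]
  re_inner_nonneg := fun a => h.nonneg a
  add_left := by
    intro a b c
    rw [star_add, add_mul, map_add]
  smul_left := by
    intro a b r
    rw [star_smul, smul_mul_assoc, map_smul]
    rfl
  definite := fun a ha => h.definite a ha

theorem IsFaithfulPos.exists_onb [FiniteDimensional ℂ Q] {t : Q →ₗ[ℂ] ℂ} (h : IsFaithfulPos t) :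
    ∃ (d : ℕ) (e : Fin d → Q), (∀ y, y = ∑ i, t (star (e i) * y) • e i) ∧
      ∀ L : Q →ₗ[ℂ] Q, LinearMap.trace ℂ Q L = ∑ i, t (star (e i) * L (e i)) := by
  let _ : NormedAddCommGroup Q := h.core.toNormedAddCommGroup
  let _ : InnerProductSpace ℂ Q := InnerProductSpace.ofCore h.core.toCore
  let b := stdOrthonormalBasis ℂ Q
  refine ⟨Module.finrank ℂ Q, b, fun y => ?_, fun L => ?_⟩
  · exact (b.sum_repr' y).symm
  · exact LinearMap.trace_eq_sum_inner L b

/-- The trace of left multiplication. -/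
noncomputable def ltr : Q →ₗ[ℂ] ℂ := LinearMap.trace ℂ Q ∘ₗ LinearMap.mul ℂ Q

omit [StarRing Q] [StarModule ℂ Q] in
theorem ltr_apply (x : Q) : ltr x = LinearMap.trace ℂ Q (LinearMap.mulLeft ℂ x) := rfl

omit [StarRing Q] [StarModule ℂ Q] in
theorem ltr_comm (x y : Q) : ltr (x * y) = ltr (y * x) := by
  rw [ltr_apply, ltr_apply, LinearMap.mulLeft_mul, LinearMap.mulLeft_mul]
  exact LinearMap.trace_mul_comm ℂ _ _

theorem isFaithfulPos_ltr [FiniteDimensional ℂ Q] {φ : Q →ₗ[ℂ] ℂ} (h : IsFaithfulPos φ) :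
    IsFaithfulPos (ltr : Q →ₗ[ℂ] ℂ) := by
  obtain ⟨d, f, hf1, hf2⟩ := h.exists_onb
  have key : ∀ x : Q, ltr x = ∑ i, φ (star (f i) * (x * f i)) := fun x => hf2 _
  have him : ∀ x : Q, φ (star x * x) = (((φ (star x * x)).re : ℝ) : ℂ) := by
    intro x
    have h1 := h.map_star (star x * x)
    rw [star_mul, star_star] at h1
    exact (Complex.conj_eq_iff_re.1 h1.symm).symm
  have key2 : ∀ x : Q, ltr (star x * x) = ∑ i, φ (star (x * f i) * (x * f i)) := by
    intro x
    rw [key]
    refine Finset.sum_congr rfl fun i _ => ?_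
    rw [star_mul, mul_assoc, mul_assoc]
  refine ⟨fun x => ?_, fun x => ?_, fun x hx => ?_⟩
  · rw [key, key, map_sum]
    refine Finset.sum_congr rfl fun i _ => ?_
    rw [← h.map_star]
    congr 1
    simp [mul_assoc]
  · rw [key2, Complex.re_sum]
    exact Finset.sum_nonneg fun i _ => h.nonneg _
  · rw [key2] at hx
    have h1 : ∑ i, (φ (star (x * f i) * (x * f i))).re = 0 := by
      rw [← Complex.re_sum, hx, Complex.zero_re]
    rw [Finset.sum_eq_zero_iff_of_nonneg fun i _ => h.nonneg _] at h1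
    have h2 : ∀ i, x * f i = 0 := by
      intro i
      apply h.definite
      rw [him, h1 i (Finset.mem_univ i), Complex.ofReal_zero]
    have h3 := hf1 1
    calc x = x * 1 := (mul_one x).symm
      _ = x * ∑ i, φ (star (f i) * 1) • f i := by rw [← h3]
      _ = 0 := by
          rw [Finset.mul_sum]
          refine Finset.sum_eq_zero fun i _ => ?_
          rw [mul_smul_comm, h2, smul_zero]

/-- The Casimir family: `∑ aᵢ* aᵢ = 1` and `∑ aᵢ q ⊗ aᵢ* = ∑ aᵢ ⊗ q aᵢ*`. -/
theorem exists_casimir [FiniteDimensional ℂ Q] {φ : Q →ₗ[ℂ] ℂ} (h : IsFaithfulPos φ) :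
    ∃ (d : ℕ) (a : Fin d → Q) (u : Q → Fin d → Fin d → ℂ), (∑ i, star (a i) * a i = 1) ∧
      (∀ q i, a i * q = ∑ j, u q i j • a j) ∧
      (∀ q j, q * star (a j) = ∑ i, u q i j • star (a i)) := by
  have ht := isFaithfulPos_ltr h
  obtain ⟨d, e, he1, he2⟩ := ht.exists_onb
  refine ⟨d, fun i => star (e i), fun q i j => ltr (e j * (star (e i) * q)), ?_, ?_, ?_⟩
  · simp only [star_star]
    have h1 : ∀ y : Q, ltr (y * (∑ i, e i * star (e i) - 1)) = 0 := by
      intro y
      rw [mul_sub, mul_one, map_sub, Finset.mul_sum, map_sum, sub_eq_zero]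
      have h2 : (ltr y : ℂ) = ∑ i, ltr (star (e i) * (y * e i)) := he2 (LinearMap.mulLeft ℂ y)
      rw [h2]
      refine Finset.sum_congr rfl fun i _ => ?_
      rw [ltr_comm (star (e i)), mul_assoc]
    have h3 := ht.definite (∑ i, e i * star (e i) - 1) (h1 _)
    exact sub_eq_zero.1 h3
  · intro q i
    have h1 := he1 (star (star (e i) * q))
    have h2 := congrArg star h1
    rw [star_star, star_sum] at h2
    rw [h2]
    refine Finset.sum_congr rfl fun j _ => ?_
    rw [star_smul, Complex.star_def, ← ht.map_star, star_mul, star_star, star_star,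
      ltr_comm]
  · intro q j
    simp only [star_star]
    refine (he1 (q * e j)).trans (Finset.sum_congr rfl fun i _ => ?_)
    rw [← mul_assoc, ltr_comm]

end MP_e0ff90_an
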