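import Mathlib

/-!
# II₁ factors, hyperfiniteness and the tracial ultrapower

Definitions for problem MP_e0ff90_an.
-/

namespace MP_e0ff90_an

open Filter Topology
open scoped InnerProductSpace

universe u

variable {H : Type u} [NormedAddCommGroup H] [InnerProductSpace ℂ H] [CompleteSpace H]

/-- The ⋆-algebra (as a type) underlying the von Neumann algebra `N ⊆ B(H)`. -/
abbrev Alg (N : VonNeumannAlgebra H) : Type u := N.toStarSubalgebra

/-- `τ` is a faithful normal tracial state on the von Neumann algebra `N ⊆ B(H)`.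
Normality of a positive functional is expressed by `τ x = ∑ᵢ ⟨ξᵢ, x ξᵢ⟩` for a sequence of vectors
`ξᵢ ∈ H` with `∑ᵢ ‖ξᵢ‖² < ∞` (this also gives positivity). -/
structure IsTrace (N : VonNeumannAlgebra H) (τ : Alg N →ₗ[ℂ] ℂ) : Prop where
  map_one : τ 1 = 1
  tracial : ∀ x y : Alg N, τ (x * y) = τ (y * x)
  faithful : ∀ x : Alg N, τ (star x * x) = 0 → x = 0
  normal : ∃ ξ : ℕ → H, Summable (fun i => ‖ξ i‖ ^ 2) ∧
    ∀ x : Alg N, τ x = ∑' i, ⟪ξ i, (x : H →L[ℂ] H) (ξ i)⟫_ℂ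

/-- `N` is a II₁ factor with (faithful normal) tracial state `τ`: the centre of `N` is `ℂ 1`,
`N` is infinite dimensional, and `τ` is a faithful normal tracial state on `N`. -/
structure IsIIOneFactor (N : VonNeumannAlgebra H) (τ : Alg N →ₗ[ℂ] ℂ) : Prop where
  factor : ∀ z : Alg N, (∀ x : Alg N, z * x = x * z) → ∃ c : ℂ, z = c • (1 : Alg N)
  infinite : ¬ FiniteDimensional ℂ (Alg N)
  trace : IsTrace N τ

/-- `M ⊆ B(H)` is hyperfinite: it is generated, as a von Neumann algebra, by an increasing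
sequence of finite dimensional ⋆-subalgebras, `M = (⋃ₙ Aₙ)''`. -/
def IsHyperfinite (M : VonNeumannAlgebra H) : Prop :=
  ∃ A : ℕ → StarSubalgebra ℂ (H →L[ℂ] H), Monotone A ∧ (∀ n, FiniteDimensional ℂ (A n)) ∧
    (M : Set (H →L[ℂ] H)) = Set.centralizer (Set.centralizer (⋃ n, (A n : Set (H →L[ℂ] H))))

section TwoNorm

variable {N : VonNeumannAlgebra H} {τ : Alg N →ₗ[ℂ] ℂ}

/-- The square of the 2-norm, `‖x‖₂² = τ(x* x)`. -/
noncomputable def nsq (τ : Alg N →ₗ[ℂ] ℂ) (x : Alg N) : ℝ := (τ (star x * x)).re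

omit [CompleteSpace H] in
theorem summable_aux {ξ : ℕ → H} (hξ : Summable (fun i => ‖ξ i‖ ^ 2)) (x : H →L[ℂ] H) :
    Summable (fun i => ‖x (ξ i)‖ ^ 2) := by
  refine Summable.of_nonneg_of_le (fun i => by positivity) (fun i => ?_) (hξ.mul_left (‖x‖ ^ 2))
  rw [← mul_pow]
  gcongr
  exact x.le_opNorm _

theorem IsTrace.exists_nsq (h : IsTrace N τ) : ∃ ξ : ℕ → H, Summable (fun i => ‖ξ i‖ ^ 2) ∧
    (∀ x : Alg N, τ x = ∑' i, ⟪ξ i, (x : H →L[ℂ] H) (ξ i)⟫_ℂ) ∧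
    (∀ x : Alg N, τ (star x * x) = ((∑' i, ‖(x : H →L[ℂ] H) (ξ i)‖ ^ 2 : ℝ) : ℂ)) ∧
    ∀ x : Alg N, nsq τ x = ∑' i, ‖(x : H →L[ℂ] H) (ξ i)‖ ^ 2 := by
  obtain ⟨ξ, hξ, hτ⟩ := h.normal
  have key : ∀ x : Alg N, τ (star x * x) = ((∑' i, ‖(x : H →L[ℂ] H) (ξ i)‖ ^ 2 : ℝ) : ℂ) := by
    intro x
    rw [hτ, Complex.ofReal_tsum]
    refine tsum_congr fun i => ?_
    have : ((star x * x : Alg N) : H →L[ℂ] H) = star (x : H →L[ℂ] H) * (x : H →L[ℂ] H) := rfl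
    rw [this, mul_apply_eq_comp, ContinuousLinearMap.star_eq_adjoint,
      ContinuousLinearMap.adjoint_inner_right, inner_self_eq_norm_sq_to_K]
    push_cast
    rfl
  refine ⟨ξ, hξ, hτ, key, fun x => ?_⟩
  rw [nsq, key, Complex.ofReal_re]

theorem IsTrace.apply_star_mul_self (h : IsTrace N τ) (x : Alg N) :
    τ (star x * x) = (nsq τ x : ℂ) := by
  obtain ⟨ξ, _, _, h3, h4⟩ := h.exists_nsq
  rw [h3, h4]

theorem IsTrace.nsq_nonneg (h : IsTrace N τ) (x : Alg N) : 0 ≤ nsq τ x := by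
  obtain ⟨ξ, _, _, _, h4⟩ := h.exists_nsq
  rw [h4]; exact tsum_nonneg fun i => by positivity

theorem IsTrace.nsq_star (h : IsTrace N τ) (x : Alg N) : nsq τ (star x) = nsq τ x := by
  rw [nsq, star_star, h.tracial, nsq]

theorem IsTrace.nsq_neg (_h : IsTrace N τ) (x : Alg N) : nsq τ (-x) = nsq τ x := by
  simp [nsq]

theorem IsTrace.nsq_mul_left (h : IsTrace N τ) (a x : Alg N) :
    nsq τ (a * x) ≤ ‖(a : H →L[ℂ] H)‖ ^ 2 * nsq τ x := by
  obtain ⟨ξ, h1, _, _, h4⟩ := h.exists_nsq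
  rw [h4, h4, ← tsum_mul_left]
  refine (summable_aux h1 _).tsum_le_tsum (fun i => ?_) ((summable_aux h1 _).mul_left _)
  rw [← mul_pow]
  gcongr
  exact (a : H →L[ℂ] H).le_opNorm _

theorem IsTrace.nsq_mul_right (h : IsTrace N τ) (a x : Alg N) :
    nsq τ (x * a) ≤ ‖(a : H →L[ℂ] H)‖ ^ 2 * nsq τ x := by
  rw [← h.nsq_star, star_mul, ← h.nsq_star x]
  refine (h.nsq_mul_left _ _).trans (le_of_eq ?_)
  congr 2
  exact norm_star (a : H →L[ℂ] H)

theorem IsTrace.nsq_add (h : IsTrace N τ) (x y : Alg N) :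
    nsq τ (x + y) ≤ 2 * nsq τ x + 2 * nsq τ y := by
  obtain ⟨ξ, h1, _, _, h4⟩ := h.exists_nsq
  rw [h4, h4, h4, ← tsum_mul_left, ← tsum_mul_left, ← Summable.tsum_add
    ((summable_aux h1 _).mul_left _) ((summable_aux h1 _).mul_left _)]
  refine (summable_aux h1 _).tsum_le_tsum (fun i => ?_)
    (((summable_aux h1 _).mul_left _).add ((summable_aux h1 _).mul_left _))
  have : ((x + y : Alg N) : H →L[ℂ] H) (ξ i)
      = (x : H →L[ℂ] H) (ξ i) + (y : H →L[ℂ] H) (ξ i) := rfl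
  rw [this]
  have := norm_add_le ((x : H →L[ℂ] H) (ξ i)) ((y : H →L[ℂ] H) (ξ i))
  nlinarith [norm_nonneg ((x : H →L[ℂ] H) (ξ i) + (y : H →L[ℂ] H) (ξ i)),
    norm_nonneg ((x : H →L[ℂ] H) (ξ i)), norm_nonneg ((y : H →L[ℂ] H) (ξ i)),
    sq_nonneg (‖(x : H →L[ℂ] H) (ξ i)‖ - ‖(y : H →L[ℂ] H) (ξ i)‖)]

theorem IsTrace.nsq_sub (h : IsTrace N τ) (x y : Alg N) :
    nsq τ (x - y) ≤ 2 * nsq τ x + 2 * nsq τ y := by
  rw [sub_eq_add_neg, ← h.nsq_neg y]
  exact h.nsq_add _ _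

theorem nsq_zero : nsq τ 0 = 0 := by simp [nsq]

end TwoNorm

/-- The algebra `ℓ^∞(ℕ, N)` of norm-bounded sequences in `N`. -/
def boundedSeq (N : VonNeumannAlgebra H) : Subalgebra ℂ (ℕ → Alg N) where
  carrier := {x | ∃ C : ℝ, ∀ n, ‖(x n : H →L[ℂ] H)‖ ≤ C}
  mul_mem' := by
    rintro x y ⟨C, hC⟩ ⟨D, hD⟩
    refine ⟨C * D, fun n => ?_⟩
    exact (norm_mul_le _ _).trans (mul_le_mul (hC n) (hD n) (norm_nonneg _)
      ((norm_nonneg _).trans (hC n)))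
  add_mem' := by
    rintro x y ⟨C, hC⟩ ⟨D, hD⟩
    exact ⟨C + D, fun n => (norm_add_le _ _).trans (add_le_add (hC n) (hD n))⟩
  algebraMap_mem' := fun c => ⟨‖(algebraMap ℂ (H →L[ℂ] H)) c‖, fun n => le_rfl⟩

section Ultrapower

variable {N : VonNeumannAlgebra H} {τ : Alg N →ₗ[ℂ] ℂ}

/-- The two-sided ideal of those bounded sequences `(xₙ)` with `lim_{n → 𝓤} τ(xₙ* xₙ) = 0`. -/
def nullIdeal (h : IsTrace N τ) (𝓤 : Ultrafilter ℕ) : Ideal (boundedSeq N) where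
  carrier := {x | Tendsto (fun n => τ (star (x.1 n) * x.1 n)) 𝓤 (𝓝 0)}
  zero_mem' := by simp
  add_mem' := by
    intro x y hx hy
    simp only [Set.mem_ofPred_eq, h.apply_star_mul_self] at hx hy ⊢
    rw [← Complex.ofReal_zero, Filter.tendsto_ofReal_iff] at hx hy ⊢
    refine squeeze_zero (fun n => h.nsq_nonneg _) (fun n => h.nsq_add (x.1 n) (y.1 n)) ?_
    simpa using (hx.const_mul 2).add (hy.const_mul 2)
  smul_mem' := by
    rintro ⟨a, C, hC⟩ x hx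
    simp only [Set.mem_ofPred_eq, h.apply_star_mul_self] at hx ⊢
    rw [← Complex.ofReal_zero, Filter.tendsto_ofReal_iff] at hx ⊢
    refine squeeze_zero (g := fun n => C ^ 2 * nsq τ (x.1 n)) (fun n => h.nsq_nonneg _)
      (fun n => ?_) (by simpa using hx.const_mul (C ^ 2))
    refine (h.nsq_mul_left (a n) (x.1 n)).trans ?_
    have := h.nsq_nonneg (x.1 n)
    gcongr
    exact hC n

theorem mem_nullIdeal {h : IsTrace N τ} {𝓤 : Ultrafilter ℕ} {x : boundedSeq N} :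
    x ∈ nullIdeal h 𝓤 ↔ Tendsto (fun n => nsq τ (x.1 n)) 𝓤 (𝓝 0) := by
  change Tendsto (fun n => τ (star (x.1 n) * x.1 n)) 𝓤 (𝓝 0) ↔ _
  simp only [h.apply_star_mul_self]
  rw [← Complex.ofReal_zero, Filter.tendsto_ofReal_iff]

instance (h : IsTrace N τ) (𝓤 : Ultrafilter ℕ) : (nullIdeal h 𝓤).IsTwoSided where
  mul_mem_of_left := by
    rintro x ⟨a, C, hC⟩ hx
    rw [mem_nullIdeal] at hx ⊢
    refine squeeze_zero (g := fun n => C ^ 2 * nsq τ (x.1 n)) (fun n => h.nsq_nonneg _)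
      (fun n => ?_) (by simpa using hx.const_mul (C ^ 2))
    refine (h.nsq_mul_right (a n) (x.1 n)).trans ?_
    have := h.nsq_nonneg (x.1 n)
    gcongr
    exact hC n

/-- The tracial ultrapower `N^𝓤`: the quotient of `ℓ^∞(ℕ, N)` by the ideal of sequences
with `lim_{n → 𝓤} τ(xₙ* xₙ) = 0`. -/
abbrev Ultrapower (h : IsTrace N τ) (𝓤 : Ultrafilter ℕ) : Type u :=
  boundedSeq N ⧸ nullIdeal h 𝓤

/-- The constant sequence. -/
def constSeq (x : Alg N) : boundedSeq N := ⟨fun _ => x, ‖(x : H →L[ℂ] H)‖, fun _ => le_rfl⟩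

/-- The diagonal embedding `N → N^𝓤`. -/
noncomputable def diag (h : IsTrace N τ) (𝓤 : Ultrafilter ℕ) (x : Alg N) : Ultrapower h 𝓤 :=
  Ideal.Quotient.mk (nullIdeal h 𝓤) (constSeq x)

/-- The copy of `N` in `N^𝓤` (range of the diagonal embedding). -/
noncomputable def diagRange (h : IsTrace N τ) (𝓤 : Ultrafilter ℕ) : Set (Ultrapower h 𝓤) :=
  Set.range (diag h 𝓤)

/-- The ultrapower bicommutant `(N' ∩ N^𝓤)' ∩ N^𝓤`; the relative commutant of a subset of the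
ring `N^𝓤` is its centralizer in that ring. -/
noncomputable def bicommutant (h : IsTrace N τ) (𝓤 : Ultrafilter ℕ) : Set (Ultrapower h 𝓤) :=
  Set.centralizer (Set.centralizer (diagRange h 𝓤))

end Ultrapower

end MP_e0ff90_an
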