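import Pool.Agent.MP_e0ff90_an.Free

/-!
# The system for the free group
-/

namespace MP_e0ff90_an

/-- The `m`-th finite `F2`-set. -/
abbrev Ym (m : ℕ) : Type := Equiv.Perm (B m) × Bool × ZMod 2

/-- The disjoint union of the finite `F2`-sets. -/
abbrev Z2 : Type := Σ m, Ym m

/-- The action homomorphism. -/
noncomputable def actHom : F2 →* Equiv.Perm Z2 :=
  (Equiv.Perm.sigmaCongrRightHom Ym).comp (MonoidHom.pi fun m => sigHom (piHom m))

/-- The action. -/
@[instance_reducible]
noncomputable def actZ2 : MulAction F2 Z2 := MulAction.compHom Z2 actHom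

theorem actZ2_smul (g : F2) (z : Z2) :
    actZ2.smul g z = ⟨z.1, sigHom (piHom z.1) g z.2⟩ := rfl

/-- The sign: the last coordinate. -/
def sgnZ2 (z : Z2) : Bool := decide (z.2.2.2 = 0)

theorem decide_add_one (i : ZMod 2) : decide (i + 1 = 0) ≠ decide (i = 0) := by
  revert i; decide

theorem ncard_sign_changes {m : ℕ} {g : F2} {c : Equiv.Perm (B m) × Bool → ZMod 2}
    (hc : IsCocycle (piHom m) g c) :
    {z : Z2 | z.1 = m ∧ sgnZ2 (actZ2.smul g z) ≠ sgnZ2 z}.ncard = 2 * (supp c).card := by
  classical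
  have h1 : {z : Z2 | z.1 = m ∧ sgnZ2 (actZ2.smul g z) ≠ sgnZ2 z} =
      ((supp c) ×ˢ (Finset.univ : Finset (ZMod 2))).image
        (fun p => (⟨m, ((piHom m g)⁻¹ * p.1.1, p.1.2, p.2)⟩ : Z2)) := by
    ext ⟨n, v, s, i⟩
    simp only [Set.mem_ofPred_eq, Finset.coe_image, Set.mem_image, Finset.mem_coe,
      Finset.mem_product, Finset.mem_univ, and_true, Prod.exists]
    constructor
    · rintro ⟨rfl, h⟩
      refine ⟨piHom n g * v, s, i, ?_, by simp⟩
      rw [actZ2_smul, hc.act] at h
      simp only [supp, Finset.mem_filter, Finset.mem_univ, true_and]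
      intro h0
      apply h
      simp [sgnZ2, h0]
    · rintro ⟨w, s', i', hw, heq⟩
      simp only [supp, Finset.mem_filter, Finset.mem_univ, true_and] at hw
      injection heq with e1 e2
      subst e1
      have e3 := eq_of_heq e2
      simp only [Prod.mk.injEq] at e3
      obtain ⟨rfl, rfl, rfl⟩ := e3
      refine ⟨rfl, ?_⟩
      rw [actZ2_smul, hc.act]
      simp only [mul_inv_cancel_left, zmod2_ne_zero hw, sgnZ2]
      exact decide_add_one _
  rw [h1, Set.ncard_coe_finset, Finset.card_image_of_injective, Finset.card_product]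
  · simp [mul_comm]
  · rintro ⟨⟨a, b⟩, i⟩ ⟨⟨a', b'⟩, i'⟩ h
    simp only at h
    injection h with e1 e2
    simp only [Prod.mk.injEq] at e2
    obtain ⟨e3, e4, e5⟩ := e2
    rw [mul_right_inj] at e3
    rw [e3, e4, e5]

/-- The system. -/
noncomputable def sysF2 : Sys F2 where
  Z := Z2
  act := actZ2
  level := Sigma.fst
  level_smul := fun _ _ => rfl
  finite_level := fun m => by
    refine (Set.finite_range (fun y : Ym m => (⟨m, y⟩ : Z2))).subset ?_
    rintro ⟨n, y⟩ h
    simp only [Set.mem_ofPred_eq] at h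
    subst h
    exact ⟨y, rfl⟩
  f := sgnZ2
  bounded := fun g => by
    obtain ⟨L, hL⟩ := exists_cocycle g
    refine ⟨2 * L, fun m => ?_⟩
    obtain ⟨c, hc, hc'⟩ := hL m
    exact (ncard_sign_changes hc).le.trans (by omega)
  large := fun M => by
    refine ⟨ball M, fun K hK => ?_⟩
    choose n hn using exists_mem_ball
    set m := max M (K.sup n) with hm
    refine ⟨m, fun g hg => ?_⟩
    have hgm : g ∈ ball m := ball_mono ((Finset.le_sup hg).trans (le_max_right _ _)) (hn g)
    obtain ⟨L, hL⟩ := exists_cocycle g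
    obtain ⟨c, hc, _⟩ := hL m
    refine le_trans ?_ (ncard_sign_changes hc).ge
    by_contra hcon
    push Not at hcon
    obtain ⟨w, hw, hw'⟩ := chain_lemma (piHom m) M 1 (piHom m g) c (by omega) hc.bd
    rw [one_mul] at hw'
    have := piHom_inj hgm (ball_mono (le_max_left _ _) hw) hw'
    subst this
    exact (Finset.disjoint_left.1 hK hg) hw
  faithful := fun g hg => by
    obtain ⟨m, hm⟩ := exists_mem_ball g
    have h1 : piHom m g ≠ 1 := by
      intro h
      apply hg
      exact piHom_inj hm (one_mem_ball m) (by rw [h, map_one])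
    obtain ⟨L, hL⟩ := exists_cocycle g
    obtain ⟨c, hc, _⟩ := hL m
    refine ⟨⟨m, (1, true, 0)⟩, ?_⟩
    intro h
    change actZ2.smul g ⟨m, (1, true, 0)⟩ = _ at h
    rw [actZ2_smul, hc.act] at h
    injection h with e1 e2
    simp only [mul_one, Prod.mk.injEq] at e2
    exact h1 e2.1

end MP_e0ff90_an
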