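import Pool.Agent.MP_e0ff90_an.Star

/-!
# The group `G` is good
-/

namespace MP_e0ff90_an

open scoped InnerProductSpace ComplexConjugate

namespace Sys

variable {Γ : Type} [Group Γ] {𝒮 : Sys Γ}

section

variable {m i₀ : ℕ} [Fintype (𝒮.Y m)] [DecidableEq (𝒮.Y m)]

theorem main_bound (c : (𝒮.Y m → ZMod 2) → ℂ)
    (hc : ∀ C, ∑ A, conj (c A) * c (A + C) = if C = 0 then 1 else 0)
    {n : ℕ} (hn : n ≤ i₀) {T : L2 𝒮.GG →L[ℂ] L2 𝒮.GG}
    (hT : T ∈ (LG 𝒮.GG).toStarSubalgebra) {ε : ℝ} (hε : 0 ≤ ε)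
    (h1 : ‖hat (T * uOp i₀ c - uOp i₀ c * T)‖ ≤ ε)
    (h2 : ∑' g, offMass n (hat T) g ≤ 2 * ε ^ 2)
    (K : Finset 𝒮.GG) (hK : ∀ h ∈ K, InK n h)
    (hK2 : ∀ h ∈ K, 1 ≤ ∑ A, ‖c (A ∘ 𝒮.actY m (gam h)) - c A‖ ^ 2) :
    ∑ h ∈ K, ‖hat T h‖ ^ 2 ≤ 16 * ε ^ 2 := by
  classical
  have hsum : Summable (fun g => ‖(if InK n g then hat T g else 0 : ℂ)‖ ^ 2) := by
    refine Summable.of_nonneg_of_le (fun g => by positivity) (fun g => ?_) (hat T).summable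
    split_ifs <;> simp
  set ξ : L2 𝒮.GG := L2.mk (fun g => if InK n g then hat T g else 0) hsum with hξ
  have hξK : ∀ g, InK n g → ξ g = hat T g := fun g hg => by
    rw [hξ, L2.mk_apply, if_pos hg]
  have hξn : ∀ g, ¬ InK n g → ξ g = 0 := fun g hg => by
    rw [hξ, L2.mk_apply, if_neg hg]
  set η : L2 𝒮.GG := hat T - ξ with hη
  have hηn : ‖η‖ ^ 2 ≤ 2 * ε ^ 2 := by
    rw [L2.norm_sq]
    refine le_trans (le_of_eq (tsum_congr fun g => ?_)) h2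
    unfold offMass
    rw [hη, lp.coeFn_sub, Pi.sub_apply]
    split_ifs with hg
    · rw [hξK g hg, sub_self, norm_zero]; norm_num
    · rw [hξn g hg, sub_zero]
  have hηn' : ‖η‖ ≤ 3 / 2 * ε := by
    have : ‖η‖ ^ 2 ≤ (3 / 2 * ε) ^ 2 := by nlinarith [sq_nonneg ε]
    exact (sq_le_sq₀ (norm_nonneg _) (by positivity)).1 this
  have hWT : rOp i₀ c (hat T) - uOp i₀ c (hat T) = hat (T * uOp i₀ c - uOp i₀ c * T) := by
    rw [hat_sub, hat_mul_uOp c hT, hat_uOp_mul]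
  have hWξ : rOp i₀ c ξ - uOp i₀ c ξ =
      hat (T * uOp i₀ c - uOp i₀ c * T) - (rOp i₀ c η - uOp i₀ c η) := by
    rw [← hWT, hη, map_sub, map_sub]
    abel
  have hWn : ‖rOp i₀ c ξ - uOp i₀ c ξ‖ ≤ 4 * ε := by
    rw [hWξ]
    calc _ ≤ ‖hat (T * uOp i₀ c - uOp i₀ c * T)‖ + ‖rOp i₀ c η - uOp i₀ c η‖ := norm_sub_le _ _
      _ ≤ ε + (‖rOp i₀ c η‖ + ‖uOp i₀ c η‖) := by gcongr; exact norm_sub_le _ _
      _ ≤ 4 * ε := by
          rw [norm_rOp_apply c hc, norm_uOp_apply c hc]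
          linarith
  have hinj : Set.InjOn (fun p : 𝒮.GG × (𝒮.Y m → ZMod 2) => 𝒮.tG m i₀ p.2 * p.1)
      (K ×ˢ (Finset.univ : Finset (𝒮.Y m → ZMod 2)) : Finset _) := by
    rintro ⟨h, A⟩ hh ⟨k, B⟩ hk heq
    simp only [Finset.coe_product, Set.mem_prod, Finset.mem_coe] at hh hk
    obtain ⟨e1, e2⟩ := tG_mul_inj hn (hK h hh.1) (hK k hk.1) heq
    exact Prod.ext e2 e1
  calc ∑ h ∈ K, ‖hat T h‖ ^ 2
      ≤ ∑ h ∈ K, ∑ A, ‖(rOp i₀ c ξ - uOp i₀ c ξ) (𝒮.tG m i₀ A * h)‖ ^ 2 := by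
        refine Finset.sum_le_sum fun h hh => ?_
        have e1 : ∀ A, ‖(rOp i₀ c ξ - uOp i₀ c ξ) (𝒮.tG m i₀ A * h)‖ ^ 2 =
            ‖c (A ∘ 𝒮.actY m (gam h)) - c A‖ ^ 2 * ‖hat T h‖ ^ 2 := by
          intro A
          rw [W_apply c hn hξn (hK h hh) A, norm_mul, mul_pow, hξK h (hK h hh)]
        simp only [e1]
        rw [← Finset.sum_mul]
        have := hK2 h hh
        have h3 : 0 ≤ ‖hat T h‖ ^ 2 := by positivity
        nlinarith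
    _ = ∑ x ∈ (K ×ˢ (Finset.univ : Finset (𝒮.Y m → ZMod 2))).image
          (fun p : 𝒮.GG × (𝒮.Y m → ZMod 2) => 𝒮.tG m i₀ p.2 * p.1),
          ‖(rOp i₀ c ξ - uOp i₀ c ξ) x‖ ^ 2 := by
        rw [Finset.sum_image hinj, Finset.sum_product]
    _ ≤ ‖rOp i₀ c ξ - uOp i₀ c ξ‖ ^ 2 := L2.sum_le _ _
    _ ≤ (4 * ε) ^ 2 := by gcongr
    _ = 16 * ε ^ 2 := by ring

omit [DecidableEq (𝒮.Y m)] in
theorem card_filter_eq (g : Γ) :
    (Finset.univ.filter (fun y : 𝒮.Y m => 𝒮.f (𝒮.actY m g y).1 ≠ 𝒮.f y.1)).card =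
      {z | 𝒮.level z = m ∧ 𝒮.f (g • z) ≠ 𝒮.f z}.ncard := by
  classical
  rw [← Finset.card_image_of_injective _ (Subtype.val_injective (p := fun z => 𝒮.level z = m)),
    ← Set.ncard_coe_finset]
  congr 1
  ext z
  rw [Finset.mem_coe, Finset.mem_image]
  constructor
  · rintro ⟨y, hy, rfl⟩
    exact ⟨y.2, (Finset.mem_filter.1 hy).2⟩
  · rintro ⟨h, h'⟩
    exact ⟨⟨z, h⟩, Finset.mem_filter.2 ⟨Finset.mem_univ _, h'⟩, rfl⟩

end

theorem exists_r (L : ℕ) {δ : ℝ} (hδ : 0 < δ) :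
    ∃ r : ℝ, 0 < r ∧ r < 1 ∧ 2 - 2 * r ^ L ≤ δ ^ 2 := by
  have hL : (0 : ℝ) ≤ L := Nat.cast_nonneg L
  set x : ℝ := min (1 / 2) (δ ^ 2 / (2 * (L + 1))) with hx
  have hx0 : 0 < x := lt_min (by norm_num) (by positivity)
  have hx1 : x ≤ 1 / 2 := min_le_left _ _
  have hx2 : x ≤ δ ^ 2 / (2 * (L + 1)) := min_le_right _ _
  refine ⟨1 - x, by linarith, by linarith, ?_⟩
  have h1 := one_add_mul_le_pow (a := -x) (by linarith) L
  have h2 : (L : ℝ) * x ≤ δ ^ 2 / 2 := by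
    calc (L : ℝ) * x ≤ (L + 1) * (δ ^ 2 / (2 * (L + 1))) := by gcongr; linarith
      _ = δ ^ 2 / 2 := by field_simp
  have h3 : (1 + -x) ^ L = (1 - x) ^ L := by ring
  rw [h3] at h1
  nlinarith

theorem good (𝒮 : Sys Γ) : Good 𝒮.GG := by
  classical
  intro F δ hδ
  obtain ⟨n, hn⟩ := exists_inK_finset F
  choose L hL using 𝒮.bounded
  obtain ⟨r, hr0, hr1, hr⟩ := exists_r (F.sup (fun h => L (gam h))) hδ
  obtain ⟨M, hM⟩ := exists_pow_lt_of_lt_one (show (0 : ℝ) < 1 / 2 by norm_num) hr1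
  obtain ⟨SΓ, hSΓ⟩ := 𝒮.large M
  set C : ℝ := Real.sqrt ((1 + r) / 2) with hC
  set S : ℝ := Real.sqrt ((1 - r) / 2) with hS
  have hC2 : C ^ 2 = (1 + r) / 2 := Real.sq_sqrt (by linarith)
  have hS2 : S ^ 2 = (1 - r) / 2 := Real.sq_sqrt (by linarith)
  have hCS : C ^ 2 + S ^ 2 = 1 := by rw [hC2, hS2]; ring
  have hCSr : C ^ 2 - S ^ 2 = r := by rw [hC2, hS2]; ring
  refine ⟨(finite_inK n SΓ).toFinset, fun T hT ε hε hyp K hK => ?_⟩
  -- first half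
  have htail : ∑' g, offMass n (hat T) g ≤ 2 * ε ^ 2 := by
    refine tail_bound n hT fun s hs => hyp _ (lam_mem s) ?_ ?_
    · refine ContinuousLinearMap.opNorm_le_bound _ zero_le_one fun ξ => ?_
      rw [norm_lam_apply, one_mul]
    · intro h hh
      rw [← lam_mul, ← lam_mul, hs h (hn h hh), sub_self]
      rw [hat]
      simpa using hδ.le
  -- split `K`
  have hsplit : ∑ h ∈ K, ‖hat T h‖ ^ 2 = ∑ h ∈ K.filter (InK n), ‖hat T h‖ ^ 2 +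
      ∑ h ∈ K.filter (fun h => ¬ InK n h), ‖hat T h‖ ^ 2 :=
    (Finset.sum_filter_add_sum_filter_not K (InK n) _).symm
  have hpart2 : ∑ h ∈ K.filter (fun h => ¬ InK n h), ‖hat T h‖ ^ 2 ≤ 2 * ε ^ 2 := by
    refine le_trans ?_ htail
    refine le_trans (le_of_eq (Finset.sum_congr rfl fun h hh => ?_))
      ((offMass_summable n (hat T)).sum_le_tsum (K.filter (fun h => ¬ InK n h))
        fun _ _ => offMass_nonneg _ _ _)
    unfold offMass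
    rw [if_neg (Finset.mem_filter.1 hh).2]
  have hpart1 : ∑ h ∈ K.filter (InK n), ‖hat T h‖ ^ 2 ≤ 16 * ε ^ 2 := by
    have hdisj : Disjoint ((K.filter (InK n)).image gam) SΓ := by
      rw [Finset.disjoint_left]
      intro g hg hg'
      obtain ⟨h, hh, rfl⟩ := Finset.mem_image.1 hg
      rw [Finset.mem_filter] at hh
      exact (Finset.disjoint_left.1 hK hh.1) (by simpa using ⟨hh.2, hg'⟩)
    obtain ⟨m, hm⟩ := hSΓ _ hdisj
    have : Fintype (𝒮.Y m) := Fintype.ofFinite _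
    set f : 𝒮.Y m → Bool := fun y => 𝒮.f y.1 with hf
    have hconv := coef_conv hCS f
    have hdiff : ∀ g : Γ, ∑ A, ‖coef C S f A - coef C S f (A ∘ 𝒮.actY m g)‖ ^ 2 =
        2 - 2 * r ^ {z | 𝒮.level z = m ∧ 𝒮.f (g • z) ≠ 𝒮.f z}.ncard := by
      intro g
      rw [coef_diff hCS f (𝒮.actY m g), hCSr, ← card_filter_eq]
    refine main_bound (i₀ := n) (coef C S f) hconv le_rfl hT hε ?_ htail _
      (fun h hh => (Finset.mem_filter.1 hh).2) ?_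
    · refine hyp _ (uOp_mem _) ?_ ?_
      · refine ContinuousLinearMap.opNorm_le_bound _ zero_le_one fun ξ => ?_
        rw [norm_uOp_apply _ hconv, one_mul]
      · intro h hh
        rw [← sq_le_sq₀ (norm_nonneg _) hδ.le, norm_brk_uOp _ le_rfl (hn h hh), hdiff]
        refine le_trans ?_ hr
        have e1 : {z | 𝒮.level z = m ∧ 𝒮.f (gam h • z) ≠ 𝒮.f z}.ncard ≤
            F.sup (fun h => L (gam h)) :=
          (hL (gam h) m).trans (Finset.le_sup (f := fun h => L (gam h)) hh)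
        have e2 := pow_le_pow_of_le_one hr0.le hr1.le e1
        linarith
    · intro h hh
      have e0 : ∑ A, ‖coef C S f (A ∘ 𝒮.actY m (gam h)) - coef C S f A‖ ^ 2 =
          ∑ A, ‖coef C S f A - coef C S f (A ∘ 𝒮.actY m (gam h))‖ ^ 2 :=
        Finset.sum_congr rfl fun A _ => by rw [norm_sub_rev]
      rw [e0, hdiff]
      have e1 := hm (gam h) (Finset.mem_image_of_mem gam hh)
      have e2 := pow_le_pow_of_le_one hr0.le hr1.le e1
      linarith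
  rw [hsplit]
  nlinarith [sq_nonneg ε]

end Sys

end MP_e0ff90_an
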