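import Pool.Agent.MP_e0ff90_an.Defs

/-!
# The group von Neumann algebra `L(G)` acting on `ℓ²(G)`
-/

namespace MP_e0ff90_an

open Filter Topology
open scoped InnerProductSpace

/-- `ℓ²(X)`. -/
abbrev L2 (X : Type*) : Type _ := lp (fun _ : X => ℂ) 2

section Basic

variable {X : Type*}

theorem L2.summable (ξ : L2 X) : Summable (fun x => ‖ξ x‖ ^ 2) := by
  simpa using (lp.memℓp ξ).summable (by norm_num)

theorem L2.norm_sq (ξ : L2 X) : ‖ξ‖ ^ 2 = ∑' x, ‖ξ x‖ ^ 2 := by
  simpa using lp.norm_rpow_eq_tsum (p := 2) (by norm_num) ξ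

theorem L2.sum_le (ξ : L2 X) (s : Finset X) : ∑ x ∈ s, ‖ξ x‖ ^ 2 ≤ ‖ξ‖ ^ 2 := by
  rw [L2.norm_sq]; exact ξ.summable.sum_le_tsum s fun _ _ => by positivity

/-- Build an `ℓ²` vector. -/
def L2.mk (f : X → ℂ) (hf : Summable (fun x => ‖f x‖ ^ 2)) : L2 X :=
  ⟨f, memℓp_gen (by simpa using hf)⟩

@[simp] theorem L2.mk_apply (f : X → ℂ) (hf : Summable (fun x => ‖f x‖ ^ 2)) (x : X) :
    L2.mk f hf x = f x := rfl

/-- The unitary of `ℓ²(X)` given by a permutation: `(permU e ξ)(x) = ξ(e⁻¹ x)`. -/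
noncomputable def permU (e : Equiv.Perm X) : L2 X ≃ₗᵢ[ℂ] L2 X where
  toFun ξ := L2.mk (fun x => ξ (e.symm x)) (e.symm.summable_iff.2 ξ.summable)
  invFun ξ := L2.mk (fun x => ξ (e x)) (e.summable_iff.2 ξ.summable)
  map_add' ξ η := rfl
  map_smul' c ξ := rfl
  left_inv ξ := by ext x; simp
  right_inv ξ := by ext x; simp
  norm_map' ξ := by
    rw [← sq_eq_sq₀ (norm_nonneg _) (norm_nonneg _), L2.norm_sq, L2.norm_sq]
    exact e.symm.tsum_eq (fun x => ‖ξ x‖ ^ 2)

@[simp] theorem permU_apply (e : Equiv.Perm X) (ξ : L2 X) (x : X) :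
    permU e ξ x = ξ (e.symm x) := rfl

/-- The permutation unitary as a bounded operator. -/
noncomputable def permB (e : Equiv.Perm X) : L2 X →L[ℂ] L2 X :=
  (permU e).toContinuousLinearEquiv.toContinuousLinearMap

@[simp] theorem permB_apply (e : Equiv.Perm X) (ξ : L2 X) (x : X) :
    permB e ξ x = ξ (e.symm x) := rfl

theorem norm_permB_apply (e : Equiv.Perm X) (ξ : L2 X) : ‖permB e ξ‖ = ‖ξ‖ :=
  (permU e).norm_map ξ

theorem permB_one : permB (1 : Equiv.Perm X) = 1 := by
  ext ξ x; rfl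

theorem permB_mul (e f : Equiv.Perm X) : permB (e * f) = permB e * permB f := by
  ext ξ x; rfl

theorem inner_permB_left (e : Equiv.Perm X) (ξ η : L2 X) :
    ⟪permB e ξ, η⟫_ℂ = ⟪ξ, permB e⁻¹ η⟫_ℂ := by
  rw [lp.inner_eq_tsum, lp.inner_eq_tsum]
  rw [← e.tsum_eq]
  refine tsum_congr fun x => ?_
  simp [Equiv.Perm.inv_def]

theorem star_permB (e : Equiv.Perm X) : star (permB e) = permB e⁻¹ := by
  rw [ContinuousLinearMap.star_eq_adjoint]
  symm
  rw [ContinuousLinearMap.eq_adjoint_iff]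
  intro ξ η
  rw [inner_permB_left, inv_inv]

open Classical in
/-- The basis vector `δ_x`. -/
noncomputable def delta (x : X) : L2 X := lp.single 2 x (1 : ℂ)

open Classical in
theorem delta_apply (x y : X) : delta x y = if y = x then 1 else 0 := by
  rw [delta, lp.single_apply, Pi.single_apply]

@[simp] theorem delta_self (x : X) : delta x x = 1 := by simp [delta_apply]

theorem delta_ne {x y : X} (h : y ≠ x) : delta x y = 0 := by simp [delta_apply, h]

theorem norm_delta (x : X) : ‖delta x‖ = 1 := by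
  classical
  rw [delta]
  simp

theorem inner_delta_left (x : X) (ξ : L2 X) : ⟪delta x, ξ⟫_ℂ = ξ x := by
  classical
  rw [delta]
  simpa using lp.inner_single_left (𝕜 := ℂ) (G := fun _ : X => ℂ) x (1 : ℂ) ξ

theorem permB_delta (e : Equiv.Perm X) (x : X) : permB e (delta x) = delta (e x) := by
  ext y
  rw [permB_apply, delta_apply, delta_apply]
  by_cases h : y = e x
  · rw [if_pos h, if_pos ((Equiv.symm_apply_eq e).2 h)]
  · rw [if_neg h, if_neg (fun h' => h ((Equiv.symm_apply_eq e).1 h'))]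

end Basic

section Group

variable {G : Type} [Group G]

/-- Left translation: `(λ(h) ξ)(g) = ξ(h⁻¹ g)`. -/
noncomputable def lam (h : G) : L2 G →L[ℂ] L2 G := permB (Equiv.mulLeft h)

/-- Right translation: `(ρ(h) ξ)(g) = ξ(g h)`. -/
noncomputable def rho (h : G) : L2 G →L[ℂ] L2 G := permB (Equiv.mulRight h⁻¹)

@[simp] theorem lam_apply (h : G) (ξ : L2 G) (g : G) : lam h ξ g = ξ (h⁻¹ * g) := by
  simp [lam]

@[simp] theorem rho_apply (h : G) (ξ : L2 G) (g : G) : rho h ξ g = ξ (g * h) := by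
  simp [rho]

theorem lam_delta (h g : G) : lam h (delta g) = delta (h * g) := by
  rw [lam, permB_delta]; rfl

theorem rho_delta (h g : G) : rho h (delta g) = delta (g * h⁻¹) := by
  rw [rho, permB_delta]; rfl

theorem lam_one : lam (1 : G) = 1 := by
  ext ξ g; simp

theorem rho_one : rho (1 : G) = 1 := by
  ext ξ g; simp

theorem lam_mul (g h : G) : lam (g * h) = lam g * lam h := by
  ext ξ x; simp [mul_assoc]

theorem rho_mul (g h : G) : rho (g * h) = rho g * rho h := by
  ext ξ x; simp [mul_assoc]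

theorem star_lam (h : G) : star (lam h) = lam h⁻¹ := by
  rw [lam, star_permB]
  congr 1
  ext x
  simp [Equiv.Perm.inv_def]

theorem star_rho (h : G) : star (rho h) = rho h⁻¹ := by
  rw [rho, star_permB]
  congr 1
  ext x
  simp [Equiv.Perm.inv_def]

theorem norm_lam_apply (h : G) (ξ : L2 G) : ‖lam h ξ‖ = ‖ξ‖ := norm_permB_apply _ _

theorem norm_rho_apply (h : G) (ξ : L2 G) : ‖rho h ξ‖ = ‖ξ‖ := norm_permB_apply _ _

theorem lam_mul_rho (g h : G) : lam g * rho h = rho h * lam g := by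
  ext ξ x; simp [mul_assoc]

variable (G) in
/-- The group von Neumann algebra `L(G)`, realised as the commutant of the right regular
representation on `ℓ²(G)`. -/
noncomputable def LG : VonNeumannAlgebra (L2 G) where
  toStarSubalgebra := StarSubalgebra.centralizer ℂ (Set.range (rho : G → _))
  centralizer_centralizer' := by
    change Set.centralizer (Set.centralizer
      ((StarSubalgebra.centralizer ℂ (Set.range (rho : G → _)) :
        StarSubalgebra ℂ (L2 G →L[ℂ] L2 G)) : Set (L2 G →L[ℂ] L2 G))) =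
      ((StarSubalgebra.centralizer ℂ (Set.range (rho : G → _)) :
        StarSubalgebra ℂ (L2 G →L[ℂ] L2 G)) : Set (L2 G →L[ℂ] L2 G))
    rw [StarSubalgebra.coe_centralizer]
    exact Set.centralizer_centralizer_centralizer _

theorem mem_LG_iff (T : L2 G →L[ℂ] L2 G) :
    T ∈ (LG G).toStarSubalgebra ↔ ∀ h : G, rho h * T = T * rho h := by
  change T ∈ StarSubalgebra.centralizer ℂ (Set.range (rho : G → _)) ↔ _
  rw [StarSubalgebra.mem_centralizer_iff]
  constructor
  · intro h g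
    exact (h _ ⟨g, rfl⟩).1
  · rintro h _ ⟨g, rfl⟩
    refine ⟨h g, ?_⟩
    rw [star_rho]
    exact h _

theorem lam_mem (g : G) : lam g ∈ (LG G).toStarSubalgebra := by
  rw [mem_LG_iff]
  intro h
  exact (lam_mul_rho g h).symm

/-- `λ(g)` as an element of `L(G)`. -/
noncomputable def lamN (g : G) : Alg (LG G) := ⟨lam g, lam_mem g⟩

@[simp] theorem coe_lamN (g : G) : ((lamN g : Alg (LG G)) : L2 G →L[ℂ] L2 G) = lam g := rfl

/-- Fourier coefficients of an operator: `hat T = T δ_1`. -/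
noncomputable def hat (T : L2 G →L[ℂ] L2 G) : L2 G := T (delta 1)

theorem apply_delta {T : L2 G →L[ℂ] L2 G} (hT : T ∈ (LG G).toStarSubalgebra) (h : G) :
    T (delta h) = rho h⁻¹ (hat T) := by
  rw [mem_LG_iff] at hT
  have := congrArg (fun S : L2 G →L[ℂ] L2 G => S (delta 1)) (hT h⁻¹)
  simp only [mul_apply_eq_comp] at this
  rw [rho_delta] at this
  simpa [hat] using this.symm

theorem apply_delta_apply {T : L2 G →L[ℂ] L2 G} (hT : T ∈ (LG G).toStarSubalgebra) (h g : G) :
    T (delta h) g = hat T (g * h⁻¹) := by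
  rw [apply_delta hT, rho_apply]

theorem hat_star {T : L2 G →L[ℂ] L2 G} (hT : T ∈ (LG G).toStarSubalgebra) (g : G) :
    hat (star T) g = (starRingEnd ℂ) (hat T g⁻¹) := by
  rw [hat, ← inner_delta_left g, ContinuousLinearMap.star_eq_adjoint,
    ContinuousLinearMap.adjoint_inner_right, ← inner_conj_symm, inner_delta_left,
    apply_delta_apply hT, one_mul]

theorem eq_zero_of_hat {T : L2 G →L[ℂ] L2 G} (hT : T ∈ (LG G).toStarSubalgebra)
    (h : hat T = 0) : T = 0 := by
  ext ξ g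
  have hs : star T ∈ (LG G).toStarSubalgebra := star_mem hT
  have h1 : hat (star T) = 0 := by
    ext g; rw [hat_star hT, h]; simp
  have h2 : (star T) (delta g) = 0 := by
    rw [apply_delta hs, h1, map_zero]
  rw [← inner_delta_left g, ← ContinuousLinearMap.adjoint_inner_left,
    ← ContinuousLinearMap.star_eq_adjoint, h2]
  simp

theorem ext_of_hat {S T : L2 G →L[ℂ] L2 G} (hS : S ∈ (LG G).toStarSubalgebra)
    (hT : T ∈ (LG G).toStarSubalgebra) (h : hat S = hat T) : S = T := by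
  rw [← sub_eq_zero]
  refine eq_zero_of_hat (sub_mem hS hT) ?_
  rw [hat, sub_apply, sub_eq_zero]
  exact h

variable (G) in
/-- The canonical trace on `L(G)`: `τ(T) = ⟨δ_1, T δ_1⟩`. -/
noncomputable def trG : Alg (LG G) →ₗ[ℂ] ℂ where
  toFun T := ⟪delta (1 : G), (T : L2 G →L[ℂ] L2 G) (delta 1)⟫_ℂ
  map_add' S T := by
    change ⟪delta (1 : G), ((S : L2 G →L[ℂ] L2 G) + (T : L2 G →L[ℂ] L2 G)) (delta 1)⟫_ℂ = _
    rw [add_apply, inner_add_right]
  map_smul' c T := by
    change ⟪delta (1 : G), (c • (T : L2 G →L[ℂ] L2 G)) (delta 1)⟫_ℂ = _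
    rw [smul_apply, inner_smul_right]
    rfl

theorem trG_apply (T : Alg (LG G)) :
    trG G T = ⟪delta (1 : G), (T : L2 G →L[ℂ] L2 G) (delta 1)⟫_ℂ := rfl

theorem trG_mul (S T : Alg (LG G)) :
    trG G (S * T) = ∑' g, hat (S : L2 G →L[ℂ] L2 G) g⁻¹ * hat (T : L2 G →L[ℂ] L2 G) g := by
  rw [trG_apply]
  have : ((S * T : Alg (LG G)) : L2 G →L[ℂ] L2 G)
    = (S : L2 G →L[ℂ] L2 G) * (T : L2 G →L[ℂ] L2 G) := rfl
  rw [this, mul_apply_eq_comp, ← ContinuousLinearMap.adjoint_inner_left,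
    ← ContinuousLinearMap.star_eq_adjoint, lp.inner_eq_tsum]
  refine tsum_congr fun g => ?_
  have h1 := hat_star S.2 g
  rw [hat] at h1
  rw [h1, RCLike.inner_apply, Complex.conj_conj, mul_comm]
  rfl

theorem trG_star_mul_self (T : Alg (LG G)) :
    trG G (star T * T) = ((‖hat (T : L2 G →L[ℂ] L2 G)‖ ^ 2 : ℝ) : ℂ) := by
  rw [trG_apply]
  have : ((star T * T : Alg (LG G)) : L2 G →L[ℂ] L2 G)
    = star (T : L2 G →L[ℂ] L2 G) * (T : L2 G →L[ℂ] L2 G) := rfl
  rw [this, mul_apply_eq_comp, ContinuousLinearMap.star_eq_adjoint,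
    ContinuousLinearMap.adjoint_inner_right, inner_self_eq_norm_sq_to_K]
  push_cast
  rfl

theorem nsq_trG (T : Alg (LG G)) :
    nsq (trG G) T = ‖hat (T : L2 G →L[ℂ] L2 G)‖ ^ 2 := by
  rw [nsq, trG_star_mul_self, Complex.ofReal_re]

variable (G) in
theorem isTrace_trG : IsTrace (LG G) (trG G) where
  map_one := by
    rw [trG_apply]
    change ⟪delta (1 : G), (1 : L2 G →L[ℂ] L2 G) (delta 1)⟫_ℂ = 1
    rw [one_apply_eq_self, inner_delta_left, delta_self]
  tracial := by
    intro S T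
    rw [trG_mul, trG_mul, ← (Equiv.inv G).tsum_eq]
    refine tsum_congr fun g => ?_
    simp [mul_comm]
  faithful := by
    intro T hT
    rw [trG_star_mul_self] at hT
    have h1 : ‖hat (T : L2 G →L[ℂ] L2 G)‖ ^ 2 = 0 := by exact_mod_cast hT
    have h2 : hat (T : L2 G →L[ℂ] L2 G) = 0 := by
      rwa [sq_eq_zero_iff, norm_eq_zero] at h1
    exact Subtype.ext (eq_zero_of_hat T.2 h2)
  normal := by
    refine ⟨fun i => if i = 0 then delta 1 else 0, ?_, fun T => ?_⟩
    · refine summable_of_ne_finset_zero (s := {0}) fun i hi => ?_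
      simp only [Finset.mem_singleton] at hi
      simp [hi]
    · rw [tsum_eq_single 0]
      · simp [trG_apply]
      · intro i hi; simp [hi]

end Group

end MP_e0ff90_an
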