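import Pool.Agent.MP_e0ff90_an.Defs
import Pool.Agent.MP_e0ff90_an.State
import Pool.Agent.MP_e0ff90_an.Casimir

/-!
# Approximate hypertraces
-/

namespace MP_e0ff90_an

open scoped ComplexConjugate

variable {H : Type*} [NormedAddCommGroup H] [InnerProductSpace ℂ H] [CompleteSpace H]

/-- Extension of a contractive unital functional from `N` to `B(H)`. -/
theorem exists_extension {N : VonNeumannAlgebra H} (φ : Alg N →ₗ[ℂ] ℂ) (h1 : φ 1 = 1)
    (hc : ∀ x : Alg N, ‖φ x‖ ≤ ‖(x : H →L[ℂ] H)‖) :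
    ∃ g : (H →L[ℂ] H) →ₗ[ℂ] ℂ, IsPos g ∧ ∀ x : Alg N, g (x : H →L[ℂ] H) = φ x := by
  let p : Subspace ℂ (H →L[ℂ] H) := Subalgebra.toSubmodule N.toStarSubalgebra.toSubalgebra
  let f₀ : p →ₗ[ℂ] ℂ :=
    { toFun := fun x => φ ⟨x.1, x.2⟩
      map_add' := fun x y => map_add φ ⟨x.1, x.2⟩ ⟨y.1, y.2⟩
      map_smul' := fun c x => map_smul φ c ⟨x.1, x.2⟩ }
  let f : StrongDual ℂ p := LinearMap.mkContinuous f₀ 1 (fun x => by
    rw [one_mul]; exact hc ⟨x.1, x.2⟩)
  obtain ⟨g, hg1, hg2⟩ := exists_extension_norm_eq p f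
  have hfn : ‖f‖ ≤ 1 := LinearMap.mkContinuous_norm_le _ zero_le_one _
  have hgφ : ∀ x : Alg N, g (x : H →L[ℂ] H) = φ x := fun x => hg1 ⟨x.1, x.2⟩
  refine ⟨g.toLinearMap, isPos_of_contractive _ (fun a => ?_) ?_, hgφ⟩
  · calc ‖g a‖ ≤ ‖g‖ * ‖a‖ := g.le_opNorm a
      _ ≤ 1 * ‖a‖ := by rw [hg2]; gcongr
      _ = ‖a‖ := one_mul _
  · change g 1 = 1
    have := hgφ 1
    rw [h1] at this
    exact this

/-- The restriction of `φ` to a subalgebra. -/
theorem IsFaithfulPos.restrict {N : VonNeumannAlgebra H} {φ : Alg N →ₗ[ℂ] ℂ}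
    (h : IsFaithfulPos φ) (Q : StarSubalgebra ℂ (Alg N)) :
    IsFaithfulPos (φ ∘ₗ Q.toSubalgebra.val.toLinearMap : Q →ₗ[ℂ] ℂ) where
  map_star := fun x => h.map_star (x : Alg N)
  nonneg := fun x => h.nonneg (x : Alg N)
  definite := fun x hx => Subtype.ext (h.definite (x : Alg N) hx)

/-- A functional on `B(H)` extending `φ` and central for the finite dimensional subalgebra `Q`. -/
theorem exists_hypertrace {N : VonNeumannAlgebra H} (φ : Alg N →ₗ[ℂ] ℂ) (h1 : φ 1 = 1)
    (hc : ∀ x : Alg N, ‖φ x‖ ≤ ‖(x : H →L[ℂ] H)‖) (htr : ∀ x y : Alg N, φ (x * y) = φ (y * x))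
    (hf : IsFaithfulPos φ) (Q : StarSubalgebra ℂ (Alg N)) [FiniteDimensional ℂ Q] :
    ∃ ψ : (H →L[ℂ] H) →ₗ[ℂ] ℂ, IsPos ψ ∧ (∀ x : Alg N, ψ (x : H →L[ℂ] H) = φ x) ∧
      ∀ q ∈ Q, ∀ T : H →L[ℂ] H, ψ ((q : Alg N) * T) = ψ (T * (q : Alg N)) := by
  obtain ⟨g, hg, hgφ⟩ := exists_extension φ h1 hc
  obtain ⟨d, a, u, ha1, ha2, ha3⟩ := exists_casimir (hf.restrict Q)
  -- the elements of the Casimir family as operators
  let b : Fin d → (H →L[ℂ] H) := fun i => ((a i : Alg N) : H →L[ℂ] H)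
  have hb1 : ∑ i, star (b i) * b i = 1 := by
    have := congrArg (fun x : Q => ((x : Alg N) : H →L[ℂ] H)) ha1
    simpa [b] using this
  have hb2 : ∀ (q : Q) i, b i * ((q : Alg N) : H →L[ℂ] H) = ∑ j, u q i j • b j := by
    intro q i
    have := congrArg (fun x : Q => ((x : Alg N) : H →L[ℂ] H)) (ha2 q i)
    simpa [b] using this
  have hb3 : ∀ (q : Q) j, ((q : Alg N) : H →L[ℂ] H) * star (b j) =
      ∑ i, u q i j • star (b i) := by
    intro q j
    have := congrArg (fun x : Q => ((x : Alg N) : H →L[ℂ] H)) (ha3 q j)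
    simpa [b] using this
  let E : (H →L[ℂ] H) →ₗ[ℂ] (H →L[ℂ] H) :=
    { toFun := fun T => ∑ i, b i * T * star (b i)
      map_add' := fun S T => by
        simp only [mul_add, add_mul, Finset.sum_add_distrib]
      map_smul' := fun c T => by
        simp only [mul_smul_comm, smul_mul_assoc, Finset.smul_sum, RingHom.id_apply] }
  have hE : ∀ T, E T = ∑ i, b i * T * star (b i) := fun T => rfl
  refine ⟨g ∘ₗ E, ⟨fun T => ?_, fun T => ?_⟩, fun x => ?_, fun q hq T => ?_⟩
  · change g (E (star T)) = conj (g (E T))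
    rw [← hg.map_star, hE, hE, star_sum]
    congr 1
    refine Finset.sum_congr rfl fun i _ => ?_
    simp only [star_mul, star_star, mul_assoc]
  · change 0 ≤ (g (E (star T * T))).re
    rw [hE, map_sum, Complex.re_sum]
    refine Finset.sum_nonneg fun i _ => ?_
    have := hg.nonneg (T * star (b i))
    rw [star_mul, star_star] at this
    have e : b i * (star T * T) * star (b i) = b i * star T * (T * star (b i)) := by
      simp only [mul_assoc]
    rw [e]
    exact this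
  · change g (E (x : H →L[ℂ] H)) = φ x
    rw [hE, map_sum]
    have e1 : ∀ i, g (b i * (x : H →L[ℂ] H) * star (b i)) =
        φ (x * (star (a i : Alg N) * (a i : Alg N))) := by
      intro i
      have e2 : b i * (x : H →L[ℂ] H) * star (b i) =
          (((a i : Alg N) * x * star (a i : Alg N) : Alg N) : H →L[ℂ] H) := rfl
      rw [e2, hgφ, htr, ← mul_assoc, htr]
    simp only [e1]
    rw [← map_sum, ← Finset.mul_sum]
    have e3 : ∑ i, star (a i : Alg N) * (a i : Alg N) = 1 := by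
      have := congrArg (fun x : Q => (x : Alg N)) ha1
      simpa using this
    rw [e3, mul_one]
  · change g (E _) = g (E _)
    congr 1
    rw [hE, hE]
    calc ∑ i, b i * (((q : Alg N) : H →L[ℂ] H) * T) * star (b i)
        = ∑ i, ∑ j, u ⟨q, hq⟩ i j • (b j * T * star (b i)) := by
          refine Finset.sum_congr rfl fun i _ => ?_
          rw [← mul_assoc, hb2 ⟨q, hq⟩ i, Finset.sum_mul, Finset.sum_mul]
          refine Finset.sum_congr rfl fun j _ => ?_
          rw [smul_mul_assoc, smul_mul_assoc]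
      _ = ∑ j, ∑ i, u ⟨q, hq⟩ i j • (b j * T * star (b i)) := Finset.sum_comm
      _ = ∑ j, b j * (T * ((q : Alg N) : H →L[ℂ] H)) * star (b j) := by
          refine Finset.sum_congr rfl fun j _ => ?_
          rw [mul_assoc, mul_assoc, hb3 ⟨q, hq⟩ j, Finset.mul_sum, Finset.mul_sum]
          refine Finset.sum_congr rfl fun i _ => ?_
          rw [mul_smul_comm, mul_smul_comm, mul_assoc]

end MP_e0ff90_an
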