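import Pool.Agent.MP_e0ff90_an.Moves
import Pool.Agent.MP_e0ff90_an.GroupVN

/-!
# `G` is countable with infinite conjugacy classes; `L(G)` is a II₁ factor
-/

namespace MP_e0ff90_an

open scoped InnerProductSpace

namespace Sys

variable {Γ : Type} [Group Γ] {𝒮 : Sys Γ}

instance [Countable Γ] : Countable 𝒮.GG := by
  rw [← Set.countable_univ_iff]
  have hU : (Set.univ : Set 𝒮.GG) = ⋃ n, {h | InK n h} := by
    ext h
    simpa using exists_inK h
  rw [hU]
  refine Set.countable_iUnion fun n => ?_
  have hfin := 𝒮.finite_idx_lt n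
  have : Finite {x : 𝒮.X // 𝒮.idx x < n} := hfin.to_subtype
  let Φ : {h : 𝒮.GG | InK n h} →
      Γ × ({x : 𝒮.X // 𝒮.idx x < n} → {x : 𝒮.X // 𝒮.idx x < n}) :=
    fun h => (gam h.1, fun x => ⟨perm h.1 x.1, h.2.idx_lt x.2⟩)
  have hΦ : Function.Injective Φ := by
    rintro ⟨h, hh⟩ ⟨k, hk⟩ heq
    simp only [Φ, Prod.mk.injEq] at heq
    apply Subtype.ext
    refine ext_GG (fun x => ?_) heq.1
    by_cases hx : 𝒮.idx x < n
    · have := congrFun heq.2 ⟨x, hx⟩
      exact congrArg Subtype.val this
    · push Not at hx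
      rw [hh x hx, hk x hx]
      exact congrArg (fun g => 𝒮.actX g x) heq.1
  exact Set.countable_coe_iff.1 hΦ.countable

variable (𝒮) in
/-- The canonical lift of `Γ` to `G`. -/
def lift : Γ →* 𝒮.GG where
  toFun g := ⟨(𝒮.actX g, g), by
    change {x | 𝒮.actX g x ≠ 𝒮.actX g x}.Finite
    simp⟩
  map_one' := by
    apply Subtype.ext
    simp
  map_mul' g h := by
    apply Subtype.ext
    simp

@[simp] theorem gam_lift (g : Γ) : gam (𝒮.lift g) = g := rfl

theorem inK_lift (g : Γ) : InK 0 (𝒮.lift g) := fun _ _ => rfl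

/-- Conjugacy class. -/
def conjClass {G : Type*} [Group G] (h : G) : Set G := {k | ∃ s, k = s * h * s⁻¹}

theorem infinite_conjClass_of_not_inK {h : 𝒮.GG} (hh : ¬ InK 0 h) : (conjClass h).Infinite := by
  intro hfin
  obtain ⟨N, hN⟩ := exists_inK_finset hfin.toFinset
  have hN' : ∀ k ∈ conjClass h, InK N k := fun k hk => hN k (hfin.mem_toFinset.2 hk)
  have h1 := hN' h ⟨1, by simp⟩
  exact swapG_conj h1 hh (hN' _ ⟨_, rfl⟩)

theorem conjClass_conj {G : Type*} [Group G] (h t : G) :
    conjClass (t * h * t⁻¹) = conjClass h := by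
  ext k
  constructor
  · rintro ⟨s, rfl⟩
    exact ⟨s * t, by group⟩
  · rintro ⟨s, rfl⟩
    exact ⟨s * t⁻¹, by group⟩

open Classical in
variable (𝒮) in
/-- A transposition as an element of `G`. -/
noncomputable def transpG (x y : 𝒮.X) : 𝒮.GG := ⟨(Equiv.swap x y, 1), by
  refine (Set.toFinite {x, y}).subset ?_
  intro w hw
  simp only [Set.mem_ofPred_eq, map_one, Equiv.Perm.one_apply] at hw
  by_contra hcon
  simp only [Set.mem_insert_iff, Set.mem_singleton_iff, not_or] at hcon
  exact hw (Equiv.swap_apply_of_ne_of_ne hcon.1 hcon.2)⟩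

theorem infinite_conjClass {h : 𝒮.GG} (hh : h ≠ 1) : (conjClass h).Infinite := by
  classical
  by_cases h0 : InK 0 h
  · have hg : gam h ≠ 1 := by
      intro hg
      apply hh
      refine ext_GG (fun x => ?_) hg
      rw [h0 x (Nat.zero_le _), hg, map_one]
      rfl
    obtain ⟨z, hz⟩ := 𝒮.faithful _ hg
    set x : 𝒮.X := (z, 0, 0) with hx
    set w : 𝒮.X := (z, 0, 1) with hw
    rw [← conjClass_conj h (𝒮.transpG x w)]
    apply infinite_conjClass_of_not_inK
    intro hcon
    have h1 := hcon w (Nat.zero_le _)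
    have hp : perm (𝒮.transpG x w) = Equiv.swap x w := rfl
    have hg2 : gam (𝒮.transpG x w) = 1 := rfl
    rw [perm_mul, perm_mul, perm_inv, hp, Equiv.Perm.mul_apply, Equiv.Perm.mul_apply,
      Equiv.swap_inv, Equiv.swap_apply_right, h0 x (Nat.zero_le _)] at h1
    have e1 : 𝒮.actX (gam h) x ≠ x := by
      intro h2; exact hz (congrArg Prod.fst h2)
    have e2 : 𝒮.actX (gam h) x ≠ w := by
      intro h2; exact hz (congrArg Prod.fst h2)
    rw [Equiv.swap_apply_of_ne_of_ne e1 e2, map_mul, map_mul, map_inv, hg2] at h1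
    have h3 := congrArg (fun v : 𝒮.X => v.2.2) h1
    simp [hx, hw] at h3
  · exact infinite_conjClass_of_not_inK h0

end Sys

section Factor

variable {G : Type} [Group G]

theorem conj_hat {z : L2 G →L[ℂ] L2 G} (hz : z ∈ (LG G).toStarSubalgebra)
    (hc : ∀ g : G, z * lam g = lam g * z) (s h : G) : hat z (s * h * s⁻¹) = hat z h := by
  have h1 := congrArg (fun T : L2 G →L[ℂ] L2 G => T (delta 1) (s * h)) (hc s)
  simp only [mul_apply_eq_comp, lam_delta, mul_one, lam_apply] at h1
  rw [apply_delta_apply hz] at h1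
  rw [h1, inv_mul_cancel_left]
  rfl

theorem isIIOneFactor_of_icc (hicc : ∀ h : G, h ≠ 1 → (Sys.conjClass h).Infinite)
    (hne : ∃ h : G, h ≠ 1) : IsIIOneFactor (LG G) (trG G) where
  factor := by
    intro z hz
    refine ⟨hat (z : L2 G →L[ℂ] L2 G) 1, ?_⟩
    have hc : ∀ g : G, (z : L2 G →L[ℂ] L2 G) * lam g = lam g * (z : L2 G →L[ℂ] L2 G) := by
      intro g
      exact congrArg Subtype.val (hz (lamN g))
    apply Subtype.ext
    refine ext_of_hat z.2 ((hat (z : L2 G →L[ℂ] L2 G) 1 • (1 : Alg (LG G))).2) ?_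
    ext h
    have e1 : hat ((hat (z : L2 G →L[ℂ] L2 G) 1 • (1 : Alg (LG G)) : Alg (LG G)) :
        L2 G →L[ℂ] L2 G) h = hat (z : L2 G →L[ℂ] L2 G) 1 * delta 1 h := by
      change ((hat (z : L2 G →L[ℂ] L2 G) 1 • (1 : L2 G →L[ℂ] L2 G)) (delta 1)) h = _
      rw [smul_apply, one_apply_eq_self]
      rfl
    rw [e1]
    by_cases hh : h = 1
    · subst hh; simp
    · rw [delta_ne hh, mul_zero]
      by_contra hcon
      have hinf := hicc h hh
      have hsum := L2.summable (hat (z : L2 G →L[ℂ] L2 G))
      have hfin : {k | ‖hat (z : L2 G →L[ℂ] L2 G) h‖ ^ 2 ≤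
          ‖hat (z : L2 G →L[ℂ] L2 G) k‖ ^ 2}.Finite := by
        have := hsum.tendsto_cofinite_zero
        have h2 := (tendsto_order.1 this).2 (‖hat (z : L2 G →L[ℂ] L2 G) h‖ ^ 2)
          (by have := norm_pos_iff.2 hcon; positivity)
        rw [Filter.eventually_cofinite] at h2
        simpa using h2
      apply hinf
      refine hfin.subset ?_
      rintro k ⟨s, rfl⟩
      simp only [Set.mem_ofPred_eq]
      rw [conj_hat z.2 hc]
  infinite := by
    intro hfd
    obtain ⟨h, hh⟩ := hne
    have hinf : Infinite G := by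
      have := (hicc h hh).to_subtype
      exact Infinite.of_injective (Subtype.val : Sys.conjClass h → G) Subtype.val_injective
    have hli : LinearIndependent ℂ (fun g : G => (lamN g : Alg (LG G))) := by
      let φ : Alg (LG G) →ₗ[ℂ] L2 G :=
        { toFun := fun T => (T : L2 G →L[ℂ] L2 G) (delta 1)
          map_add' := fun S T => rfl
          map_smul' := fun c T => rfl }
      refine LinearIndependent.of_comp φ ?_
      have h1 : (φ ∘ fun g : G => (lamN g : Alg (LG G))) = delta := by
        funext g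
        change lam g (delta 1) = delta g
        rw [lam_delta, mul_one]
      rw [h1]
      have h2 : Orthonormal ℂ (delta : G → L2 G) := by
        classical
        rw [orthonormal_iff_ite]
        intro i j
        rw [inner_delta_left, delta_apply]
      exact h2.linearIndependent
    exact hinf.not_finite (hli.finite)
  trace := isTrace_trG G

instance {G : Type} [Countable G] : TopologicalSpace.SeparableSpace (L2 G) := by
  classical
  let b : HilbertBasis G ℂ (L2 G) := default
  have hd := b.dense_span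
  have : TopologicalSpace.IsSeparable (Submodule.span ℂ (Set.range b) : Set (L2 G)) :=
    (Set.countable_range b).isSeparable.span
  rw [← TopologicalSpace.isSeparable_univ_iff]
  have h2 := this.closure
  have h3 : closure (Submodule.span ℂ (Set.range b) : Set (L2 G)) = Set.univ := by
    rw [← Submodule.topologicalClosure_coe, hd]; rfl
  rwa [h3] at h2

end Factor

end MP_e0ff90_an
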