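import Pool.Agent.MP_e0ff90_an.Ultra

/-!
# Weak limits along an ultrafilter, and the end of the proof of the criterion
-/

namespace MP_e0ff90_an

open Filter Topology
open scoped InnerProductSpace

/-- A bounded sequence of operators has a weak limit along an ultrafilter. -/
theorem exists_weak_limit {H : Type*} [NormedAddCommGroup H] [InnerProductSpace ℂ H]
    [CompleteSpace H] (𝓤 : Ultrafilter ℕ) (x : ℕ → H →L[ℂ] H) (C : ℝ)
    (hC : ∀ k, ‖x k‖ ≤ C) :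
    ∃ Z : H →L[ℂ] H, ∀ v w, Tendsto (fun k => ⟪x k v, w⟫_ℂ) 𝓤 (𝓝 ⟪Z v, w⟫_ℂ) := by
  have hC0 : 0 ≤ C := (norm_nonneg _).trans (hC 0)
  have hbd : ∀ v w k, ‖⟪x k v, w⟫_ℂ‖ ≤ C * ‖v‖ * ‖w‖ := by
    intro v w k
    refine (norm_inner_le_norm _ _).trans ?_
    gcongr
    exact ((x k).le_opNorm v).trans (by gcongr; exact hC k)
  have hex : ∀ v w, ∃ l : ℂ, ‖l‖ ≤ C * ‖v‖ * ‖w‖ ∧
      Tendsto (fun k => ⟪x k v, w⟫_ℂ) 𝓤 (𝓝 l) := by
    intro v w
    obtain ⟨l, hl, hl'⟩ := (isCompact_closedBall (0 : ℂ) (C * ‖v‖ * ‖w‖)).ultrafilter_le_nhds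
      (𝓤.map (fun k => ⟪x k v, w⟫_ℂ)) (by
        rw [Ultrafilter.coe_map, le_principal_iff, mem_map]
        refine Filter.Eventually.of_forall fun k => ?_
        simpa using hbd v w k)
    exact ⟨l, by simpa using hl, hl'⟩
  choose B hB1 hB2 using hex
  have huniq : ∀ {f : ℕ → ℂ} {a b : ℂ}, Tendsto f 𝓤 (𝓝 a) → Tendsto f 𝓤 (𝓝 b) → a = b :=
    fun h1 h2 => tendsto_nhds_unique h1 h2
  let L : H →ₗ⋆[ℂ] H →ₗ[ℂ] ℂ := LinearMap.mk₂'ₛₗ (starRingEnd ℂ) (RingHom.id ℂ) B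
    (by
      intro v₁ v₂ w
      refine huniq (hB2 _ _) ?_
      have := (hB2 v₁ w).add (hB2 v₂ w)
      simpa [inner_add_left] using this)
    (by
      intro c v w
      refine huniq (hB2 _ _) ?_
      have := (hB2 v w).const_mul ((starRingEnd ℂ) c)
      simpa [inner_smul_left, mul_comm] using this)
    (by
      intro v w₁ w₂
      refine huniq (hB2 _ _) ?_
      have := (hB2 v w₁).add (hB2 v w₂)
      simpa [inner_add_right] using this)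
    (by
      intro c v w
      refine huniq (hB2 _ _) ?_
      have := (hB2 v w).const_mul c
      simpa [inner_smul_right] using this)
  let L' : H →L⋆[ℂ] H →L[ℂ] ℂ := LinearMap.mkContinuous₂ L C (fun v w => hB1 v w)
  refine ⟨InnerProductSpace.continuousLinearMapOfBilin L', fun v w => ?_⟩
  rw [InnerProductSpace.continuousLinearMapOfBilin_apply]
  exact hB2 v w

variable {G : Type} [Group G]

theorem rho_adj (h : G) (v w : L2 G) : ⟪rho h v, w⟫_ℂ = ⟪v, rho h⁻¹ w⟫_ℂ := by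
  rw [← star_rho, ContinuousLinearMap.star_eq_adjoint, ContinuousLinearMap.adjoint_inner_right]

theorem weak_limit_mem (𝓤 : Ultrafilter ℕ) (x : ℕ → L2 G →L[ℂ] L2 G)
    (hx : ∀ k, x k ∈ (LG G).toStarSubalgebra) (Z : L2 G →L[ℂ] L2 G)
    (hZ : ∀ v w, Tendsto (fun k => ⟪x k v, w⟫_ℂ) 𝓤 (𝓝 ⟪Z v, w⟫_ℂ)) :
    Z ∈ (LG G).toStarSubalgebra := by
  rw [mem_LG_iff]
  intro h
  refine ContinuousLinearMap.ext fun v => ?_
  refine ext_inner_right ℂ fun w => ?_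
  rw [mul_apply_eq_comp, mul_apply_eq_comp, rho_adj]
  refine tendsto_nhds_unique (hZ v (rho h⁻¹ w)) ?_
  refine (hZ (rho h v) w).congr fun k => ?_
  have := congrArg (fun S : L2 G →L[ℂ] L2 G => S v) ((mem_LG_iff _).1 (hx k) h)
  simp only [mul_apply_eq_comp] at this
  rw [← this, rho_adj]

theorem weak_limit_hat (𝓤 : Ultrafilter ℕ) (x : ℕ → L2 G →L[ℂ] L2 G)
    (Z : L2 G →L[ℂ] L2 G)
    (hZ : ∀ v w, Tendsto (fun k => ⟪x k v, w⟫_ℂ) 𝓤 (𝓝 ⟪Z v, w⟫_ℂ)) (g : G) :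
    Tendsto (fun k => hat (x k) g) 𝓤 (𝓝 (hat Z g)) := by
  have := (Complex.continuous_conj.tendsto _).comp (hZ (delta 1) (delta g))
  refine (this.congr fun k => ?_).trans_eq ?_
  · simp only [Function.comp]
    rw [inner_conj_symm, inner_delta_left]; rfl
  · rw [inner_conj_symm, inner_delta_left]; rfl

/-- The criterion. -/
theorem bicommutant_eq_of_good [Countable G] (hG : Good G) (𝓤 : Ultrafilter ℕ)
    (h𝓤 : (𝓤 : Filter ℕ) ≤ cofinite) :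
    bicommutant (isTrace_trG G) 𝓤 = diagRange (isTrace_trG G) 𝓤 := by
  classical
  refine Set.Subset.antisymm ?_ Set.subset_centralizer_centralizer
  intro X hX
  obtain ⟨x, rfl⟩ := Ideal.Quotient.mk_surjective X
  obtain ⟨C, hC⟩ := x.2
  obtain ⟨Z, hZ⟩ := exists_weak_limit 𝓤 (fun k => (x.1 k : L2 G →L[ℂ] L2 G)) C hC
  have hZmem : Z ∈ (LG G).toStarSubalgebra :=
    weak_limit_mem 𝓤 _ (fun k => (x.1 k).2) Z hZ
  have hZhat := weak_limit_hat 𝓤 _ Z hZ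
  refine ⟨⟨Z, hZmem⟩, ?_⟩
  symm
  rw [diag, Ideal.Quotient.eq, mem_nullIdeal]
  have key : ∀ k, nsq (trG G) ((x - constSeq ⟨Z, hZmem⟩ : boundedSeq (LG G)).1 k) =
      ‖hat (x.1 k : L2 G →L[ℂ] L2 G) - hat Z‖ ^ 2 := by
    intro k; rw [nsq_trG, ← hat_sub]; rfl
  simp only [key]
  -- tightness
  have tight : ∀ ε : ℝ, 0 < ε → ∃ S : Finset G, ∀ᶠ k in (𝓤 : Filter ℕ), ∀ K : Finset G,
      Disjoint K S → ∑ h ∈ K, ‖hat (x.1 k : L2 G →L[ℂ] L2 G) h‖ ^ 2 ≤ ε := by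
    intro ε hε
    obtain ⟨F, δ, hδ, hF⟩ := exists_control 𝓤 h𝓤 x hX (Real.sqrt (ε / 100))
      (Real.sqrt_pos.2 (by positivity))
    obtain ⟨S, hS⟩ := hG F δ hδ
    refine ⟨S, hF.mono fun k hk K hK => ?_⟩
    have := hS _ (x.1 k).2 (Real.sqrt (ε / 100)) (Real.sqrt_nonneg _) hk K hK
    rw [Real.sq_sqrt (by positivity)] at this
    linarith
  rw [Metric.tendsto_nhds]
  intro η hη
  obtain ⟨S, hS⟩ := tight (η / 16) (by positivity)
  have hZK : ∀ K : Finset G, Disjoint K S → ∑ h ∈ K, ‖hat Z h‖ ^ 2 ≤ η / 16 := by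
    intro K hK
    have h1 : Tendsto (fun k => ∑ h ∈ K, ‖hat (x.1 k : L2 G →L[ℂ] L2 G) h‖ ^ 2) 𝓤
        (𝓝 (∑ h ∈ K, ‖hat Z h‖ ^ 2)) :=
      tendsto_finsetSum K fun h _ => (hZhat h).norm.pow 2
    exact le_of_tendsto h1 (hS.mono fun k hk => hk K hK)
  have hSfin : Tendsto (fun k => ∑ h ∈ S, ‖hat (x.1 k : L2 G →L[ℂ] L2 G) h - hat Z h‖ ^ 2) 𝓤
      (𝓝 0) := by
    have : Tendsto (fun k => ∑ h ∈ S, ‖hat (x.1 k : L2 G →L[ℂ] L2 G) h - hat Z h‖ ^ 2) 𝓤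
        (𝓝 (∑ h ∈ S, ‖hat Z h - hat Z h‖ ^ 2)) :=
      tendsto_finsetSum S fun h _ => ((hZhat h).sub_const _).norm.pow 2
    simpa using this
  filter_upwards [hS, (tendsto_order.1 hSfin).2 (η / 4) (by positivity)] with k hk1 hk2
  rw [Real.dist_eq, sub_zero, abs_of_nonneg (by positivity)]
  refine lt_of_le_of_lt (L2.norm_sq_le_of_sum_le (c := η / 2) _ fun s => ?_) (by linarith)
  rw [← Finset.sum_inter_add_sum_sdiff s S]
  have e1 : ∑ h ∈ s ∩ S, ‖(hat (x.1 k : L2 G →L[ℂ] L2 G) - hat Z) h‖ ^ 2 ≤ η / 4 := by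
    refine le_trans ?_ hk2.le
    refine Finset.sum_le_sum_of_subset_of_nonneg Finset.inter_subset_right
      fun _ _ _ => by positivity
  have e2 : ∑ h ∈ s \ S, ‖(hat (x.1 k : L2 G →L[ℂ] L2 G) - hat Z) h‖ ^ 2 ≤ η / 4 := by
    have hd : Disjoint (s \ S) S := Finset.sdiff_disjoint
    have a1 := hk1 _ hd
    have a2 := hZK _ hd
    calc _ ≤ ∑ h ∈ s \ S, (2 * ‖hat (x.1 k : L2 G →L[ℂ] L2 G) h‖ ^ 2 + 2 * ‖hat Z h‖ ^ 2) := by
          refine Finset.sum_le_sum fun h _ => ?_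
          have := norm_sub_le (hat (x.1 k : L2 G →L[ℂ] L2 G) h) (hat Z h)
          rw [lp.coeFn_sub, Pi.sub_apply]
          nlinarith [norm_nonneg (hat (x.1 k : L2 G →L[ℂ] L2 G) h - hat Z h),
            norm_nonneg (hat (x.1 k : L2 G →L[ℂ] L2 G) h), norm_nonneg (hat Z h),
            sq_nonneg (‖hat (x.1 k : L2 G →L[ℂ] L2 G) h‖ - ‖hat Z h‖)]
      _ ≤ η / 4 := by
          rw [Finset.sum_add_distrib, ← Finset.mul_sum, ← Finset.mul_sum]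
          linarith
  linarith

end MP_e0ff90_an
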