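import Pool.Agent.MP_e0ff90_an.Sys

/-!
# Swaps and translations in the group `G`
-/

namespace MP_e0ff90_an

/-- Exchange of the copies `[0,N)` and `[N,2N)`, for points of index at least `n`. -/
def swapFn (n N l i : ℕ) : ℕ :=
  if l < N ∧ n ≤ max l i ∧ i < N then i + N
  else if l < N ∧ N ≤ i ∧ i < 2 * N ∧ n ≤ max l (i - N) then i - N
  else i

theorem swapFn_invol (n N l : ℕ) : Function.Involutive (swapFn n N l) := by
  intro i
  unfold swapFn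
  split_ifs <;> omega

namespace Sys

variable {Γ : Type} [Group Γ] (𝒮 : Sys Γ)

/-- Exchange of copies, as a permutation of `X`. -/
def swapX (n N : ℕ) : Equiv.Perm 𝒮.X :=
  Function.Involutive.toPerm (fun x => (x.1, x.2.1, swapFn n N (𝒮.level x.1) x.2.2)) (by
    rintro ⟨z, b, i⟩
    simp [swapFn_invol n N (𝒮.level z) i])

@[simp] theorem swapX_apply (n N : ℕ) (x : 𝒮.X) :
    𝒮.swapX n N x = (x.1, x.2.1, swapFn n N (𝒮.level x.1) x.2.2) := rfl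

/-- Exchange of copies as an element of `G`. -/
def swapG (n N : ℕ) : 𝒮.GG := ⟨(𝒮.swapX n N, 1), by
  refine (𝒮.finite_idx_lt (2 * N)).subset ?_
  rintro ⟨z, b, i⟩ hx
  simp only [Set.mem_ofPred_eq, map_one, Equiv.Perm.one_apply, idx] at hx ⊢
  by_contra hcon
  apply hx
  have : swapFn n N (𝒮.level z) i = i := by
    unfold swapFn
    split_ifs <;> omega
  simp [this]⟩

variable {𝒮}

theorem gam_swapG (n N : ℕ) : gam (𝒮.swapG n N) = 1 := rfl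

theorem perm_swapG (n N : ℕ) : perm (𝒮.swapG n N) = 𝒮.swapX n N := rfl

theorem swapX_actX (n N : ℕ) (g : Γ) (x : 𝒮.X) :
    𝒮.swapX n N (𝒮.actX g x) = 𝒮.actX g (𝒮.swapX n N x) := by
  simp [𝒮.level_smul]

theorem idx_swapX {n N : ℕ} (hnN : n ≤ N) {x : 𝒮.X} (hx : n ≤ 𝒮.idx x) :
    n ≤ 𝒮.idx (𝒮.swapX n N x) := by
  obtain ⟨z, b, i⟩ := x
  simp only [idx, swapX_apply] at hx ⊢
  unfold swapFn
  split_ifs <;> omega

theorem swapX_of_idx_lt {n N : ℕ} (hnN : n ≤ N) {x : 𝒮.X} (hx : 𝒮.idx x < n) :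
    𝒮.swapX n N x = x := by
  obtain ⟨z, b, i⟩ := x
  simp only [idx, swapX_apply] at hx ⊢
  have : swapFn n N (𝒮.level z) i = i := by
    unfold swapFn
    split_ifs <;> omega
  rw [this]

theorem idx_swapX_of_lt {n N : ℕ} {x : 𝒮.X} (hx : n ≤ 𝒮.idx x)
    (hx' : 𝒮.idx x < N) : N ≤ 𝒮.idx (𝒮.swapX n N x) := by
  obtain ⟨z, b, i⟩ := x
  simp only [idx, swapX_apply] at hx hx' ⊢
  unfold swapFn
  split_ifs <;> omega

/-- `swapG n N` commutes with `K_n`. -/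
theorem swapG_comm {n N : ℕ} (hnN : n ≤ N) {h : 𝒮.GG} (hh : InK n h) :
    𝒮.swapG n N * h = h * 𝒮.swapG n N := by
  refine ext_GG (fun x => ?_) ?_
  · rw [perm_mul, perm_mul, perm_swapG, Equiv.Perm.mul_apply, Equiv.Perm.mul_apply]
    by_cases hx : n ≤ 𝒮.idx x
    · rw [hh x hx, swapX_actX, hh _ (idx_swapX hnN hx)]
    · push Not at hx
      rw [swapX_of_idx_lt hnN hx, swapX_of_idx_lt hnN (hh.idx_lt hx)]
  · simp [gam_swapG]

/-- `swapG n N` conjugates `K_N \ K_n` off `K_N`. -/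
theorem swapG_conj {n N : ℕ} {h : 𝒮.GG} (hh : InK N h) (hh' : ¬ InK n h) :
    ¬ InK N (𝒮.swapG n N * h * (𝒮.swapG n N)⁻¹) := by
  unfold InK at hh'
  push Not at hh'
  obtain ⟨x, hx, hx'⟩ := hh'
  have hxN : 𝒮.idx x < N := by
    by_contra hcon
    push Not at hcon
    exact hx' (hh x hcon)
  intro hcon
  have h1 := hcon (𝒮.swapX n N x) (idx_swapX_of_lt hx hxN)
  rw [perm_mul, perm_mul, perm_inv, perm_swapG, Equiv.Perm.mul_apply, Equiv.Perm.mul_apply,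
    perm_inv_apply] at h1
  have h2 : gam (𝒮.swapG n N * h * (𝒮.swapG n N)⁻¹) = gam h := by
    simp [gam_swapG]
  rw [h2, ← swapX_actX] at h1
  exact hx' ((𝒮.swapX n N).injective h1)

/-- For a finite subset `F` of `G \ K_n` there is an `s` commuting with `K_n` which conjugates
`F` off itself and into the complement of `K_n`. -/
theorem exists_move (n : ℕ) (F : Finset 𝒮.GG) (hF : ∀ h ∈ F, ¬ InK n h) :
    ∃ s : 𝒮.GG, (∀ h, InK n h → s * h = h * s) ∧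
      ∀ h ∈ F, s * h * s⁻¹ ∉ F ∧ ¬ InK n (s * h * s⁻¹) := by
  obtain ⟨N₀, hN₀⟩ := exists_inK_finset F
  set N := max n N₀ with hN
  have hN' : ∀ h ∈ F, InK N h := fun h hh => (hN₀ h hh).mono (le_max_right _ _)
  have hnN : n ≤ N := le_max_left _ _
  refine ⟨𝒮.swapG n N, fun h hh => swapG_comm hnN hh, fun h hh => ?_⟩
  have h1 := swapG_conj (hN' h hh) (hF h hh)
  exact ⟨fun h2 => h1 (hN' _ h2), fun h2 => h1 (h2.mono hnN)⟩

/-! ### Translations -/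

variable (𝒮) in
/-- The points of level `m`. -/
abbrev Y (m : ℕ) : Type := {z : 𝒮.Z // 𝒮.level z = m}

instance (m : ℕ) : Finite (𝒮.Y m) := (𝒮.finite_level m).to_subtype

variable (𝒮) in
/-- The action of `Γ` on the points of level `m`. -/
def actY (m : ℕ) : Γ →* Equiv.Perm (𝒮.Y m) where
  toFun g :=
    { toFun := fun y => ⟨g • y.1, by rw [𝒮.level_smul]; exact y.2⟩
      invFun := fun y => ⟨g⁻¹ • y.1, by rw [𝒮.level_smul]; exact y.2⟩
      left_inv := fun y => by simp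
      right_inv := fun y => by simp }
  map_one' := by ext y; simp
  map_mul' g h := by ext y; simp [mul_smul]

@[simp] theorem coe_actY (m : ℕ) (g : Γ) (y : 𝒮.Y m) : ((𝒮.actY m g y : 𝒮.Y m) : 𝒮.Z) = g • y.1 :=
  rfl

/-- Extension by zero. -/
def ext0 {m : ℕ} (A : 𝒮.Y m → ZMod 2) (z : 𝒮.Z) : ZMod 2 :=
  if h : 𝒮.level z = m then A ⟨z, h⟩ else 0

theorem ext0_add {m : ℕ} (A B : 𝒮.Y m → ZMod 2) (z : 𝒮.Z) :
    ext0 (A + B) z = ext0 A z + ext0 B z := by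
  unfold ext0; split_ifs <;> simp

theorem ext0_coe {m : ℕ} (A : 𝒮.Y m → ZMod 2) (y : 𝒮.Y m) : ext0 A y.1 = A y := by
  unfold ext0; rw [dif_pos y.2]

theorem ext0_smul {m : ℕ} (A : 𝒮.Y m → ZMod 2) (g : Γ) (z : 𝒮.Z) :
    ext0 (fun y => A ((𝒮.actY m g)⁻¹ y)) (g • z) = ext0 A z := by
  unfold ext0
  by_cases h : 𝒮.level z = m
  · have h' : 𝒮.level (g • z) = m := by rw [𝒮.level_smul]; exact h
    rw [dif_pos h, dif_pos h']
    have h2 : (𝒮.actY m g)⁻¹ ⟨g • z, h'⟩ = ⟨z, h⟩ := by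
      rw [Equiv.Perm.inv_eq_iff_eq]
      rfl
    change A ((𝒮.actY m g)⁻¹ ⟨g • z, h'⟩) = _
    rw [h2]
  · have h' : ¬ 𝒮.level (g • z) = m := by rw [𝒮.level_smul]; exact h
    rw [dif_neg h, dif_neg h']

variable (𝒮) in
/-- Translation by `A` in the copy `i₀`. -/
def transX (i₀ : ℕ) (A : 𝒮.Z → ZMod 2) : Equiv.Perm 𝒮.X where
  toFun x := (x.1, x.2.1 + (if x.2.2 = i₀ then A x.1 else 0), x.2.2)
  invFun x := (x.1, x.2.1 - (if x.2.2 = i₀ then A x.1 else 0), x.2.2)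
  left_inv x := by simp
  right_inv x := by simp

@[simp] theorem transX_apply (i₀ : ℕ) (A : 𝒮.Z → ZMod 2) (x : 𝒮.X) :
    𝒮.transX i₀ A x = (x.1, x.2.1 + (if x.2.2 = i₀ then A x.1 else 0), x.2.2) := rfl

variable (𝒮) in
/-- Translations as elements of `G`. -/
def tG (m i₀ : ℕ) (A : 𝒮.Y m → ZMod 2) : 𝒮.GG := ⟨(𝒮.transX i₀ (ext0 A), 1), by
  refine (𝒮.finite_idx_lt (max m i₀ + 1)).subset ?_
  rintro ⟨z, b, i⟩ hx
  simp only [Set.mem_ofPred_eq, map_one, Equiv.Perm.one_apply, idx] at hx ⊢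
  by_contra hcon
  apply hx
  have : (if i = i₀ then ext0 A z else 0) = 0 := by
    split_ifs with h
    · unfold ext0
      rw [dif_neg]
      intro h'
      omega
    · rfl
  simp [this]⟩

theorem gam_tG (m i₀ : ℕ) (A : 𝒮.Y m → ZMod 2) : gam (𝒮.tG m i₀ A) = 1 := rfl

theorem perm_tG (m i₀ : ℕ) (A : 𝒮.Y m → ZMod 2) :
    perm (𝒮.tG m i₀ A) = 𝒮.transX i₀ (ext0 A) := rfl

theorem tG_add (m i₀ : ℕ) (A B : 𝒮.Y m → ZMod 2) :
    𝒮.tG m i₀ (A + B) = 𝒮.tG m i₀ A * 𝒮.tG m i₀ B := by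
  refine ext_GG (fun x => ?_) (by simp [gam_tG])
  rw [perm_mul, perm_tG, perm_tG, perm_tG, Equiv.Perm.mul_apply]
  simp only [transX_apply, ext0_add]
  split_ifs
  · simp only [Prod.mk.injEq, true_and, and_true]; ring
  · simp

theorem tG_zero (m i₀ : ℕ) : 𝒮.tG m i₀ 0 = 1 := by
  refine ext_GG (fun x => ?_) (by simp [gam_tG])
  rw [perm_tG]
  have : ext0 (0 : 𝒮.Y m → ZMod 2) x.1 = 0 := by unfold ext0; split_ifs <;> rfl
  simp only [transX_apply, this, ite_self, add_zero]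
  rfl

theorem transX_of_idx_lt {n i₀ : ℕ} (hn : n ≤ i₀) (A : 𝒮.Z → ZMod 2) {x : 𝒮.X}
    (hx : 𝒮.idx x < n) : 𝒮.transX i₀ A x = x := by
  obtain ⟨z, b, i⟩ := x
  simp only [idx, transX_apply] at hx ⊢
  rw [if_neg (by omega)]
  simp

/-- Conjugation of a translation by an element of `K_n`. -/
theorem inK_mul_tG {n i₀ : ℕ} (hn : n ≤ i₀) (m : ℕ) (A : 𝒮.Y m → ZMod 2) {h : 𝒮.GG}
    (hh : InK n h) :
    h * 𝒮.tG m i₀ A = 𝒮.tG m i₀ (fun y => A ((𝒮.actY m (gam h))⁻¹ y)) * h := by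
  refine ext_GG (fun x => ?_) (by simp [gam_tG])
  rw [perm_mul, perm_mul, perm_tG, perm_tG, Equiv.Perm.mul_apply, Equiv.Perm.mul_apply]
  by_cases hx : n ≤ 𝒮.idx x
  · have hx' : n ≤ 𝒮.idx (𝒮.transX i₀ (ext0 A) x) := hx
    rw [hh _ hx', hh _ hx]
    simp only [actX_apply, transX_apply, ext0_smul]
  · push Not at hx
    rw [transX_of_idx_lt hn _ hx, transX_of_idx_lt hn _ (hh.idx_lt hx)]

theorem eq_zero_of_inK {n i₀ : ℕ} (hn : n ≤ i₀) {m : ℕ} {A : 𝒮.Y m → ZMod 2} {h : 𝒮.GG}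
    (hh : InK n h) (hh' : InK n (𝒮.tG m i₀ A * h)) : A = 0 := by
  funext y
  obtain ⟨y', rfl⟩ := (𝒮.actY m (gam h)).surjective y
  set x : 𝒮.X := (y'.1, 0, i₀) with hx
  have hidx : n ≤ 𝒮.idx x := hn.trans (le_max_right _ _)
  have h1 := hh' x hidx
  rw [perm_mul, Equiv.Perm.mul_apply, hh x hidx, perm_tG] at h1
  have h2 : gam (𝒮.tG m i₀ A * h) = gam h := by simp [gam_tG]
  rw [h2] at h1
  simp only [hx, actX_apply, transX_apply, if_true] at h1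
  have h3 := congrArg (fun w : 𝒮.X => w.2.1) h1
  simp only [zero_add] at h3
  rw [← coe_actY, ext0_coe] at h3
  exact h3

theorem tG_mul_inj {n i₀ : ℕ} (hn : n ≤ i₀) {m : ℕ} {A B : 𝒮.Y m → ZMod 2} {h k : 𝒮.GG}
    (hh : InK n h) (hk : InK n k) (heq : 𝒮.tG m i₀ A * h = 𝒮.tG m i₀ B * k) :
    A = B ∧ h = k := by
  have h1 : 𝒮.tG m i₀ (A - B) * h = k := by
    have : 𝒮.tG m i₀ (A - B) = (𝒮.tG m i₀ B)⁻¹ * 𝒮.tG m i₀ A := by
      rw [eq_inv_mul_iff_mul_eq, ← tG_add]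
      congr 1
      abel
    rw [this, mul_assoc, heq, inv_mul_cancel_left]
  have h2 : A - B = 0 := eq_zero_of_inK hn hh (by rw [h1]; exact hk)
  rw [sub_eq_zero] at h2
  refine ⟨h2, ?_⟩
  rw [← h1, h2, sub_self, tG_zero, one_mul]

end Sys

end MP_e0ff90_an
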