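import Pool.Agent.MP_e0ff90_an.Tail

/-!
# Special elements: products of commuting unitaries
-/

namespace MP_e0ff90_an

open scoped InnerProductSpace ComplexConjugate

section Expand

variable {E : Type} [AddCommGroup E] [Fintype E] [DecidableEq E]
  {H : Type*} [NormedAddCommGroup H] [InnerProductSpace ℂ H]

theorem norm_sum_smul_apply (V : E → H →L[ℂ] H) (hV : ∀ A B v, V (A + B) v = V A (V B v))
    (hV0 : ∀ v, V 0 v = v) (hVadj : ∀ A v w, ⟪V A v, w⟫_ℂ = ⟪v, V (-A) w⟫_ℂ)
    (c : E → ℂ) (hc : ∀ C, ∑ A, conj (c A) * c (A + C) = if C = 0 then 1 else 0) (v : H) :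
    ‖∑ A, c A • V A v‖ = ‖v‖ := by
  have h1 : ⟪∑ A, c A • V A v, ∑ A, c A • V A v⟫_ℂ = ⟪v, v⟫_ℂ := by
    calc ⟪∑ A, c A • V A v, ∑ B, c B • V B v⟫_ℂ
        = ∑ A, ∑ B, conj (c A) * c B * ⟪V A v, V B v⟫_ℂ := by
          rw [sum_inner]
          refine Finset.sum_congr rfl fun A _ => ?_
          rw [inner_sum]
          refine Finset.sum_congr rfl fun B _ => ?_
          rw [inner_smul_left, inner_smul_right, mul_assoc]
      _ = ∑ A, ∑ C, conj (c A) * c (A + C) * ⟪v, V C v⟫_ℂ := by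
          refine Finset.sum_congr rfl fun A _ => ?_
          rw [← Equiv.sum_comp (Equiv.addLeft A)]
          refine Finset.sum_congr rfl fun C _ => ?_
          rw [Equiv.coe_addLeft, hVadj, ← hV, neg_add_cancel_left]
      _ = ∑ C, (∑ A, conj (c A) * c (A + C)) * ⟪v, V C v⟫_ℂ := by
          rw [Finset.sum_comm]
          refine Finset.sum_congr rfl fun C _ => ?_
          rw [Finset.sum_mul]
      _ = ⟪v, v⟫_ℂ := by
          simp only [hc]
          simp [hV0]
  rw [inner_self_eq_norm_sq_to_K, inner_self_eq_norm_sq_to_K] at h1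
  have h2 : ‖∑ A, c A • V A v‖ ^ 2 = ‖v‖ ^ 2 := by exact_mod_cast h1
  exact (sq_eq_sq₀ (norm_nonneg _) (norm_nonneg _)).1 h2

end Expand

section Coeff

variable {Y : Type} [Fintype Y] [DecidableEq Y]

theorem sum_prod_zmod (F : Y → ZMod 2 → ℂ) :
    ∑ A : Y → ZMod 2, ∏ y, F y (A y) = ∏ y, (F y 0 + F y 1) := by
  have h := Finset.prod_univ_sum (fun _ : Y => (Finset.univ : Finset (ZMod 2))) F
  rw [Fintype.piFinset_univ] at h
  rw [← h]
  refine Finset.prod_congr rfl fun y _ => ?_
  exact Fin.sum_univ_two (F y)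

/-- The sign of a boolean. -/
def sgn (b : Bool) : ℝ := if b then 1 else -1

theorem sgn_mul (a b : Bool) : sgn a * sgn b = if a = b then 1 else -1 := by
  cases a <;> cases b <;> simp [sgn]

theorem sgn_sq (a : Bool) : sgn a ^ 2 = 1 := by
  cases a <;> simp [sgn]

/-- The coefficients of one factor. -/
noncomputable def kap (C S : ℝ) (a : Bool) (b : ZMod 2) : ℂ :=
  if b = 0 then (C : ℂ) else Complex.I * (sgn a * S : ℝ)

/-- The coefficients of the product. -/
noncomputable def coef (C S : ℝ) (f : Y → Bool) (A : Y → ZMod 2) : ℂ := ∏ y, kap C S (f y) (A y)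

theorem kap_zero (C S : ℝ) (a : Bool) : kap C S a 0 = C := by simp [kap]

theorem kap_one (C S : ℝ) (a : Bool) : kap C S a 1 = Complex.I * (sgn a * S : ℝ) := by simp [kap]

theorem coef_conv {C S : ℝ} (hCS : C ^ 2 + S ^ 2 = 1) (f : Y → Bool) (D : Y → ZMod 2) :
    ∑ A : Y → ZMod 2, conj (coef C S f A) * coef C S f (A + D) = if D = 0 then 1 else 0 := by
  have h1 : ∀ A : Y → ZMod 2, conj (coef C S f A) * coef C S f (A + D) =
      ∏ y, (conj (kap C S (f y) (A y)) * kap C S (f y) (A y + D y)) := by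
    intro A
    rw [coef, coef, map_prod, ← Finset.prod_mul_distrib]
    rfl
  simp only [h1]
  rw [sum_prod_zmod (fun y b => conj (kap C S (f y) b) * kap C S (f y) (b + D y))]
  have h2 : ∀ y, (conj (kap C S (f y) 0) * kap C S (f y) (0 + D y) +
      conj (kap C S (f y) 1) * kap C S (f y) (1 + D y)) = if D y = 0 then 1 else 0 := by
    intro y
    have hD : D y = 0 ∨ D y = 1 := by
      generalize D y = d
      fin_cases d
      · left; rfl
      · right; rfl
    have hs := sgn_sq (f y)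
    rcases hD with h | h
    · rw [h, zero_add, add_zero, kap_zero, kap_one, if_pos rfl]
      simp only [map_mul, Complex.conj_I, Complex.conj_ofReal]
      rw [← Complex.ofReal_mul]
      have : -Complex.I * ((sgn (f y) * S : ℝ) : ℂ) * (Complex.I * ((sgn (f y) * S : ℝ) : ℂ)) =
          (((sgn (f y) ^ 2 * S ^ 2 : ℝ)) : ℂ) := by
        push_cast
        linear_combination (-(sgn (f y) : ℂ) ^ 2 * (S : ℂ) ^ 2) * Complex.I_sq
      rw [this, hs, ← Complex.ofReal_add, ← Complex.ofReal_one]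
      congr 1
      linarith
    · rw [h, zero_add, if_neg (by decide), show (1 : ZMod 2) + 1 = 0 by decide, kap_zero, kap_one]
      simp only [map_mul, Complex.conj_I, Complex.conj_ofReal]
      ring
  simp only [h2]
  by_cases hD : D = 0
  · subst hD; simp
  · rw [if_neg hD]
    obtain ⟨y, hy⟩ := Function.ne_iff.1 hD
    exact Finset.prod_eq_zero (Finset.mem_univ y) (if_neg hy)

theorem coef_norm_sq {C S : ℝ} (hCS : C ^ 2 + S ^ 2 = 1) (f : Y → Bool) :
    ∑ A : Y → ZMod 2, ‖coef C S f A‖ ^ 2 = 1 := by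
  have h := coef_conv hCS f 0
  simp only [add_zero, if_true] at h
  have h2 : ((∑ A : Y → ZMod 2, ‖coef C S f A‖ ^ 2 : ℝ) : ℂ) = 1 := by
    rw [← h]
    push_cast
    refine Finset.sum_congr rfl fun A _ => ?_
    rw [Complex.conj_mul']
  exact_mod_cast h2

theorem coef_comp_perm (C S : ℝ) (f : Y → Bool) (σ : Equiv.Perm Y) (A : Y → ZMod 2) :
    coef C S f (A ∘ σ) = coef C S (f ∘ σ.symm) A := by
  rw [coef, coef, ← Equiv.prod_comp σ (fun y => kap C S ((f ∘ σ.symm) y) (A y))]
  refine Finset.prod_congr rfl fun y _ => ?_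
  simp

theorem coef_cross {C S : ℝ} (hCS : C ^ 2 + S ^ 2 = 1) (f f' : Y → Bool) :
    ∑ A : Y → ZMod 2, conj (coef C S f A) * coef C S f' A =
      ((C ^ 2 - S ^ 2 : ℝ) : ℂ) ^ (Finset.univ.filter (fun y => f y ≠ f' y)).card := by
  have h1 : ∀ A : Y → ZMod 2, conj (coef C S f A) * coef C S f' A =
      ∏ y, (conj (kap C S (f y) (A y)) * kap C S (f' y) (A y)) := by
    intro A
    rw [coef, coef, map_prod, ← Finset.prod_mul_distrib]
  simp only [h1]
  rw [sum_prod_zmod (fun y b => conj (kap C S (f y) b) * kap C S (f' y) b)]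
  have h2 : ∀ y, (conj (kap C S (f y) 0) * kap C S (f' y) 0 +
      conj (kap C S (f y) 1) * kap C S (f' y) 1) =
      if f y ≠ f' y then ((C ^ 2 - S ^ 2 : ℝ) : ℂ) else 1 := by
    intro y
    rw [kap_zero, kap_zero, kap_one, kap_one]
    simp only [map_mul, Complex.conj_I, Complex.conj_ofReal]
    have : -Complex.I * ((sgn (f y) * S : ℝ) : ℂ) * (Complex.I * ((sgn (f' y) * S : ℝ) : ℂ)) =
        (((sgn (f y) * sgn (f' y) * S ^ 2 : ℝ)) : ℂ) := by
      push_cast
      linear_combination (-(sgn (f y) : ℂ) * (sgn (f' y) : ℂ) * (S : ℂ) ^ 2) * Complex.I_sq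
    rw [this, sgn_mul]
    by_cases h3 : f y = f' y
    · rw [if_pos h3, if_neg (not_not.2 h3), ← Complex.ofReal_mul, ← Complex.ofReal_add,
        ← Complex.ofReal_one]
      congr 1
      linarith
    · rw [if_neg h3, if_pos h3, ← Complex.ofReal_mul, ← Complex.ofReal_add]
      congr 1
      linarith
  simp only [h2]
  rw [Finset.prod_ite, Finset.prod_const_one, mul_one, Finset.prod_const]

theorem coef_diff {C S : ℝ} (hCS : C ^ 2 + S ^ 2 = 1) (f : Y → Bool) (σ : Equiv.Perm Y) :
    ∑ A : Y → ZMod 2, ‖coef C S f A - coef C S f (A ∘ σ)‖ ^ 2 =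
      2 - 2 * (C ^ 2 - S ^ 2) ^ (Finset.univ.filter (fun y => f (σ y) ≠ f y)).card := by
  simp only [coef_comp_perm]
  have h1 : ∀ A : Y → ZMod 2, ‖coef C S f A - coef C S (f ∘ σ.symm) A‖ ^ 2 =
      ‖coef C S f A‖ ^ 2 + ‖coef C S (f ∘ σ.symm) A‖ ^ 2 -
        2 * (conj (coef C S f A) * coef C S (f ∘ σ.symm) A).re := by
    intro A
    rw [← Complex.normSq_eq_norm_sq, ← Complex.normSq_eq_norm_sq, ← Complex.normSq_eq_norm_sq,
      Complex.normSq_sub]
    congr 2
    rw [← Complex.conj_re]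
    simp
  simp only [h1]
  rw [Finset.sum_sub_distrib, Finset.sum_add_distrib, coef_norm_sq hCS, coef_norm_sq hCS,
    ← Finset.mul_sum, ← Complex.re_sum, coef_cross hCS, ← Complex.ofReal_pow, Complex.ofReal_re]
  have h2 : (Finset.univ.filter (fun y => f y ≠ (f ∘ σ.symm) y)).card =
      (Finset.univ.filter (fun y => f (σ y) ≠ f y)).card := by
    refine (Finset.card_bij (fun y _ => σ y) ?_ ?_ ?_).symm
    · intro y hy
      simpa using hy
    · intro a _ b _ hab
      exact σ.injective hab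
    · intro y hy
      refine ⟨σ.symm y, ?_, by simp⟩
      simpa using hy
  rw [h2]
  ring

end Coeff

end MP_e0ff90_an
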