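import Pool.Agent.MP_e0ff90_an.Special

/-!
# The group `G` is good
-/

namespace MP_e0ff90_an

open scoped InnerProductSpace ComplexConjugate

theorem norm_sq_sum_delta {X : Type*} {E : Type*} [Fintype E] (a : E → ℂ) (p : E → X)
    (hp : Function.Injective p) : ‖∑ A, a A • delta (p A)‖ ^ 2 = ∑ A, ‖a A‖ ^ 2 := by
  classical
  have ho : Orthonormal ℂ (fun A => delta (p A) : E → L2 X) := by
    rw [orthonormal_iff_ite]
    intro i j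
    rw [inner_delta_left, delta_apply]
    by_cases h : i = j
    · subst h; simp
    · rw [if_neg h, if_neg (fun h' => h (hp h'))]
  have h1 := ho.inner_sum a a Finset.univ
  rw [inner_self_eq_norm_sq_to_K] at h1
  have h2 : ((‖∑ A, a A • delta (p A)‖ ^ 2 : ℝ) : ℂ) = ((∑ A, ‖a A‖ ^ 2 : ℝ) : ℂ) := by
    push_cast
    rw [show ((‖∑ A, a A • delta (p A)‖ : ℝ) : ℂ) ^ 2 =
      (RCLike.ofReal ‖∑ A, a A • delta (p A)‖ : ℂ) ^ 2 from rfl, h1]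
    refine Finset.sum_congr rfl fun A _ => ?_
    rw [Complex.conj_mul']
  exact_mod_cast h2

theorem rho_adj' {G : Type} [Group G] (h : G) (v w : L2 G) :
    ⟪rho h v, w⟫_ℂ = ⟪v, rho h⁻¹ w⟫_ℂ := by
  rw [← star_rho, ContinuousLinearMap.star_eq_adjoint, ContinuousLinearMap.adjoint_inner_right]

namespace Sys

variable {Γ : Type} [Group Γ] {𝒮 : Sys Γ} {m i₀ : ℕ} [Fintype (𝒮.Y m)] [DecidableEq (𝒮.Y m)]

variable (i₀) in
/-- `∑_A c_A λ(t_A)`. -/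
noncomputable def uOp (c : (𝒮.Y m → ZMod 2) → ℂ) : L2 𝒮.GG →L[ℂ] L2 𝒮.GG :=
  ∑ A, c A • lam (𝒮.tG m i₀ A)

variable (i₀) in
/-- `∑_A c_A ρ(t_A⁻¹)`. -/
noncomputable def rOp (c : (𝒮.Y m → ZMod 2) → ℂ) : L2 𝒮.GG →L[ℂ] L2 𝒮.GG :=
  ∑ A, c A • rho (𝒮.tG m i₀ A)⁻¹

omit [Fintype (𝒮.Y m)] [DecidableEq (𝒮.Y m)] in
theorem tG_neg (A : 𝒮.Y m → ZMod 2) : 𝒮.tG m i₀ (-A) = (𝒮.tG m i₀ A)⁻¹ := by
  rw [eq_inv_iff_mul_eq_one, ← tG_add, neg_add_cancel, tG_zero]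

theorem uOp_mem (c : (𝒮.Y m → ZMod 2) → ℂ) : uOp i₀ c ∈ (LG 𝒮.GG).toStarSubalgebra :=
  sum_mem fun _ _ => (LG 𝒮.GG).toStarSubalgebra.smul_mem (lam_mem _) _

theorem uOp_apply (c : (𝒮.Y m → ZMod 2) → ℂ) (ξ : L2 𝒮.GG) :
    uOp i₀ c ξ = ∑ A, c A • lam (𝒮.tG m i₀ A) ξ := by
  rw [uOp, sum_apply]
  rfl

theorem rOp_apply (c : (𝒮.Y m → ZMod 2) → ℂ) (ξ : L2 𝒮.GG) :
    rOp i₀ c ξ = ∑ A, c A • rho (𝒮.tG m i₀ A)⁻¹ ξ := by
  rw [rOp, sum_apply]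
  rfl

theorem norm_uOp_apply (c : (𝒮.Y m → ZMod 2) → ℂ)
    (hc : ∀ C, ∑ A, conj (c A) * c (A + C) = if C = 0 then 1 else 0) (ξ : L2 𝒮.GG) :
    ‖uOp i₀ c ξ‖ = ‖ξ‖ := by
  rw [uOp_apply]
  refine norm_sum_smul_apply (fun A => lam (𝒮.tG m i₀ A)) ?_ ?_ ?_ c hc ξ
  · intro A B v
    simp only [tG_add, lam_mul]
    rfl
  · intro v
    simp only [tG_zero, lam_one]
    rfl
  · intro A v w
    simp only [tG_neg]
    rw [← star_lam, ContinuousLinearMap.star_eq_adjoint, ContinuousLinearMap.adjoint_inner_right]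

theorem norm_rOp_apply (c : (𝒮.Y m → ZMod 2) → ℂ)
    (hc : ∀ C, ∑ A, conj (c A) * c (A + C) = if C = 0 then 1 else 0) (ξ : L2 𝒮.GG) :
    ‖rOp i₀ c ξ‖ = ‖ξ‖ := by
  rw [rOp_apply]
  refine norm_sum_smul_apply (fun A => rho (𝒮.tG m i₀ A)⁻¹) ?_ ?_ ?_ c hc ξ
  · intro A B v
    rw [add_comm, tG_add, mul_inv_rev, rho_mul]
    rfl
  · intro v
    simp only [tG_zero, inv_one, rho_one]
    rfl
  · intro A v w
    simp only [tG_neg]
    rw [rho_adj']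

theorem hat_mul_uOp (c : (𝒮.Y m → ZMod 2) → ℂ) {T : L2 𝒮.GG →L[ℂ] L2 𝒮.GG}
    (hT : T ∈ (LG 𝒮.GG).toStarSubalgebra) : hat (T * uOp i₀ c) = rOp i₀ c (hat T) := by
  rw [rOp_apply, hat, mul_apply_eq_comp, uOp_apply, map_sum]
  refine Finset.sum_congr rfl fun A _ => ?_
  rw [map_smul, lam_delta, mul_one, apply_delta hT]

theorem hat_uOp_mul (c : (𝒮.Y m → ZMod 2) → ℂ) (T : L2 𝒮.GG →L[ℂ] L2 𝒮.GG) :
    hat (uOp i₀ c * T) = uOp i₀ c (hat T) := rfl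

/-- The commutator of `u` with `λ(h)`, for `h ∈ K_n`. -/
theorem norm_brk_uOp (c : (𝒮.Y m → ZMod 2) → ℂ) {n : ℕ} (hn : n ≤ i₀) {h : 𝒮.GG}
    (hh : InK n h) :
    ‖hat (uOp i₀ c * lam h - lam h * uOp i₀ c)‖ ^ 2 =
      ∑ A, ‖c A - c (A ∘ 𝒮.actY m (gam h))‖ ^ 2 := by
  set σ := 𝒮.actY m (gam h) with hσ
  have h1 : hat (uOp i₀ c * lam h) = ∑ A, c A • delta (𝒮.tG m i₀ A * h) := by
    rw [hat_uOp_mul, hat_lam, uOp_apply]
    refine Finset.sum_congr rfl fun A _ => ?_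
    rw [lam_delta]
  have h2 : hat (lam h * uOp i₀ c) = ∑ A, c (A ∘ σ) • delta (𝒮.tG m i₀ A * h) := by
    rw [hat, mul_apply_eq_comp, uOp_apply, map_sum]
    rw [← Equiv.sum_comp (Equiv.arrowCongr σ.symm (Equiv.refl (ZMod 2)))]
    refine Finset.sum_congr rfl fun A _ => ?_
    rw [map_smul, lam_delta, lam_delta, mul_one, inK_mul_tG hn m _ hh, ← hσ]
    have e1 : (Equiv.arrowCongr σ.symm (Equiv.refl (ZMod 2))) A = A ∘ σ := by
      funext y; simp [Equiv.arrowCongr]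
    have e2 : (fun y => (A ∘ σ) (σ⁻¹ y)) = A := by
      funext y; simp
    rw [e1, e2]
  rw [hat_sub, h1, h2, ← Finset.sum_sub_distrib]
  simp only [← sub_smul]
  exact norm_sq_sum_delta _ _ fun A B hAB => (tG_mul_inj hn hh hh hAB).1

omit [Fintype (𝒮.Y m)] [DecidableEq (𝒮.Y m)] in
theorem tG_mul_tG_inv {n : ℕ} (hn : n ≤ i₀) {h : 𝒮.GG} (hh : InK n h)
    (A B : 𝒮.Y m → ZMod 2) :
    𝒮.tG m i₀ A * h * (𝒮.tG m i₀ B)⁻¹ =
      𝒮.tG m i₀ (A - fun y => B ((𝒮.actY m (gam h))⁻¹ y)) * h := by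
  rw [mul_inv_eq_iff_eq_mul, mul_assoc, inK_mul_tG hn m B hh, ← mul_assoc, ← tG_add,
    sub_add_cancel]

/-- The coordinates of `(R - u) ξ` for `ξ` supported on `K_n`. -/
theorem W_apply (c : (𝒮.Y m → ZMod 2) → ℂ) {n : ℕ} (hn : n ≤ i₀) {ξ : L2 𝒮.GG}
    (hξ : ∀ h, ¬ InK n h → ξ h = 0) {h : 𝒮.GG} (hh : InK n h) (A : 𝒮.Y m → ZMod 2) :
    (rOp i₀ c ξ - uOp i₀ c ξ) (𝒮.tG m i₀ A * h) =
      (c (A ∘ 𝒮.actY m (gam h)) - c A) * ξ h := by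
  set σ := 𝒮.actY m (gam h) with hσ
  rw [lp.coeFn_sub, Pi.sub_apply, sub_mul]
  congr 1
  · rw [rOp_apply, lp.coeFn_sum, Finset.sum_apply]
    rw [Finset.sum_eq_single (A ∘ σ)]
    · rw [lp.coeFn_smul, Pi.smul_apply, rho_apply, smul_eq_mul, tG_mul_tG_inv hn hh, ← hσ]
      have e2 : (fun y => (A ∘ σ) (σ⁻¹ y)) = A := by
        funext y; simp
      rw [e2, sub_self, tG_zero, one_mul]
    · intro B _ hB
      rw [lp.coeFn_smul, Pi.smul_apply, rho_apply, smul_eq_mul, tG_mul_tG_inv hn hh, ← hσ,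
        hξ, mul_zero]
      intro hcon
      have h1 := eq_zero_of_inK hn hh hcon
      apply hB
      rw [sub_eq_zero] at h1
      rw [h1]
      funext y
      simp
    · intro hA; exact absurd (Finset.mem_univ _) hA
  · rw [uOp_apply, lp.coeFn_sum, Finset.sum_apply]
    rw [Finset.sum_eq_single A]
    · rw [lp.coeFn_smul, Pi.smul_apply, lam_apply, smul_eq_mul, inv_mul_cancel_left]
    · intro B _ hB
      rw [lp.coeFn_smul, Pi.smul_apply, lam_apply, smul_eq_mul, ← mul_assoc, ← tG_neg, ← tG_add,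
        hξ, mul_zero]
      intro hcon
      have := eq_zero_of_inK hn hh hcon
      apply hB
      rw [neg_add_eq_zero] at this
      exact this
    · intro hA; exact absurd (Finset.mem_univ _) hA

end Sys

end MP_e0ff90_an
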