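import Pool.Agent.MP_e0ff90_an.Defs

/-!
# Definitions used in the statement: II₁ factors, the tracial ultrapower, hyperfiniteness

The tracial ultrapower is the set of norm-bounded sequences modulo the relation
`lim_𝓤 τ((x - y)* (x - y)) = 0`, with the termwise multiplication (the only part of the structure
that the relative commutants depend on).
-/

namespace PopaBicommutant

open Filter Topology
open scoped InnerProductSpace

universe u v

section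

variable {H : Type u} [NormedAddCommGroup H] [InnerProductSpace ℂ H] [CompleteSpace H]

/-- The functional `x ↦ ∑ᵢ ⟨ξᵢ, x ξᵢ⟩` on `B(H)`. -/
noncomputable def vecSum (ξ : ℕ → H) (x : H →L[ℂ] H) : ℂ := ∑' i, ⟪ξ i, x (ξ i)⟫_ℂ

variable (H) in
/-- A II₁ factor `N ⊆ B(H)`, given with its trace: `N` is a von Neumann algebra with centre `ℂ 1`,
it is infinite dimensional, and `τ(x) = ∑ᵢ ⟨ξᵢ, x ξᵢ⟩`, where `∑ᵢ ‖ξᵢ‖² < ∞`, is a (normal)
faithful tracial state on `N`. -/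
structure IIOneFactor where
  /-- the von Neumann algebra -/
  N : VonNeumannAlgebra H
  /-- the vectors defining the trace -/
  ξ : ℕ → H
  summable : Summable fun i => ‖ξ i‖ ^ 2
  factor : ∀ z ∈ N, (∀ x ∈ N, z * x = x * z) → ∃ c : ℂ, z = c • (1 : H →L[ℂ] H)
  infinite : ∀ s : Finset (H →L[ℂ] H), ∃ x ∈ N, x ∉ Submodule.span ℂ (s : Set (H →L[ℂ] H))
  map_one : vecSum ξ 1 = 1
  tracial : ∀ x ∈ N, ∀ y ∈ N, vecSum ξ (x * y) = vecSum ξ (y * x)
  faithful : ∀ x ∈ N, vecSum ξ (star x * x) = 0 → x = 0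

/-- The trace `τ(x) = ∑ᵢ ⟨ξᵢ, x ξᵢ⟩` of a II₁ factor. -/
noncomputable def IIOneFactor.tr (F : IIOneFactor H) (x : H →L[ℂ] H) : ℂ := vecSum F.ξ x

/-- Finite dimensional unital ⋆-subalgebras of `B(H)`. -/
structure IsFinDimStarSubalgebra (A : Set (H →L[ℂ] H)) : Prop where
  one_mem : 1 ∈ A
  add_mem : ∀ x ∈ A, ∀ y ∈ A, x + y ∈ A
  mul_mem : ∀ x ∈ A, ∀ y ∈ A, x * y ∈ A
  smul_mem : ∀ c : ℂ, ∀ x ∈ A, c • x ∈ A
  star_mem : ∀ x ∈ A, star x ∈ A
  finDim : ∃ s : Finset (H →L[ℂ] H), ∀ x ∈ A, x ∈ Submodule.span ℂ (s : Set (H →L[ℂ] H))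

/-- A II₁ factor `N` is hyperfinite if `N = (⋃ₙ Aₙ)''` for an increasing sequence of finite
dimensional ⋆-subalgebras `Aₙ`. -/
def IIOneFactor.IsHyperfinite (F : IIOneFactor H) : Prop :=
  ∃ A : ℕ → Set (H →L[ℂ] H), (∀ n, IsFinDimStarSubalgebra (A n)) ∧ (∀ n, A n ⊆ A (n + 1)) ∧
    (F.N : Set (H →L[ℂ] H)) = Set.centralizer (Set.centralizer (⋃ n, A n))

/-- Norm-bounded sequences in `N`. -/
structure BddSeq (F : IIOneFactor H) where
  /-- the sequence -/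
  seq : ℕ → H →L[ℂ] H
  mem : ∀ n, seq n ∈ F.N
  bdd : ∃ C : ℝ, ∀ n, ‖seq n‖ ≤ C

/-- `lim_{n → 𝓤} τ((xₙ - yₙ)* (xₙ - yₙ)) = 0`. -/
def UEq (F : IIOneFactor H) (𝓤 : Ultrafilter ℕ) (x y : BddSeq F) : Prop :=
  Tendsto (fun n => F.tr (star (x.seq n - y.seq n) * (x.seq n - y.seq n))) 𝓤 (𝓝 0)

/-! ### Basic facts (proved from `Defs`) -/

open _root_.MP_e0ff90_an

omit [CompleteSpace H] in
theorem vecSum_summable {ξ : ℕ → H} (hξ : Summable fun i => ‖ξ i‖ ^ 2) (x : H →L[ℂ] H) :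
    Summable fun i => ⟪ξ i, x (ξ i)⟫_ℂ := by
  refine Summable.of_norm_bounded (hξ.mul_left ‖x‖) fun i => ?_
  calc _ ≤ ‖ξ i‖ * ‖x (ξ i)‖ := norm_inner_le_norm _ _
    _ ≤ ‖ξ i‖ * (‖x‖ * ‖ξ i‖) := by gcongr; exact x.le_opNorm _
    _ = _ := by ring

/-- The trace as a linear functional on `N`. -/
noncomputable def IIOneFactor.lin (F : IIOneFactor H) : Alg F.N →ₗ[ℂ] ℂ where
  toFun x := F.tr (x : H →L[ℂ] H)
  map_add' x y := by
    change ∑' i, ⟪F.ξ i, ((x : H →L[ℂ] H) + (y : H →L[ℂ] H)) (F.ξ i)⟫_ℂ = _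
    simp only [add_apply, inner_add_right]
    exact (vecSum_summable F.summable _).tsum_add (vecSum_summable F.summable _)
  map_smul' c x := by
    change ∑' i, ⟪F.ξ i, (c • (x : H →L[ℂ] H)) (F.ξ i)⟫_ℂ = _
    simp only [smul_apply, inner_smul_right]
    exact tsum_mul_left

theorem IIOneFactor.isTrace (F : IIOneFactor H) : IsTrace F.N F.lin where
  map_one := F.map_one
  tracial x y := F.tracial _ x.2 _ y.2
  faithful x hx := Subtype.ext (F.faithful _ x.2 hx)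
  normal := ⟨F.ξ, F.summable, fun _ => rfl⟩

/-- A bounded sequence in the sense of `Defs`. -/
def BddSeq.toOld {F : IIOneFactor H} (x : BddSeq F) : boundedSeq F.N :=
  ⟨fun n => ⟨x.seq n, x.mem n⟩, x.bdd⟩

/-- A bounded sequence from one in the sense of `Defs`. -/
def BddSeq.ofOld {F : IIOneFactor H} (x : boundedSeq F.N) : BddSeq F :=
  ⟨fun n => (x.1 n : H →L[ℂ] H), fun n => (x.1 n).2, x.2⟩

theorem uEq_iff {F : IIOneFactor H} {𝓤 : Ultrafilter ℕ} {x y : BddSeq F} :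
    UEq F 𝓤 x y ↔ Tendsto (fun n => nsq F.lin (x.toOld.1 n - y.toOld.1 n)) 𝓤 (𝓝 0) := by
  have h : ∀ n, F.tr (star (x.seq n - y.seq n) * (x.seq n - y.seq n)) =
      ((nsq F.lin (x.toOld.1 n - y.toOld.1 n) : ℝ) : ℂ) := by
    intro n
    rw [← F.isTrace.apply_star_mul_self]
    rfl
  unfold UEq
  simp only [h]
  rw [← Complex.ofReal_zero, Filter.tendsto_ofReal_iff]

theorem uEq_refl {F : IIOneFactor H} {𝓤 : Ultrafilter ℕ} (x : BddSeq F) : UEq F 𝓤 x x := by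
  rw [uEq_iff]
  simp [nsq_zero]

theorem uEq_symm {F : IIOneFactor H} {𝓤 : Ultrafilter ℕ} {x y : BddSeq F}
    (h : UEq F 𝓤 x y) : UEq F 𝓤 y x := by
  rw [uEq_iff] at h ⊢
  refine h.congr fun n => ?_
  rw [← F.isTrace.nsq_neg, neg_sub]

theorem uEq_trans {F : IIOneFactor H} {𝓤 : Ultrafilter ℕ} {x y z : BddSeq F}
    (h : UEq F 𝓤 x y) (h' : UEq F 𝓤 y z) : UEq F 𝓤 x z := by
  rw [uEq_iff] at h h' ⊢
  refine squeeze_zero (fun n => F.isTrace.nsq_nonneg _) (fun n => ?_)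
    (g := fun n => 2 * nsq F.lin (x.toOld.1 n - y.toOld.1 n) +
      2 * nsq F.lin (y.toOld.1 n - z.toOld.1 n)) ?_
  · have := F.isTrace.nsq_add (x.toOld.1 n - y.toOld.1 n) (y.toOld.1 n - z.toOld.1 n)
    rwa [sub_add_sub_cancel] at this
  · simpa using (h.const_mul 2).add (h'.const_mul 2)

theorem uEq_equivalence (F : IIOneFactor H) (𝓤 : Ultrafilter ℕ) : Equivalence (UEq F 𝓤) :=
  ⟨uEq_refl, uEq_symm, uEq_trans⟩

theorem mul_mem_N {F : IIOneFactor H} (x y : BddSeq F) (n : ℕ) :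
    x.seq n * y.seq n ∈ F.N := mul_mem (x.mem n) (y.mem n)

theorem mul_bdd {F : IIOneFactor H} (x y : BddSeq F) :
    ∃ C : ℝ, ∀ n, ‖x.seq n * y.seq n‖ ≤ C := (x.toOld * y.toOld).2

/-- Termwise product. -/
def BddSeq.mul {F : IIOneFactor H} (x y : BddSeq F) : BddSeq F :=
  ⟨fun n => x.seq n * y.seq n, mul_mem_N x y, mul_bdd x y⟩

theorem uEq_mul_left (F : IIOneFactor H) (𝓤 : Ultrafilter ℕ) (x y z : BddSeq F)
    (h : UEq F 𝓤 y z) : UEq F 𝓤 (x.mul y) (x.mul z) := by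
  rw [uEq_iff] at h ⊢
  obtain ⟨C, hC⟩ := x.bdd
  refine squeeze_zero (g := fun n => C ^ 2 * nsq F.lin (y.toOld.1 n - z.toOld.1 n))
    (fun n => F.isTrace.nsq_nonneg _) (fun n => ?_) (by simpa using h.const_mul (C ^ 2))
  have e : (x.mul y).toOld.1 n - (x.mul z).toOld.1 n =
      x.toOld.1 n * (y.toOld.1 n - z.toOld.1 n) := by
    rw [mul_sub]; rfl
  rw [e]
  refine (F.isTrace.nsq_mul_left _ _).trans ?_
  have := F.isTrace.nsq_nonneg (y.toOld.1 n - z.toOld.1 n)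
  gcongr
  exact hC n

theorem uEq_mul_right (F : IIOneFactor H) (𝓤 : Ultrafilter ℕ) (x y z : BddSeq F)
    (h : UEq F 𝓤 x y) : UEq F 𝓤 (x.mul z) (y.mul z) := by
  rw [uEq_iff] at h ⊢
  obtain ⟨C, hC⟩ := z.bdd
  refine squeeze_zero (g := fun n => C ^ 2 * nsq F.lin (x.toOld.1 n - y.toOld.1 n))
    (fun n => F.isTrace.nsq_nonneg _) (fun n => ?_) (by simpa using h.const_mul (C ^ 2))
  have e : (x.mul z).toOld.1 n - (y.mul z).toOld.1 n =
      (x.toOld.1 n - y.toOld.1 n) * z.toOld.1 n := by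
    rw [sub_mul]; rfl
  rw [e]
  refine (F.isTrace.nsq_mul_right _ _).trans ?_
  have := F.isTrace.nsq_nonneg (x.toOld.1 n - y.toOld.1 n)
  gcongr
  exact hC n

/-! ### The ultrapower -/

/-- `UEq` is an equivalence relation. -/
def ultraSetoid (F : IIOneFactor H) (𝓤 : Ultrafilter ℕ) : Setoid (BddSeq F) :=
  ⟨UEq F 𝓤, uEq_equivalence F 𝓤⟩

/-- The tracial ultrapower `N^𝓤`: norm-bounded sequences in `N` modulo
`lim_𝓤 τ((x - y)* (x - y)) = 0`. -/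
def Ultrapower (F : IIOneFactor H) (𝓤 : Ultrafilter ℕ) : Type u := Quotient (ultraSetoid F 𝓤)

/-- The class in `N^𝓤` of a norm-bounded sequence. -/
def Ultrapower.mk (F : IIOneFactor H) (𝓤 : Ultrafilter ℕ) (x : BddSeq F) : Ultrapower F 𝓤 :=
  Quotient.mk (ultraSetoid F 𝓤) x

/-- The multiplication of `N^𝓤`, induced by the termwise multiplication of sequences. -/
instance (F : IIOneFactor H) (𝓤 : Ultrafilter ℕ) : Mul (Ultrapower F 𝓤) :=
  ⟨Quot.map₂ BddSeq.mul (uEq_mul_left F 𝓤) (uEq_mul_right F 𝓤)⟩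

/-- The constant sequence `a, a, a, …`. -/
def BddSeq.const (F : IIOneFactor H) (a : H →L[ℂ] H) (ha : a ∈ F.N) : BddSeq F :=
  ⟨fun _ => a, fun _ => ha, ‖a‖, fun _ => le_rfl⟩

/-- The copy of `N` in `N^𝓤`: the classes of the constant sequences. -/
def diagRange (F : IIOneFactor H) (𝓤 : Ultrafilter ℕ) : Set (Ultrapower F 𝓤) :=
  {X | ∃ (a : H →L[ℂ] H) (ha : a ∈ F.N), X = Ultrapower.mk F 𝓤 (BddSeq.const F a ha)}

/-- The ultrapower bicommutant `(N' ∩ N^𝓤)' ∩ N^𝓤`: the centralizer in `N^𝓤` of the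
centralizer in `N^𝓤` of (the copy of) `N`. -/
def bicommutant (F : IIOneFactor H) (𝓤 : Ultrafilter ℕ) : Set (Ultrapower F 𝓤) :=
  Set.centralizer (Set.centralizer (diagRange F 𝓤))

/-- The II₁ factors `N₁ ⊆ B(H)` and `N₂ ⊆ B(K)` are isomorphic: there is a bijection
`Θ : N₁ → N₂` which is linear, multiplicative and ⋆-preserving. -/
def Isomorphic {K : Type v} [NormedAddCommGroup K] [InnerProductSpace ℂ K] [CompleteSpace K]
    (F₁ : IIOneFactor H) (F₂ : IIOneFactor K) : Prop :=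
  ∃ Θ : (H →L[ℂ] H) → (K →L[ℂ] K), Set.BijOn Θ F₁.N F₂.N ∧
    (∀ x ∈ F₁.N, ∀ y ∈ F₁.N, Θ (x + y) = Θ x + Θ y ∧ Θ (x * y) = Θ x * Θ y) ∧
    ∀ x ∈ F₁.N, Θ (star x) = star (Θ x) ∧ ∀ c : ℂ, Θ (c • x) = c • Θ x

end

end PopaBicommutant
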