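import Mathlib

/-!
# The group `G` of finitary deviations of an action with finite orbits
-/

namespace MP_e0ff90_an

theorem perm_apply_inv {α : Type*} (e : Equiv.Perm α) (x : α) : e (e⁻¹ x) = x :=
  e.apply_symm_apply x

theorem perm_inv_apply {α : Type*} (e : Equiv.Perm α) (x : α) : e⁻¹ (e x) = x :=
  e.symm_apply_apply x

/-- A countable union of finite `Γ`-sets (indexed by the level) with a sign function `f`, such
that the number `D m g` of sign changes of `g` at level `m` is bounded in `m` for every `g`, and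
is large for `g` outside a finite set and suitable `m`. -/
structure Sys (Γ : Type) [Group Γ] where
  /-- the underlying set -/
  Z : Type
  /-- the action -/
  act : MulAction Γ Z
  /-- the level -/
  level : Z → ℕ
  level_smul : ∀ (g : Γ) (z : Z), level (g • z) = level z
  finite_level : ∀ m, {z | level z = m}.Finite
  /-- the sign -/
  f : Z → Bool
  bounded : ∀ g : Γ, ∃ L : ℕ, ∀ m, {z | level z = m ∧ f (g • z) ≠ f z}.ncard ≤ L
  large : ∀ M : ℕ, ∃ S : Finset Γ, ∀ K : Finset Γ, Disjoint K S → ∃ m, ∀ g ∈ K,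
    M ≤ {z | level z = m ∧ f (g • z) ≠ f z}.ncard
  faithful : ∀ g : Γ, g ≠ 1 → ∃ z : Z, g • z ≠ z

attribute [instance] Sys.act

namespace Sys

variable {Γ : Type} [Group Γ] (𝒮 : Sys Γ)

/-- The countable set on which `G` acts. -/
abbrev X : Type := 𝒮.Z × ZMod 2 × ℕ

/-- The index of a point; there are finitely many points of a given index. -/
def idx (x : 𝒮.X) : ℕ := max (𝒮.level x.1) x.2.2

/-- The action of `Γ` on `X`. -/
def actX : Γ →* Equiv.Perm 𝒮.X where
  toFun g := Equiv.prodCongr (MulAction.toPerm g) (Equiv.refl _)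
  map_one' := by ext x <;> simp
  map_mul' g h := by
    ext x <;> simp [mul_smul]

@[simp] theorem actX_apply (g : Γ) (x : 𝒮.X) : 𝒮.actX g x = (g • x.1, x.2) := rfl

@[simp] theorem idx_actX (g : Γ) (x : 𝒮.X) : 𝒮.idx (𝒮.actX g x) = 𝒮.idx x := by
  simp [idx, 𝒮.level_smul]

theorem finite_idx_lt (n : ℕ) : {x : 𝒮.X | 𝒮.idx x < n}.Finite := by
  have h1 : {z : 𝒮.Z | 𝒮.level z < n}.Finite := by
    have : {z : 𝒮.Z | 𝒮.level z < n} = ⋃ m ∈ Finset.range n, {z | 𝒮.level z = m} := by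
      ext z; simp
    rw [this]
    exact Set.Finite.biUnion (Finset.finite_toSet _) fun m _ => 𝒮.finite_level m
  refine (h1.prod ((Set.finite_univ (α := ZMod 2)).prod (Set.finite_lt_nat n))).subset ?_
  rintro ⟨z, b, i⟩ h
  simp only [idx, Set.mem_ofPred_eq, sup_lt_iff] at h
  exact ⟨h.1, Set.mem_univ _, h.2⟩

/-- The group of pairs `(π, g)` with `π` a permutation of `X` that agrees with `g` off a
finite set. -/
def G : Subgroup (Equiv.Perm 𝒮.X × Γ) where
  carrier := {p | {x | p.1 x ≠ 𝒮.actX p.2 x}.Finite}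
  one_mem' := by simp
  mul_mem' := by
    intro p q hp hq
    have h1 : ((𝒮.actX q.2) ⁻¹' {x | p.1 x ≠ 𝒮.actX p.2 x}).Finite :=
      Set.Finite.preimage (𝒮.actX q.2).injective.injOn hp
    refine (hq.union h1).subset ?_
    intro x hx
    by_contra hcon
    simp only [Set.mem_union, Set.mem_ofPred_eq, Set.mem_preimage, not_or, not_not] at hcon
    apply hx
    rw [Prod.fst_mul, Prod.snd_mul, Equiv.Perm.mul_apply, hcon.1, hcon.2, map_mul,
      Equiv.Perm.mul_apply]
  inv_mem' := by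
    intro p hp
    refine (Set.Finite.image p.1 hp).subset ?_
    intro x hx
    refine ⟨p.1⁻¹ x, ?_, by simp⟩
    simp only [Set.mem_ofPred_eq] at hx ⊢
    rw [perm_apply_inv]
    intro h
    apply hx
    rw [Prod.fst_inv, Prod.snd_inv, map_inv]
    rw [Equiv.Perm.eq_inv_iff_eq]
    exact h.symm

/-- The type of elements of the group. -/
abbrev GG : Type := ↥𝒮.G

variable {𝒮}

/-- The permutation of `X` underlying an element. -/
abbrev perm (h : 𝒮.GG) : Equiv.Perm 𝒮.X := h.1.1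

/-- The component in `Γ`. -/
def gam : 𝒮.GG →* Γ := (MonoidHom.snd _ _).comp 𝒮.G.subtype

@[simp] theorem gam_mk (p : Equiv.Perm 𝒮.X × Γ) (hp : p ∈ 𝒮.G) : gam (⟨p, hp⟩ : 𝒮.GG) = p.2 := rfl

theorem perm_mul (h k : 𝒮.GG) : perm (h * k) = perm h * perm k := rfl

theorem perm_inv (h : 𝒮.GG) : perm h⁻¹ = (perm h)⁻¹ := rfl

theorem ext_GG {h k : 𝒮.GG} (h1 : ∀ x, perm h x = perm k x) (h2 : gam h = gam k) : h = k := by
  apply Subtype.ext
  apply Prod.ext
  · exact Equiv.ext h1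
  · exact h2

/-- The elements which agree with their `Γ`-component at points of index `≥ n`. -/
def InK (n : ℕ) (h : 𝒮.GG) : Prop := ∀ x, n ≤ 𝒮.idx x → perm h x = 𝒮.actX (gam h) x

theorem exists_inK (h : 𝒮.GG) : ∃ n, InK n h := by
  have hf : {x | perm h x ≠ 𝒮.actX (gam h) x}.Finite := h.2
  obtain ⟨n, hn⟩ := (hf.image 𝒮.idx).bddAbove
  refine ⟨n + 1, fun x hx => ?_⟩
  by_contra hcon
  have := hn ⟨x, hcon, rfl⟩
  omega

theorem InK.mono {n m : ℕ} (hnm : n ≤ m) {h : 𝒮.GG} (hh : InK n h) : InK m h :=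
  fun x hx => hh x (hnm.trans hx)

theorem exists_inK_finset (F : Finset 𝒮.GG) : ∃ n, ∀ h ∈ F, InK n h := by
  choose n hn using exists_inK (𝒮 := 𝒮)
  exact ⟨F.sup n, fun h hh => (hn h).mono (Finset.le_sup hh)⟩

/-- elements of `K_n` preserve `{idx < n}`. -/
theorem InK.idx_lt {n : ℕ} {h : 𝒮.GG} (hh : InK n h) {x : 𝒮.X} (hx : 𝒮.idx x < n) :
    𝒮.idx (perm h x) < n := by
  by_contra hcon
  push Not at hcon
  set y := 𝒮.actX (gam h)⁻¹ (perm h x) with hy
  have hy1 : n ≤ 𝒮.idx y := by rw [hy, idx_actX]; exact hcon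
  have hy2 := hh y hy1
  have hy3 : 𝒮.actX (gam h) y = perm h x := by
    rw [hy, map_inv, perm_apply_inv]
  rw [hy3] at hy2
  have := (perm h).injective hy2
  rw [this] at hy1
  omega

theorem InK.idx_ge {n : ℕ} {h : 𝒮.GG} (hh : InK n h) {x : 𝒮.X} (hx : n ≤ 𝒮.idx x) :
    n ≤ 𝒮.idx (perm h x) := by
  rw [hh x hx, idx_actX]; exact hx

/-- Finiteness of the part of `K_n` over a finite subset of `Γ`. -/
theorem finite_inK (n : ℕ) (S : Finset Γ) : {h : 𝒮.GG | InK n h ∧ gam h ∈ S}.Finite := by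
  classical
  have hfin := 𝒮.finite_idx_lt n
  have : Finite {x : 𝒮.X // 𝒮.idx x < n} := hfin.to_subtype
  let Φ : {h : 𝒮.GG | InK n h ∧ gam h ∈ S} →
      S × ({x : 𝒮.X // 𝒮.idx x < n} → {x : 𝒮.X // 𝒮.idx x < n}) :=
    fun h => (⟨gam h.1, h.2.2⟩, fun x => ⟨perm h.1 x.1, h.2.1.idx_lt x.2⟩)
  have hΦ : Function.Injective Φ := by
    rintro ⟨h, hh⟩ ⟨k, hk⟩ heq
    simp only [Φ, Prod.mk.injEq, Subtype.mk.injEq] at heq
    apply Subtype.ext
    refine ext_GG (fun x => ?_) heq.1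
    by_cases hx : 𝒮.idx x < n
    · have := congrFun heq.2 ⟨x, hx⟩
      exact congrArg Subtype.val this
    · push Not at hx
      rw [hh.1 x hx, hk.1 x hx]
      exact congrArg (fun g => 𝒮.actX g x) heq.1
  exact Set.finite_coe_iff.1 (Finite.of_injective Φ hΦ)

end Sys

end MP_e0ff90_an
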