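import Pool.Agent.MP_e0ff90_an.ICC
import Pool.Agent.MP_e0ff90_an.Ultra

/-!
# The first half of the key estimate: mass off `K_n`
-/

namespace MP_e0ff90_an

open scoped InnerProductSpace

variable {G : Type} [Group G]

theorem hat_mul_lam {T : L2 G →L[ℂ] L2 G} (hT : T ∈ (LG G).toStarSubalgebra) (s g : G) :
    hat (T * lam s) g = hat T (g * s⁻¹) := by
  rw [hat, mul_apply_eq_comp, lam_delta, mul_one, apply_delta_apply hT]

theorem hat_lam_mul (T : L2 G →L[ℂ] L2 G) (s g : G) :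
    hat (lam s * T) g = hat T (s⁻¹ * g) := by
  rw [hat, mul_apply_eq_comp, lam_apply]; rfl

namespace Sys

variable {Γ : Type} [Group Γ] {𝒮 : Sys Γ}

open Classical in
/-- The mass of `ξ` off `K_n`. -/
noncomputable def offMass (n : ℕ) (ξ : L2 𝒮.GG) (g : 𝒮.GG) : ℝ :=
  if InK n g then 0 else ‖ξ g‖ ^ 2

theorem offMass_nonneg (n : ℕ) (ξ : L2 𝒮.GG) (g : 𝒮.GG) : 0 ≤ offMass n ξ g := by
  unfold offMass; split_ifs <;> positivity

theorem offMass_summable (n : ℕ) (ξ : L2 𝒮.GG) : Summable (offMass n ξ) := by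
  refine Summable.of_nonneg_of_le (offMass_nonneg n ξ) (fun g => ?_) ξ.summable
  unfold offMass; split_ifs <;> simp

theorem tail_bound (n : ℕ) {T : L2 𝒮.GG →L[ℂ] L2 𝒮.GG}
    (hT : T ∈ (LG 𝒮.GG).toStarSubalgebra) {ε : ℝ}
    (h : ∀ s : 𝒮.GG, (∀ h, InK n h → s * h = h * s) →
      ‖hat (T * lam s - lam s * T)‖ ≤ ε) :
    ∑' g, offMass n (hat T) g ≤ 2 * ε ^ 2 := by
  classical
  set A2 := ∑' g, offMass n (hat T) g with hA2
  have hsm := offMass_summable n (hat T)
  have hkey : ∀ t : Finset 𝒮.GG, ∑ g ∈ t, offMass n (hat T) g ≤ (2 * ε ^ 2 + 2 * A2) / 3 := by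
    intro t
    set F := t.filter (fun g => ¬ InK n g) with hF
    have e0 : ∑ g ∈ t, offMass n (hat T) g = ∑ g ∈ F, ‖hat T g‖ ^ 2 := by
      rw [hF, Finset.sum_filter]
      refine Finset.sum_congr rfl fun g _ => ?_
      unfold offMass
      split_ifs <;> rfl
    have hFn : ∀ g ∈ F, ¬ InK n g := fun g hg => (Finset.mem_filter.1 hg).2
    obtain ⟨s, hs1, hs2⟩ := exists_move n F hFn
    have hε := h s hs1
    -- the commutator estimate
    have e1 : ∑ g ∈ F, ‖hat T (s * g * s⁻¹) - hat T g‖ ^ 2 ≤ ε ^ 2 := by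
      have a1 := L2.sum_le (hat (T * lam s - lam s * T)) (F.image (fun g => s * g))
      rw [Finset.sum_image (fun _ _ _ _ hab => mul_left_cancel hab)] at a1
      have a2 : ∀ g, hat (T * lam s - lam s * T) (s * g) = hat T (s * g * s⁻¹) - hat T g := by
        intro g
        rw [hat_sub, lp.coeFn_sub, Pi.sub_apply, hat_mul_lam hT, hat_lam_mul,
          inv_mul_cancel_left]
      simp only [a2] at a1
      refine a1.trans ?_
      have := norm_nonneg (hat (T * lam s - lam s * T))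
      gcongr
    have e2 : ∑ g ∈ F, ‖hat T g‖ ^ 2 + ∑ g ∈ F, ‖hat T (s * g * s⁻¹)‖ ^ 2 ≤ A2 := by
      have hinj : Set.InjOn (fun g => s * g * s⁻¹) (F : Set 𝒮.GG) := by
        intro a _ b _ hab
        simpa using hab
      have hdisj : Disjoint F (F.image (fun g => s * g * s⁻¹)) := by
        rw [Finset.disjoint_right]
        intro g hg
        obtain ⟨g', hg', rfl⟩ := Finset.mem_image.1 hg
        exact (hs2 g' hg').1
      have b1 : ∑ g ∈ F, ‖hat T g‖ ^ 2 + ∑ g ∈ F, ‖hat T (s * g * s⁻¹)‖ ^ 2 =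
          ∑ g ∈ F ∪ F.image (fun g => s * g * s⁻¹), offMass n (hat T) g := by
        rw [Finset.sum_union hdisj, Finset.sum_image hinj]
        congr 1
        · refine Finset.sum_congr rfl fun g hg => ?_
          unfold offMass
          rw [if_neg (hFn g hg)]
        · refine Finset.sum_congr rfl fun g hg => ?_
          unfold offMass
          rw [if_neg (hs2 g hg).2]
      rw [b1]
      exact hsm.sum_le_tsum _ fun _ _ => offMass_nonneg _ _ _
    have e3 : ∑ g ∈ F, ‖hat T g‖ ^ 2 ≤ 2 * ∑ g ∈ F, ‖hat T (s * g * s⁻¹) - hat T g‖ ^ 2 +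
        2 * ∑ g ∈ F, ‖hat T (s * g * s⁻¹)‖ ^ 2 := by
      rw [Finset.mul_sum, Finset.mul_sum, ← Finset.sum_add_distrib]
      refine Finset.sum_le_sum fun g _ => ?_
      have := norm_sub_le (hat T (s * g * s⁻¹)) (hat T (s * g * s⁻¹) - hat T g)
      rw [sub_sub_cancel] at this
      nlinarith [norm_nonneg (hat T g), norm_nonneg (hat T (s * g * s⁻¹)),
        norm_nonneg (hat T (s * g * s⁻¹) - hat T g),
        sq_nonneg (‖hat T (s * g * s⁻¹)‖ - ‖hat T (s * g * s⁻¹) - hat T g‖)]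
    rw [e0]
    linarith
  have := hsm.tsum_le_of_sum_le hkey
  rw [← hA2] at this
  linarith

end Sys

end MP_e0ff90_an
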